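import Pool.Agent.H1.Dom.G

/-!
MP_0061eb_lc: module A1 (if the second player wins the uniform covering game then Dominator wins).
-/

namespace Pool.Agent.H1.Dom

open Set

section

variable {K I : Type} (F : K → Set I)

theorem nb_inl (k : K) : nb (splitG F) (Sum.inl k) = {x | (∃ k', x = Sum.inl k') ∨ ∃ i ∈ F k, x = Sum.inr i} := by
  ext x
  constructor
  · rintro (h | h)
    · exact Or.inl ⟨k, h⟩
    · rw [splitG, SimpleGraph.fromRel_adj] at h
      obtain ⟨_, h⟩ := h
      rcases x with k' | i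
      · exact Or.inl ⟨k', rfl⟩
      · rcases h with h | h
        · exact Or.inr ⟨i, h, rfl⟩
        · exact h.elim
  · rintro (⟨k', rfl⟩ | ⟨i, hi, rfl⟩)
    · by_cases h : k' = k
      · exact Or.inl (by rw [h])
      · refine Or.inr ?_
        rw [splitG, SimpleGraph.fromRel_adj]
        exact ⟨fun h' => h (Sum.inl.inj h').symm, Or.inl trivial⟩
    · refine Or.inr ?_
      rw [splitG, SimpleGraph.fromRel_adj]
      exact ⟨by simp, Or.inl hi⟩

end

theorem ta1 {Q K : Type} [Fintype Q] [DecidableEq Q]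
    (R : Q → Finset Q → Prop) (l d : ℕ) (hl : 1 ≤ l) (hcard : Fintype.card Q = l * d)
    (F : K → Set (Q × Fin 3 ⊕ Fin (3 * l - 1))) (hF : Good R l F)
    (hU : UW R l Finset.univ) : Win (splitG F) (2 * d + 1) true ∅ := by
  obtain ⟨k0, hk0⟩ := hF.zero
  refine win_of_move _ _ _ (Sum.inl k0) ?_
  -- the claim
  have claim : ∀ (m : ℕ) (U : Finset Q) (A : Set (K ⊕ (Q × Fin 3 ⊕ Fin (3 * l - 1)))),
      U.card = l * m → UW R l U → (∀ k, Sum.inl k ∈ A) → (∀ z, Sum.inr (Sum.inr z) ∈ A) →
      (∀ x c, x ∉ U → Sum.inr (Sum.inl (x, c)) ∈ A) → Win (splitG F) (2 * m) false A := by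
    intro m
    induction m with
    | zero =>
      intro U A hUc _ h1 h2 h3
      have hU0 : U = ∅ := by
        rw [← Finset.card_eq_zero, hUc, mul_zero]
      change Win (splitG F) 0 false A
      rw [win_zero_iff]
      refine Set.eq_univ_of_forall fun x => ?_
      rcases x with k | ⟨x, c⟩ | z
      · exact h1 k
      · exact h3 x c (by rw [hU0]; simp)
      · exact h2 z
    | succ m ih =>
      intro U A hUc hUW h1 h2 h3
      have e : 2 * (m + 1) = (2 * m + 1) + 1 := by ring
      rw [e]
      intro v hv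
      obtain ⟨w, hw, hwA⟩ := Set.not_subset.1 hv
      obtain ⟨q, c, rfl, hq⟩ : ∃ q c, w = Sum.inr (Sum.inl (q, c)) ∧ q ∈ U := by
        rcases w with k | ⟨x, c⟩ | z
        · exact absurd (h1 k) hwA
        · refine ⟨x, c, rfl, ?_⟩
          by_contra hx
          exact hwA (h3 x c hx)
        · exact absurd (h2 z) hwA
      obtain ⟨Y, hRY, hqY, hYU, hYc, hUY⟩ := (UW_iff R).1 hUW q hq
      obtain ⟨k, hk⟩ := hF.all q Y c hRY hqY hYc
      have hsub : A ∪ {Sum.inr (Sum.inl (q, c))} ⊆ A ∪ nb (splitG F) v := by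
        refine Set.union_subset_union_right _ ?_
        rw [Set.singleton_subset_iff]
        exact hw
      refine tg3 _ _ _ _ _ hsub ?_
      refine win_of_move _ _ _ (Sum.inl k) ?_
      refine ih (U \ Y) _ ?_ hUY ?_ ?_ ?_
      · rw [Finset.card_sdiff_of_subset hYU, hUc, hYc, Nat.mul_succ]
        omega
      · intro k'
        exact Or.inl (Or.inl (h1 k'))
      · intro z
        exact Or.inl (Or.inl (h2 z))
      · intro x c' hx
        by_cases hxU : x ∈ U
        · have hxY : x ∈ Y := by
            by_contra hxY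
            exact hx (Finset.mem_sdiff.2 ⟨hxU, hxY⟩)
          by_cases hxc : x = q ∧ c' = c
          · left
            right
            rw [hxc.1, hxc.2]
            rfl
          · right
            rw [nb_inl, hk]
            exact Or.inr ⟨_, ⟨x, c', rfl, hxY, hxc⟩, rfl⟩
        · exact Or.inl (Or.inl (h3 x c' hxU))
  refine claim d Finset.univ _ ?_ hU ?_ ?_ ?_
  · rw [Finset.card_univ, hcard]
  · intro k
    right
    rw [nb_inl]
    exact Or.inl ⟨k, rfl⟩
  · intro z
    right
    rw [nb_inl, hk0]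
    exact Or.inr ⟨_, ⟨z, rfl⟩, rfl⟩
  · intro x c hx
    exact absurd (Finset.mem_univ x) hx

end Pool.Agent.H1.Dom
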