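import Pool.Agent.H1.Dom.Targets

/-!
MP_0061eb_lc, module A2 (the direction `Win → UW` of `TA`).  helper56
-/

namespace Pool.Agent.H1.Dom

open Set

set_option linter.unusedSectionVars false

namespace A2

section gen

variable {K I : Type} (F : K → Set I)

theorem inl_nb_inl (k k' : K) : (Sum.inl k' : K ⊕ I) ∈ nb (splitG F) (Sum.inl k) := by
  by_cases h : k' = k
  · left; rw [h]
  · right
    simp [splitG, SimpleGraph.fromRel_adj, Ne.symm h]

theorem inr_nb_inl (k : K) (i : I) : (Sum.inr i : K ⊕ I) ∈ nb (splitG F) (Sum.inl k) ↔ i ∈ F k := by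
  simp [nb, splitG, SimpleGraph.fromRel_adj]

theorem inr_nb_inr (i j : I) : (Sum.inr j : K ⊕ I) ∈ nb (splitG F) (Sum.inr i) ↔ j = i := by
  simp [nb, splitG, SimpleGraph.fromRel_adj]

theorem inl_nb_inr (i : I) (k : K) : (Sum.inl k : K ⊕ I) ∈ nb (splitG F) (Sum.inr i) ↔ i ∈ F k := by
  simp [nb, splitG, SimpleGraph.fromRel_adj]

/-- number of undominated elements of `I` -/
noncomputable def unc (A : Set (K ⊕ I)) : ℕ := {i : I | Sum.inr i ∉ A}.ncard

/-- number of elements of `I` newly dominated by `v` -/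
noncomputable def new (A : Set (K ⊕ I)) (v : K ⊕ I) : ℕ :=
  {i : I | Sum.inr i ∉ A ∧ Sum.inr i ∈ nb (splitG F) v}.ncard

variable [Finite I]

theorem unc_new (A : Set (K ⊕ I)) (v : K ⊕ I) :
    unc (A ∪ nb (splitG F) v) + new F A v = unc A := by
  unfold unc new
  rw [← Set.ncard_union_eq]
  · congr 1
    ext i
    simp only [mem_union, Set.mem_ofPred_eq]
    by_cases h1 : (Sum.inr i : K ⊕ I) ∈ A <;>
      by_cases h2 : (Sum.inr i : K ⊕ I) ∈ nb (splitG F) v <;> simp [h1, h2]
  · rw [Set.disjoint_left]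
    intro i h1 h2
    simp only [mem_union, Set.mem_ofPred_eq] at h1 h2
    tauto

theorem new_inr (A : Set (K ⊕ I)) (i : I) : new F A (Sum.inr i) ≤ 1 := by
  unfold new
  calc _ ≤ ({i} : Set I).ncard := by
        apply Set.ncard_le_ncard _ (Set.toFinite _)
        rintro j ⟨_, h⟩
        rw [inr_nb_inr] at h
        exact h
    _ = 1 := Set.ncard_singleton i

theorem new_inr_eq (A : Set (K ⊕ I)) (i : I) (h : Sum.inr i ∉ A) :
    new F A (Sum.inr i) = 1 := by
  unfold new
  rw [← Set.ncard_singleton i]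
  congr 1
  ext j
  simp only [Set.mem_ofPred_eq, inr_nb_inr, mem_singleton_iff]
  constructor
  · exact fun h => h.2
  · rintro rfl; exact ⟨h, rfl⟩

theorem new_inl (A : Set (K ⊕ I)) (k : K) :
    new F A (Sum.inl k) = {i : I | Sum.inr i ∉ A ∧ i ∈ F k}.ncard := by
  unfold new
  simp only [inr_nb_inl]

theorem new_inl_le (A : Set (K ⊕ I)) (k : K) : new F A (Sum.inl k) ≤ (F k).ncard := by
  rw [new_inl]
  apply Set.ncard_le_ncard _ (Set.toFinite _)
  exact fun i h => h.2

theorem ne_univ {A : Set (K ⊕ I)} (h : 0 < unc A) : A ≠ univ := by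
  rintro rfl
  simp [unc] at h

theorem legal_inr {A : Set (K ⊕ I)} {i : I} (h : Sum.inr i ∉ A) :
    Legal (splitG F) A (Sum.inr i) := by
  intro hs
  exact h (hs ((inr_nb_inr F i i).mpr rfl))

theorem new_le {s : ℕ} (hs : 1 ≤ s) (hF : ∀ k, (F k).ncard ≤ s) (A : Set (K ⊕ I)) (v : K ⊕ I) :
    new F A v ≤ s := by
  cases v with
  | inl k => exact (new_inl_le F A k).trans (hF k)
  | inr i => exact (new_inr F A i).trans hs

/-- (cnt) -/
theorem cnt {s : ℕ} (hs : 1 ≤ s) (hF : ∀ k, (F k).ncard ≤ s) (m : ℕ) :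
    ∀ A : Set (K ⊕ I), (s + 1) * m < unc A → ¬ Win (splitG F) (2 * m) false A := by
  induction m with
  | zero =>
    intro A hA hW
    exact ne_univ (by omega) hW
  | succ m ih =>
    intro A hA hW
    have h0 : 0 < unc A := by omega
    obtain ⟨i, hi⟩ : {i : I | Sum.inr i ∉ A}.Nonempty := by
      rw [← Set.ncard_pos (Set.toFinite _)]; exact h0
    have h1 := hW _ (legal_inr F hi)
    have e1 := unc_new F A (Sum.inr i)
    rw [new_inr_eq F A i hi] at e1
    have h2 : 0 < unc (A ∪ nb (splitG F) (Sum.inr i)) := by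
      rw [mul_add] at hA; omega
    rcases h1 with h1 | ⟨v, _, h1⟩
    · exact ne_univ h2 h1
    · refine ih _ ?_ h1
      have e2 := unc_new F (A ∪ nb (splitG F) (Sum.inr i)) v
      have e3 := new_le F hs hF (A ∪ nb (splitG F) (Sum.inr i)) v
      rw [mul_add] at hA
      omega

/-- (dead) -/
theorem dead {s : ℕ} (hs : 2 ≤ s) (hF : ∀ k, (F k).ncard ≤ s) (e : I) (m : ℕ) :
    ∀ A : Set (K ⊕ I), Sum.inr e ∉ A →
      (∀ k, e ∈ F k → {i : I | Sum.inr i ∉ A ∧ i ∈ F k}.ncard < s) →
      (s + 1) * m ≤ unc A → ¬ Win (splitG F) (2 * m) false A := by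
  induction m with
  | zero =>
    intro A he _ _ hW
    have hW : A = univ := hW
    exact he (by rw [hW]; trivial)
  | succ m ih =>
    intro A he hd hA hW
    obtain ⟨x, hx, hxe⟩ : ∃ x, Sum.inr x ∉ A ∧ x ≠ e := by
      by_contra hcon
      push Not at hcon
      have : unc A ≤ ({e} : Set I).ncard :=
        Set.ncard_le_ncard (fun i hi => hcon i hi) (Set.toFinite _)
      rw [Set.ncard_singleton] at this
      rw [mul_add] at hA
      omega
    have h1 := hW _ (legal_inr F hx)
    set A' := A ∪ nb (splitG F) (Sum.inr x) with hA'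
    have e1 := unc_new F A (Sum.inr x)
    rw [new_inr_eq F A x hx, ← hA'] at e1
    have h2 : 0 < unc A' := by
      rw [mul_add] at hA; omega
    have heA' : (Sum.inr e : K ⊕ I) ∉ A' := by
      rw [hA', mem_union, inr_nb_inr]
      rintro (h | h)
      · exact he h
      · exact hxe h.symm
    rcases h1 with h1 | ⟨v, _, h1⟩
    · exact ne_univ h2 h1
    · have e2 := unc_new F A' v
      have e3 := new_le F (by omega) hF A' v
      by_cases hev : (Sum.inr e : K ⊕ I) ∈ nb (splitG F) v
      · -- covers `e`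
        have h4 : new F A' v < s := by
          cases v with
          | inl k =>
            rw [inr_nb_inl] at hev
            rw [new_inl]
            refine lt_of_le_of_lt ?_ (hd k hev)
            apply Set.ncard_le_ncard _ (Set.toFinite _)
            rintro i ⟨h5, h6⟩
            exact ⟨fun h => h5 (Or.inl h), h6⟩
          | inr i => exact lt_of_le_of_lt (new_inr F A' i) (by omega)
        refine cnt F (by omega) hF m _ ?_ h1
        rw [mul_add] at hA
        omega
      · refine ih _ ?_ ?_ ?_ h1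
        · rintro (h | h)
          · exact heA' h
          · exact hev h
        · intro k hk
          refine lt_of_le_of_lt ?_ (hd k hk)
          apply Set.ncard_le_ncard _ (Set.toFinite _)
          rintro i ⟨h5, h6⟩
          exact ⟨fun h => h5 (Or.inl (Or.inl h)), h6⟩
        · rw [mul_add] at hA
          omega

end gen

section main

variable {Q K : Type} [Fintype Q] [DecidableEq Q]

theorem ncard_zs (s : ℕ) : (zs (Q := Q) s).ncard = s := by
  have : zs (Q := Q) s = Sum.inr '' univ := by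
    ext i
    simp only [zs, Set.mem_ofPred_eq, image_univ, mem_range]
    constructor
    · rintro ⟨z, rfl⟩; exact ⟨z, rfl⟩
    · rintro ⟨z, rfl⟩; exact ⟨z, rfl⟩
  rw [this, Set.ncard_image_of_injective _ Sum.inr_injective, Set.ncard_univ]
  simp

theorem mem_pr {s : ℕ} {p : Q} {Y : Finset Q} {c : Fin 3} {x : Q} {c' : Fin 3} :
    (Sum.inl (x, c') : Q × Fin 3 ⊕ Fin s) ∈ pr s p Y c ↔ x ∈ Y ∧ ¬ (x = p ∧ c' = c) := by
  simp only [pr, Set.mem_ofPred_eq]
  constructor
  · rintro ⟨x1, c1, h, h1, h2⟩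
    simp only [Sum.inl.injEq, Prod.mk.injEq] at h
    obtain ⟨rfl, rfl⟩ := h
    exact ⟨h1, h2⟩
  · exact fun h => ⟨x, c', rfl, h.1, h.2⟩

theorem ncard_pr {s : ℕ} {p : Q} {Y : Finset Q} {c : Fin 3} (hp : p ∈ Y) :
    (pr s p Y c).ncard = 3 * Y.card - 1 := by
  have : pr s p Y c = Sum.inl '' (((Y ×ˢ (Finset.univ : Finset (Fin 3))).erase (p, c) :
      Finset (Q × Fin 3)) : Set (Q × Fin 3)) := by
    ext i
    rcases i with ⟨x, c'⟩ | z
    · rw [mem_pr]
      simp only [mem_image, Finset.mem_coe, Finset.mem_erase, Finset.mem_product,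
        Finset.mem_univ, and_true, Sum.inl.injEq, exists_eq_right, ne_eq, Prod.mk.injEq]
      tauto
    · simp [pr]
  rw [this, Set.ncard_image_of_injective _ Sum.inl_injective, Set.ncard_coe_finset,
    Finset.card_erase_of_mem (by simp [hp]), Finset.card_product]
  simp [mul_comm]

theorem third (c c' : Fin 3) : ∃ c'' : Fin 3, c'' ≠ c ∧ c'' ≠ c' := by
  revert c c'; decide

variable {R : Q → Finset Q → Prop} {l : ℕ} {F : K → Set (Q × Fin 3 ⊕ Fin (3 * l - 1))}

theorem hFle (hR : ∀ p Y, R p Y → Y.card ≤ l) (hG : Good R l F) (k : K) :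
    (F k).ncard ≤ 3 * l - 1 := by
  rcases hG.only k with h | h | ⟨p, Y, c, h1, h2, h⟩
  · rw [h]; simp
  · rw [h, ncard_zs]
  · rw [h, ncard_pr h2]
    have := hR p Y h1
    omega

theorem deadlem (hR : ∀ p Y, R p Y → Y.card ≤ l) (hG : Good R l F)
    {A : Set (K ⊕ (Q × Fin 3 ⊕ Fin (3 * l - 1)))} {p : Q} {c : Fin 3}
    (hA : ∀ c'', c'' ≠ c → Sum.inr (Sum.inl (p, c'')) ∈ A) (k : K)
    (hk : Sum.inl (p, c) ∈ F k) :
    {i | Sum.inr i ∉ A ∧ i ∈ F k}.ncard < 3 * l - 1 := by
  refine lt_of_lt_of_le ?_ (hFle hR hG k)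
  rcases hG.only k with h | h | ⟨p', Y, c', h1, h2, h⟩
  · rw [h] at hk; exact absurd hk (by simp)
  · rw [h] at hk; simp [zs] at hk
  · obtain ⟨c'', h3, h4⟩ := third c c'
    have h5 : (Sum.inl (p, c'') : Q × Fin 3 ⊕ Fin (3 * l - 1)) ∈ F k := by
      rw [h, mem_pr] at hk ⊢
      exact ⟨hk.1, fun h => h4 h.2⟩
    apply Set.ncard_lt_ncard _ (Set.toFinite _)
    rw [Set.ssubset_iff_of_subset (fun i h => h.2)]
    exact ⟨_, h5, fun h => h.1 (hA c'' h3)⟩

theorem unc_eq (U : Finset Q) (A : Set (K ⊕ (Q × Fin 3 ⊕ Fin (3 * l - 1))))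
    (h1 : ∀ z, Sum.inr (Sum.inr z) ∈ A)
    (h2 : ∀ q c, Sum.inr (Sum.inl (q, c)) ∈ A ↔ q ∉ U) : unc A = 3 * U.card := by
  unfold unc
  have : {i | Sum.inr i ∉ A} = Sum.inl '' ((U ×ˢ (Finset.univ : Finset (Fin 3)) :
      Finset (Q × Fin 3)) : Set (Q × Fin 3)) := by
    ext i
    rcases i with ⟨x, c'⟩ | z
    · simp [h2]
    · simp [h1]
  rw [this, Set.ncard_image_of_injective _ Sum.inl_injective, Set.ncard_coe_finset,
    Finset.card_product]
  simp [mul_comm]

theorem claim (hl : 1 ≤ l) (hR : ∀ p Y, R p Y → Y.card ≤ l) (hG : Good R l F) (m : ℕ) :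
    ∀ (U : Finset Q) (A : Set (K ⊕ (Q × Fin 3 ⊕ Fin (3 * l - 1)))), U.card = l * m →
      (∀ z, Sum.inr (Sum.inr z) ∈ A) →
      (∀ q c, Sum.inr (Sum.inl (q, c)) ∈ A ↔ q ∉ U) →
      Win (splitG F) (2 * m) false A → UW R l U := by
  induction m with
  | zero =>
    intro U A hU _ _ _
    have : U = ∅ := Finset.card_eq_zero.mp (by simpa using hU)
    subst this
    rw [UW_iff]
    intro p hp
    simp at hp
  | succ m ih =>
    intro U A hU hz hq hW
    have hunc := unc_eq U A hz hq
    have hFl := hFle hR hG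
    obtain ⟨s, hs⟩ : ∃ s, 3 * l - 1 = s := ⟨_, rfl⟩
    have hs3 : 3 * l = s + 1 := by omega
    have hs1 : 3 * l - 1 + 1 = s + 1 := by omega
    have hunc2 : unc A = (s + 1) * (m + 1) := by
      rw [hunc, hU, ← hs3]; ring
    rw [UW_iff]
    intro p hp
    have hp0 : (Sum.inr (Sum.inl (p, 0)) : K ⊕ (Q × Fin 3 ⊕ Fin (3 * l - 1))) ∉ A := by
      rw [hq]; simpa using hp
    have h1 := hW _ (legal_inr F hp0)
    set A' := A ∪ nb (splitG F) (Sum.inr (Sum.inl (p, 0))) with hA'
    have e1 := unc_new F A (Sum.inr (Sum.inl (p, 0)))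
    rw [new_inr_eq F A _ hp0, ← hA'] at e1
    have h2 : 0 < unc A' := by
      rw [hunc2, mul_add] at e1; omega
    rcases h1 with h1 | ⟨v, _, h1⟩
    · exact absurd h1 (ne_univ h2)
    have e2 := unc_new F A' v
    have e3 : unc (A' ∪ nb (splitG F) v) ≤ (s + 1) * m := by
      by_contra hcon
      exact cnt F (s := 3 * l - 1) (by omega) hFl m _ (by rw [hs1]; omega) h1
    have e4 := new_le F (s := 3 * l - 1) (by omega) hFl A' v
    have e5 : new F A' v = 3 * l - 1 := by
      rw [hunc2, mul_add] at e1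
      omega
    have e6 : unc (A' ∪ nb (splitG F) v) = (s + 1) * m := by
      rw [hunc2, mul_add] at e1
      omega
    cases v with
    | inr i =>
      have := new_inr F A' i
      omega
    | inl k =>
      rw [new_inl] at e5
      have hsub : {i | Sum.inr i ∉ A' ∧ i ∈ F k} = F k := by
        apply Set.eq_of_subset_of_ncard_le (fun i h => h.2) _ (Set.toFinite _)
        rw [e5]; exact hFl k
      have hnotA : ∀ i ∈ F k, Sum.inr i ∉ A' := by
        intro i hi
        rw [← hsub] at hi
        exact hi.1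
      rw [hsub] at e5
      rcases hG.only k with h | h | ⟨p', Y, c', g1, g2, h⟩
      · rw [h] at e5; simp at e5; omega
      · exfalso
        have hz0 : (Sum.inr ⟨0, by omega⟩ : Q × Fin 3 ⊕ Fin (3 * l - 1)) ∈ F k := by
          rw [h]; exact ⟨_, rfl⟩
        exact hnotA _ hz0 (Or.inl (hz _))
      · have hY : Y.card = l := by
          rw [h, ncard_pr g2] at e5
          have := hR _ _ g1
          omega
        have hYU : Y ⊆ U := by
          intro y hy
          obtain ⟨c'', h3, -⟩ := third c' c'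
          have h5 : (Sum.inl (y, c'') : Q × Fin 3 ⊕ Fin (3 * l - 1)) ∈ F k := by
            rw [h, mem_pr]; exact ⟨hy, fun h => h3 h.2⟩
          have h6 := hnotA _ h5
          by_contra hcon
          exact h6 (Or.inl ((hq y c'').mpr hcon))
        have hp0F : (Sum.inl (p, 0) : Q × Fin 3 ⊕ Fin (3 * l - 1)) ∉ F k := by
          intro hh
          exact hnotA _ hh (Or.inr ((inr_nb_inr F _ _).mpr rfl))
        by_cases hpY : p ∈ Y
        · have h7 : p = p' ∧ (0 : Fin 3) = c' := by
            by_contra hcon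
            rw [h, mem_pr] at hp0F
            exact hp0F ⟨hpY, hcon⟩
          obtain ⟨rfl, rfl⟩ := h7
          refine ⟨Y, g1, hpY, hYU, hY, ih _ _ ?_ ?_ ?_ h1⟩
          · rw [Finset.card_sdiff_of_subset hYU, hU, hY, mul_add]
            omega
          · intro z; exact Or.inl (Or.inl (hz z))
          · intro q c
            rw [hA']
            simp only [mem_union, inr_nb_inl, inr_nb_inr, hq, h, mem_pr, Finset.mem_sdiff,
              Sum.inl.injEq, Prod.mk.injEq]
            constructor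
            · rintro ((h8 | ⟨rfl, _⟩) | h8)
              · exact fun h9 => h8 h9.1
              · exact fun h9 => h9.2 hpY
              · exact fun h9 => h9.2 h8.1
            · intro h8
              by_cases h9 : q ∈ U
              · have h10 : q ∈ Y := by
                  by_contra hcon; exact h8 ⟨h9, hcon⟩
                by_cases h11 : q = p ∧ c = 0
                · exact Or.inl (Or.inr h11)
                · exact Or.inr ⟨h10, h11⟩
              · exact Or.inl (Or.inl h9)
        · exfalso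
          have hpp : p' ≠ p := by rintro rfl; exact hpY g2
          refine dead F (s := 3 * l - 1) (by omega) hFl (Sum.inl (p', c')) m _ ?_ ?_ ?_ h1
          · rw [hA']
            simp only [mem_union, inr_nb_inl, inr_nb_inr, hq, h, mem_pr, Sum.inl.injEq,
              Prod.mk.injEq]
            rintro ((h8 | h8) | h8)
            · exact h8 (hYU g2)
            · exact hpp h8.1
            · simp at h8
          · apply deadlem hR hG
            intro c'' hc''
            right
            rw [inr_nb_inl, h, mem_pr]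
            exact ⟨g2, fun h => hc'' h.2⟩
          · rw [hs1, e6]

end main

end A2

/-- module A2: `Win → UW` -/
theorem ta_win_uw {Q K : Type} [Fintype Q] [DecidableEq Q] [Fintype K]
    (R : Q → Finset Q → Prop) (l d : ℕ) (hl : 1 ≤ l) (hQ : Fintype.card Q = l * d)
    (hR : ∀ p Y, R p Y → Y.card ≤ l) (F : K → Set (Q × Fin 3 ⊕ Fin (3 * l - 1)))
    (hG : Good R l F) (hW : Win (splitG F) (2 * d + 1) true ∅) : UW R l Finset.univ := by
  have hFl := A2.hFle hR hG
  obtain ⟨s, hs⟩ : ∃ s, 3 * l - 1 = s := ⟨_, rfl⟩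
  have hs3 : 3 * l = s + 1 := by omega
  have hs1 : 3 * l - 1 + 1 = s + 1 := by omega
  have hunc : A2.unc (∅ : Set (K ⊕ (Q × Fin 3 ⊕ Fin (3 * l - 1)))) = (s + 1) * d + s := by
    unfold A2.unc
    simp only [mem_empty_iff_false, not_false_eq_true, Set.ofPred_true, Set.ncard_univ,
      Nat.card_eq_fintype_card, Fintype.card_sum, Fintype.card_prod, Fintype.card_fin, hQ]
    rw [← hs3, hs]; ring
  rcases hW with hW | ⟨v, _, hW⟩
  · exact absurd hW (A2.ne_univ (by rw [hunc]; omega))
  have e2 := A2.unc_new F ∅ v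
  have e3 : A2.unc (∅ ∪ nb (splitG F) v) ≤ (s + 1) * d := by
    by_contra hcon
    exact A2.cnt F (s := 3 * l - 1) (by omega) hFl d _ (by rw [hs1]; omega) hW
  have e4 := A2.new_le F (s := 3 * l - 1) (by omega) hFl ∅ v
  have e5 : A2.new F ∅ v = 3 * l - 1 := by omega
  have e6 : A2.unc (∅ ∪ nb (splitG F) v) = (s + 1) * d := by omega
  cases v with
  | inr i =>
    have := A2.new_inr F ∅ i
    omega
  | inl k =>
    have e7 := A2.new_inl_le F ∅ k
    rcases hG.only k with h | h | ⟨p, Y, c, g1, g2, h⟩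
    · rw [h] at e7; simp at e7; omega
    · refine A2.claim hl hR hG d Finset.univ _ ?_ ?_ ?_ hW
      · rw [Finset.card_univ, hQ]
      · intro z
        right
        rw [A2.inr_nb_inl, h]
        exact ⟨z, rfl⟩
      · intro q c
        rw [mem_union, A2.inr_nb_inl, h]
        simp [zs]
    · exfalso
      refine A2.dead F (s := 3 * l - 1) (by omega) hFl (Sum.inl (p, c)) d _ ?_ ?_ ?_ hW
      · rw [mem_union, A2.inr_nb_inl, h, A2.mem_pr]
        simp
      · apply A2.deadlem hR hG
        intro c'' hc''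
        right
        rw [A2.inr_nb_inl, h, A2.mem_pr]
        exact ⟨g2, fun h => hc'' h.2⟩
      · rw [hs1, e6]

end Pool.Agent.H1.Dom
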