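import Pool.Agent.H1.Dom.Targets

/-!
MP_0061eb_lc, module B1 (helper92): the second player wins the padded game.
-/

namespace Pool.Agent.H1.Dom

open Finset

set_option linter.unusedSectionVars false

namespace B1aux

variable {P : Type} [DecidableEq P] {L : ℕ}

theorem mem_seg {i : P} {c a : ℕ} {z : P × Fin (L + 1)} :
    z ∈ seg L i c a ↔ z.1 = i ∧ c ≤ (z.2 : ℕ) ∧ (z.2 : ℕ) < c + a := by
  obtain ⟨x, e⟩ := z
  simp only [seg, Finset.mem_map, Finset.mem_filter, Finset.mem_univ, true_and,
    Function.Embedding.coeFn_mk, Prod.mk.injEq]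
  constructor
  · rintro ⟨e', h, rfl, rfl⟩
    exact ⟨rfl, h⟩
  · rintro ⟨rfl, h⟩
    exact ⟨e, h, rfl, rfl⟩

theorem mem_big {X : Finset P} {i₀ : P} {c₀ a : ℕ} {i₁ : P} {b : ℕ} {z : P × Fin (L + 1)} :
    z ∈ big L X i₀ c₀ a i₁ b ↔ ((z.2 : ℕ) = 0 ∧ z.1 ∈ X) ∨
      (z.1 = i₀ ∧ c₀ + 1 ≤ (z.2 : ℕ) ∧ (z.2 : ℕ) < c₀ + 1 + a) ∨
      (z.1 = i₁ ∧ 1 ≤ (z.2 : ℕ) ∧ (z.2 : ℕ) < 1 + b) := by
  rw [big, Finset.mem_union, Finset.mem_union, mem_seg, mem_seg, or_assoc]
  refine or_congr ?_ Iff.rfl
  obtain ⟨x, e⟩ := z
  simp only [Finset.mem_map, Function.Embedding.coeFn_mk, Prod.mk.injEq]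
  constructor
  · rintro ⟨x', h, rfl, rfl⟩
    exact ⟨rfl, h⟩
  · rintro ⟨h1, h2⟩
    exact ⟨x, h2, rfl, by ext; simpa using h1.symm⟩

theorem card_seg_le (i : P) (c a : ℕ) : (seg L i c a).card ≤ a := by
  rw [seg, Finset.card_map]
  have h : ((Finset.univ.filter (fun e : Fin (L + 1) => c ≤ (e : ℕ) ∧ (e : ℕ) < c + a)).map
      Fin.valEmbedding) ⊆ Finset.Ico c (c + a) := by
    intro x hx
    simp only [Finset.mem_map, Finset.mem_filter, Finset.mem_univ, true_and,
      Fin.valEmbedding_apply] at hx
    obtain ⟨e, h, rfl⟩ := hx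
    exact Finset.mem_Ico.2 h
  have := Finset.card_le_card h
  rw [Finset.card_map, Nat.card_Ico] at this
  omega

theorem card_seg {i : P} {c a : ℕ} (h : c + a ≤ L + 1) : (seg L i c a).card = a := by
  rw [seg, Finset.card_map]
  have h : ((Finset.univ.filter (fun e : Fin (L + 1) => c ≤ (e : ℕ) ∧ (e : ℕ) < c + a)).map
      Fin.valEmbedding) = Finset.Ico c (c + a) := by
    ext x
    simp only [Finset.mem_map, Finset.mem_filter, Finset.mem_univ, true_and,
      Fin.valEmbedding_apply, Finset.mem_Ico]
    constructor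
    · rintro ⟨e, h, rfl⟩; exact h
    · intro h'
      exact ⟨⟨x, by omega⟩, h', rfl⟩
  have := congrArg Finset.card h
  rw [Finset.card_map, Nat.card_Ico] at this
  omega

theorem card_big_le (X : Finset P) (i₀ : P) (c₀ a : ℕ) (i₁ : P) (b : ℕ) :
    (big L X i₀ c₀ a i₁ b).card ≤ X.card + a + b := by
  rw [big]
  refine (Finset.card_union_le _ _).trans ?_
  have h1 := Finset.card_union_le (X.map ⟨fun p => ((p, 0) : P × Fin (L + 1)),
    fun _ _ h => (Prod.ext_iff.1 h).1⟩) (seg L i₀ (c₀ + 1) a)
  rw [Finset.card_map] at h1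
  have h2 := card_seg_le (L := L) i₀ (c₀ + 1) a
  have h3 := card_seg_le (L := L) i₁ 1 b
  omega

theorem card_big {X : Finset P} {i₀ : P} {c₀ a : ℕ} {i₁ : P} {b : ℕ} (h0 : c₀ + a ≤ L)
    (hb : b ≤ L) (h : i₀ ≠ i₁ ∨ a = 0 ∨ b = 0) :
    (big L X i₀ c₀ a i₁ b).card = X.card + a + b := by
  rw [big, Finset.card_union_of_disjoint, Finset.card_union_of_disjoint, Finset.card_map,
    card_seg (by omega), card_seg (by omega)]
  · rw [Finset.disjoint_left]
    rintro ⟨x, e⟩ h1 h2
    rw [mem_seg] at h2
    simp only [Finset.mem_map, Function.Embedding.coeFn_mk, Prod.mk.injEq] at h1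
    obtain ⟨_, _, _, rfl⟩ := h1
    have := h2.2.1
    simp at this
  · rw [Finset.disjoint_left]
    rintro ⟨x, e⟩ h1 h2
    rw [mem_seg] at h2
    rw [Finset.mem_union, mem_seg] at h1
    rcases h1 with h1 | h1
    · simp only [Finset.mem_map, Function.Embedding.coeFn_mk, Prod.mk.injEq] at h1
      obtain ⟨_, _, _, rfl⟩ := h1
      have := h2.2.1
      simp at this
    · rcases h with h | h | h
      · exact h (h1.1.symm.trans h2.1)
      · omega
      · omega

variable [Fintype P]

/-- the positions of the invariant -/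
def Wst (L : ℕ) (C N : Finset P) (i : P) (c : ℕ) : Finset (P × Fin (L + 1)) :=
  Finset.univ.filter (fun z => ((z.2 : ℕ) = 0 ∧ z.1 ∈ C) ∨
    (1 ≤ (z.2 : ℕ) ∧ (z.1 ∈ N ∨ (z.1 = i ∧ c ≤ (z.2 : ℕ)))))

theorem mem_Wst {C N : Finset P} {i : P} {c : ℕ} {z : P × Fin (L + 1)} :
    z ∈ Wst L C N i c ↔ ((z.2 : ℕ) = 0 ∧ z.1 ∈ C) ∨
    (1 ≤ (z.2 : ℕ) ∧ (z.1 ∈ N ∨ (z.1 = i ∧ c ≤ (z.2 : ℕ)))) := by
  simp [Wst]

theorem main_b1 (R : P → Finset P → Prop) (hL : 2 ≤ L) (hR : ∀ p X, R p X → X.card ≤ L) :
    ∀ (n : ℕ) (C N : Finset P) (i : P) (c : ℕ), DW R C → C.card ≤ N.card → 2 ≤ c → c ≤ L + 1 →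
      (i ∉ N ∨ c = L + 1) → C.card + L * N.card + (L + 1 - c) ≤ n →
      (L + 1) ∣ C.card + L * N.card + (L + 1 - c) →
      UW (Pad L R) (L + 1) (Wst L C N i c) := by
  intro n
  induction n using Nat.strong_induction_on with
  | _ n ih =>
  intro C N i c hC hCN hc2 hcL hi hn hdiv
  rw [UW_iff]
  rintro ⟨x, e⟩ hz
  have heL : (e : ℕ) < L + 1 := e.2
  obtain ⟨hD1, hD2⟩ := (DW_iff R).1 hC
  rw [mem_Wst] at hz
  simp only at hz
  -- the common part of all the cases
  have fin : ∀ (X C' N' : Finset P) (i₀ : P) (c₀ a : ℕ) (i₁ : P) (b : ℕ) (i' : P) (c' : ℕ),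
      Pad L R (x, e) (big L X i₀ c₀ a i₁ b) → (x, e) ∈ big L X i₀ c₀ a i₁ b →
      big L X i₀ c₀ a i₁ b ⊆ Wst L C N i c →
      Wst L C N i c \ big L X i₀ c₀ a i₁ b = Wst L C' N' i' c' →
      c₀ + a ≤ L → b ≤ L → (i₀ ≠ i₁ ∨ a = 0 ∨ b = 0) → X.card + a + b = L + 1 →
      DW R C' → C'.card ≤ N'.card → 2 ≤ c' → c' ≤ L + 1 → (i' ∉ N' ∨ c' = L + 1) →
      C'.card + L * N'.card + (L + 1 - c') + (L + 1) = C.card + L * N.card + (L + 1 - c) →
      ∃ Y, Pad L R (x, e) Y ∧ (x, e) ∈ Y ∧ Y ⊆ Wst L C N i c ∧ Y.card = L + 1 ∧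
        UW (Pad L R) (L + 1) (Wst L C N i c \ Y) := by
    intro X C' N' i₀ c₀ a i₁ b i' c' h1 h2 h3 h4 h5 h6 h7 h8 h9 h10 h11 h12 h13 h14
    refine ⟨_, h1, h2, h3, ?_, ?_⟩
    · rw [card_big h5 h6 h7, h8]
    · rw [h4]
      refine ih (C'.card + L * N'.card + (L + 1 - c')) (by omega) C' N' i' c' h9 h10 h11 h12 h13
        le_rfl ?_
      rw [← h14] at hdiv
      exact (Nat.dvd_add_left (dvd_refl (L + 1))).1 hdiv
  by_cases he : (e : ℕ) = 0
  · -- a real point
    have hx : x ∈ C := by
      rcases hz with hz | hz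
      · exact hz.2
      · omega
    have he0 : e = 0 := by ext; simpa using he
    obtain ⟨X, hRX, hxX, hXC, hDW⟩ := hD1 x hx
    have hXL := hR x X hRX
    have hX1 : 1 ≤ X.card := Finset.card_pos.2 ⟨x, hxX⟩
    have hXc : (C \ X).card + X.card = C.card := Finset.card_sdiff_add_card_eq_card hXC
    by_cases hneed : L + 1 - X.card ≤ L + 1 - c
    · refine fin X (C \ X) N i (c - 1) (L + 1 - X.card) x 0 i (c + (L + 1 - X.card)) ?_ ?_ ?_ ?_
        (by omega) (by omega) (by omega) (by omega) hDW (by omega) (by omega) (by omega) ?_ ?_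
      · rw [he0]
        exact Pad.real x X i (c - 1) (L + 1 - X.card) x 0 hRX hxX (by omega) (by omega) (by omega)
      · rw [mem_big]; exact Or.inl ⟨he, hxX⟩
      · rintro ⟨y, f⟩ hy
        rw [mem_big] at hy
        rw [mem_Wst]
        simp only at hy ⊢
        grind
      · ext ⟨y, f⟩
        have hf := f.2
        rw [Finset.mem_sdiff, mem_Wst, mem_Wst, mem_big, Finset.mem_sdiff]
        simp only
        grind
      · rcases hi with hi | hi
        · exact Or.inl hi
        · omega
      · omega
    · obtain ⟨i₁, hi₁⟩ : N.Nonempty := by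
        rw [← Finset.card_pos]; omega
      have hNc : (N.erase i₁).card + 1 = N.card := Finset.card_erase_add_one hi₁
      have hmul : L * N.card = L * (N.erase i₁).card + L := by rw [← hNc]; ring
      refine fin X (C \ X) (N.erase i₁) i (c - 1) (L + 1 - c) i₁ (c - X.card) i₁
        (1 + (c - X.card)) ?_ ?_ ?_ ?_
        (by omega) (by omega) ?_ (by omega) hDW (by omega) (by omega) (by omega) ?_ ?_
      · rw [he0]
        exact Pad.real x X i (c - 1) (L + 1 - c) i₁ (c - X.card) hRX hxX (by omega) (by omega)
          (by omega)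
      · rw [mem_big]; exact Or.inl ⟨he, hxX⟩
      · rintro ⟨y, f⟩ hy
        rw [mem_big] at hy
        rw [mem_Wst]
        simp only at hy ⊢
        grind
      · ext ⟨y, f⟩
        have hf := f.2
        rw [Finset.mem_sdiff, mem_Wst, mem_Wst, mem_big, Finset.mem_sdiff, Finset.mem_erase]
        simp only
        grind
      · rcases hi with hi | hi
        · left; rintro rfl; exact hi hi₁
        · omega
      · left; exact Finset.notMem_erase _ _
      · omega
  · -- a filler
    have he0 : (x, e).2 ≠ 0 := by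
      intro h
      apply he
      have : e = 0 := h
      rw [this]; rfl
    have hz' : x ∈ N ∨ (x = i ∧ c ≤ (e : ℕ)) := by
      rcases hz with hz | hz
      · omega
      · exact hz.2
    by_cases hCe : C.Nonempty
    · obtain ⟨p, hp, hDW⟩ := hD2 hCe
      have hCc : (C.erase p).card + 1 = C.card := Finset.card_erase_add_one hp
      by_cases hxN : x ∈ N
      · have hNc : (N.erase x).card + 1 = N.card := Finset.card_erase_add_one hxN
        have hmul : L * N.card = L * (N.erase x).card + L := by rw [← hNc]; ring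
        have hmem : (x, e) ∈ big L {p} x 0 L x 0 := by
          rw [mem_big]; right; left; exact ⟨rfl, by simp only; omega, by simp only; omega⟩
        refine fin {p} (C.erase p) (N.erase x) x 0 L x 0 i c ?_ hmem ?_ ?_
          (by omega) (by omega) (by omega) ?_ hDW (by omega) (by omega) (by omega) ?_ ?_
        · exact Pad.one (x, e) he0 p x 0 L x 0 (by omega) (by omega) (by omega) hmem
        · rintro ⟨y, f⟩ hy
          rw [mem_big, Finset.mem_singleton] at hy
          rw [mem_Wst]
          simp only at hy ⊢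
          grind
        · ext ⟨y, f⟩
          have hf := f.2
          rw [Finset.mem_sdiff, mem_Wst, mem_Wst, mem_big, Finset.mem_erase, Finset.mem_erase,
            Finset.mem_singleton]
          simp only
          grind
        · rw [Finset.card_singleton]; omega
        · rcases hi with hi | hi
          · left; intro h; exact hi (Finset.mem_of_mem_erase h)
          · right; exact hi
        · omega
      · have hxi : x = i ∧ c ≤ (e : ℕ) := by
          rcases hz' with h | h
          · exact absurd h hxN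
          · exact h
        obtain ⟨i₁, hi₁⟩ : N.Nonempty := by
          rw [← Finset.card_pos]; omega
        have hNc : (N.erase i₁).card + 1 = N.card := Finset.card_erase_add_one hi₁
        have hmul : L * N.card = L * (N.erase i₁).card + L := by rw [← hNc]; ring
        have hii : i ≠ i₁ := by
          rintro rfl; exact hxN (hxi.1 ▸ hi₁)
        have hmem : (x, e) ∈ big L {p} i (c - 1) (L + 1 - c) i₁ (c - 1) := by
          rw [mem_big]; right; left; exact ⟨hxi.1, by simp only; omega, by simp only; omega⟩
        refine fin {p} (C.erase p) (N.erase i₁) i (c - 1) (L + 1 - c) i₁ (c - 1) i₁ c ?_ hmem ?_ ?_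
          (by omega) (by omega) (Or.inl hii) ?_ hDW (by omega) (by omega) (by omega) ?_ ?_
        · exact Pad.one (x, e) he0 p i (c - 1) (L + 1 - c) i₁ (c - 1) (by omega) (by omega)
            (by omega) hmem
        · rintro ⟨y, f⟩ hy
          rw [mem_big, Finset.mem_singleton] at hy
          rw [mem_Wst]
          simp only at hy ⊢
          grind
        · ext ⟨y, f⟩
          have hf := f.2
          rw [Finset.mem_sdiff, mem_Wst, mem_Wst, mem_big, Finset.mem_erase, Finset.mem_erase,
            Finset.mem_singleton]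
          simp only
          grind
        · rw [Finset.card_singleton]; omega
        · left; exact Finset.notMem_erase _ _
        · omega
    · rw [Finset.not_nonempty_iff_eq_empty] at hCe
      subst hCe
      rw [Finset.card_empty] at hdiv hCN hn fin
      by_cases hxN : x ∈ N
      · have hNc : (N.erase x).card + 1 = N.card := Finset.card_erase_add_one hxN
        have hmul : L * N.card = L * (N.erase x).card + L := by rw [← hNc]; ring
        by_cases hcl : c = L + 1
        · -- no partial cell
          have hN2 : 2 ≤ N.card := by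
            by_contra hcon
            have h1 : N.card = 1 := by omega
            rw [h1, hcl] at hdiv
            have h2 := Nat.le_of_dvd (by omega) hdiv
            omega
          obtain ⟨i₁, hi₁⟩ : (N.erase x).Nonempty := by
            rw [← Finset.card_pos]; omega
          have hNc' : ((N.erase x).erase i₁).card + 1 = (N.erase x).card :=
            Finset.card_erase_add_one hi₁
          have hmul' : L * (N.erase x).card = L * ((N.erase x).erase i₁).card + L := by
            rw [← hNc']; ring
          obtain ⟨hi1, hi2⟩ := Finset.mem_erase.1 hi₁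
          have hmem : (x, e) ∈ big L ∅ x 0 L i₁ 1 := by
            rw [mem_big]; right; left; exact ⟨rfl, by simp only; omega, by simp only; omega⟩
          refine fin ∅ ∅ ((N.erase x).erase i₁) x 0 L i₁ 1 i₁ 2 ?_ hmem ?_ ?_
            (by omega) (by omega) (Or.inl (Ne.symm hi1)) ?_ hC ?_ (by omega) (by omega) ?_ ?_
          · exact Pad.none (x, e) he0 x 0 L i₁ 1 (by omega) (by omega) (by omega) hmem
          · rintro ⟨y, f⟩ hy
            rw [mem_big] at hy
            rw [mem_Wst]
            simp only [Finset.notMem_empty] at hy ⊢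
            grind
          · ext ⟨y, f⟩
            have hf := f.2
            rw [Finset.mem_sdiff, mem_Wst, mem_Wst, mem_big, Finset.mem_erase, Finset.mem_erase]
            simp only [Finset.notMem_empty]
            grind
          · rw [Finset.card_empty]; omega
          · rw [Finset.card_empty]; omega
          · left; exact Finset.notMem_erase _ _
          · rw [Finset.card_empty]; omega
        · have hiN : i ∉ N := by
            rcases hi with h | h
            · exact h
            · exact absurd h hcl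
          have hix : i ≠ x := by rintro rfl; exact hiN hxN
          have hmem : (x, e) ∈ big L ∅ i (c - 1) 1 x L := by
            rw [mem_big]; right; right; exact ⟨rfl, by simp only; omega, by simp only; omega⟩
          refine fin ∅ ∅ (N.erase x) i (c - 1) 1 x L i (c + 1) ?_ hmem ?_ ?_
            (by omega) (by omega) (Or.inl hix) ?_ hC ?_ (by omega) (by omega) ?_ ?_
          · exact Pad.none (x, e) he0 i (c - 1) 1 x L (by omega) (by omega) (by omega) hmem
          · rintro ⟨y, f⟩ hy
            rw [mem_big] at hy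
            rw [mem_Wst]
            simp only [Finset.notMem_empty] at hy ⊢
            grind
          · ext ⟨y, f⟩
            have hf := f.2
            rw [Finset.mem_sdiff, mem_Wst, mem_Wst, mem_big, Finset.mem_erase]
            simp only [Finset.notMem_empty]
            grind
          · rw [Finset.card_empty]; omega
          · rw [Finset.card_empty]; omega
          · left; intro h; exact hiN (Finset.mem_of_mem_erase h)
          · rw [Finset.card_empty]; omega
      · have hxi : x = i ∧ c ≤ (e : ℕ) := by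
          rcases hz' with h | h
          · exact absurd h hxN
          · exact h
        obtain ⟨i₁, hi₁⟩ : N.Nonempty := by
          rw [← Finset.card_pos]
          by_contra hcon
          have h1 : N.card = 0 := by omega
          rw [h1] at hdiv
          have h2 := Nat.le_of_dvd (by omega) hdiv
          omega
        have hNc : (N.erase i₁).card + 1 = N.card := Finset.card_erase_add_one hi₁
        have hmul : L * N.card = L * (N.erase i₁).card + L := by rw [← hNc]; ring
        have hii : i ≠ i₁ := by
          rintro rfl; exact hxN (hxi.1 ▸ hi₁)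
        have hmem : (x, e) ∈ big L ∅ i (c - 1) (L + 1 - c) i₁ c := by
          rw [mem_big]; right; left; exact ⟨hxi.1, by simp only; omega, by simp only; omega⟩
        refine fin ∅ ∅ (N.erase i₁) i (c - 1) (L + 1 - c) i₁ c i₁ (1 + c) ?_ hmem ?_ ?_
          (by omega) (by omega) (Or.inl hii) ?_ hC ?_ (by omega) (by omega) ?_ ?_
        · exact Pad.none (x, e) he0 i (c - 1) (L + 1 - c) i₁ c (by omega) (by omega)
            (by omega) hmem
        · rintro ⟨y, f⟩ hy
          rw [mem_big] at hy
          rw [mem_Wst]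
          simp only [Finset.notMem_empty] at hy ⊢
          grind
        · ext ⟨y, f⟩
          have hf := f.2
          rw [Finset.mem_sdiff, mem_Wst, mem_Wst, mem_big, Finset.mem_erase]
          simp only [Finset.notMem_empty]
          grind
        · rw [Finset.card_empty]; omega
        · rw [Finset.card_empty]; omega
        · left; exact Finset.notMem_erase _ _
        · rw [Finset.card_empty]; omega

end B1aux

/-- B0 -/
theorem tb0 : TB0 := by
  intro P _ L R z Y h
  cases h with
  | real p X i₀ c₀ a i₁ b hR hX hc hb h =>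
    exact (B1aux.card_big_le _ _ _ _ _ _).trans (by omega)
  | one hz p i₀ c₀ a i₁ b hc hb h hm =>
    refine (B1aux.card_big_le _ _ _ _ _ _).trans ?_
    rw [Finset.card_singleton]; omega
  | none hz i₀ c₀ a i₁ b hc hb h hm =>
    refine (B1aux.card_big_le _ _ _ _ _ _).trans ?_
    rw [Finset.card_empty]; omega


/-- B1 -/
theorem tb1 : TB1 := by
  intro P _ _ L R hL hR hD
  rcases isEmpty_or_nonempty P with hP | ⟨⟨i⟩⟩
  · rw [UW_iff]
    rintro ⟨x, _⟩ _
    exact (hP.false x).elim
  · have h := B1aux.main_b1 R hL hR _ Finset.univ Finset.univ i (L + 1) hD le_rfl (by omega) le_rfl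
      (Or.inr rfl) le_rfl ⟨(Finset.univ : Finset P).card, by
        have : L + 1 - (L + 1) = 0 := by omega
        rw [this]; ring⟩
    have hW : B1aux.Wst L (Finset.univ : Finset P) Finset.univ i (L + 1) = Finset.univ := by
      ext ⟨x, e⟩
      rw [B1aux.mem_Wst]
      simp only [Finset.mem_univ, and_true, true_or, iff_true]
      omega
    rwa [hW] at h

end Pool.Agent.H1.Dom
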