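import Pool.Agent.H1.Dom.Targets

/-!
MP_0061eb_lc: module B2 (from the padded game to the game without passes).
-/

namespace Pool.Agent.H1.Dom

open Set

theorem mem_seg {P : Type} [DecidableEq P] {L : ℕ} {i : P} {c a : ℕ} {z : P × Fin (L + 1)} :
    z ∈ seg L i c a ↔ z.1 = i ∧ c ≤ (z.2 : ℕ) ∧ (z.2 : ℕ) < c + a := by
  rw [seg, Finset.mem_map]
  constructor
  · rintro ⟨e, he, rfl⟩
    rw [Finset.mem_filter] at he
    exact ⟨rfl, he.2⟩
  · rintro ⟨h1, h2⟩
    refine ⟨z.2, by rw [Finset.mem_filter]; exact ⟨Finset.mem_univ _, h2⟩, ?_⟩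
    exact Prod.ext h1.symm rfl

theorem mem_big {P : Type} [DecidableEq P] {L : ℕ} {X : Finset P} {i₀ : P} {c₀ a : ℕ} {i₁ : P}
    {b : ℕ} {z : P × Fin (L + 1)} :
    z ∈ big L X i₀ c₀ a i₁ b ↔ (z.1 ∈ X ∧ z.2 = 0) ∨
      (z.1 = i₀ ∧ c₀ + 1 ≤ (z.2 : ℕ) ∧ (z.2 : ℕ) < c₀ + 1 + a) ∨
      (z.1 = i₁ ∧ 1 ≤ (z.2 : ℕ) ∧ (z.2 : ℕ) < 1 + b) := by
  rw [big, Finset.mem_union, Finset.mem_union, mem_seg, mem_seg, Finset.mem_map, or_assoc]
  constructor
  · rintro (⟨p, hp, rfl⟩ | h)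
    · exact Or.inl ⟨hp, rfl⟩
    · exact Or.inr h
  · rintro (⟨h1, h2⟩ | h)
    · exact Or.inl ⟨z.1, h1, Prod.ext rfl h2.symm⟩
    · exact Or.inr h

theorem mem_big_real {P : Type} [DecidableEq P] {L : ℕ} {X : Finset P} {i₀ : P} {c₀ a : ℕ}
    {i₁ : P} {b : ℕ} {p : P} : (p, (0 : Fin (L + 1))) ∈ big L X i₀ c₀ a i₁ b ↔ p ∈ X := by
  rw [mem_big]
  constructor
  · rintro (⟨h, _⟩ | ⟨_, h, _⟩ | ⟨_, h, _⟩)
    · exact h
    · simp at h
    · simp at h
  · intro h
    exact Or.inl ⟨h, rfl⟩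

theorem tb2 : TB2 := by
  classical
  intro P _ _ L R h
  have key : ∀ U : Finset (P × Fin (L + 1)), UW (Pad L R) (L + 1) U →
      RW R (Finset.univ.filter fun p => (p, (0 : Fin (L + 1))) ∈ U) := by
    intro U hU
    induction hU with
    | mk U X hX _ ih =>
      rw [RW_iff]
      intro p hp
      rw [Finset.mem_filter] at hp
      obtain ⟨hpad, hmem, hsub, _⟩ := hX (p, 0) hp.2
      have ih' := ih (p, 0) hp.2
      obtain ⟨Z, hZ⟩ : ∃ Z, Z = X (p, 0) := ⟨_, rfl⟩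
      rw [← hZ] at hpad hmem hsub ih'
      obtain ⟨y, hy⟩ : ∃ y : P × Fin (L + 1), y = (p, 0) := ⟨_, rfl⟩
      rw [← hy] at hpad
      cases hpad with
      | real p' X' i₀ c₀ a i₁ b hR hpX hc hb hcard =>
        have hpp : p' = p := (Prod.ext_iff.1 hy).1
        subst hpp
        refine ⟨X', hR, hpX, ?_, ?_⟩
        · intro x hx
          rw [Finset.mem_filter]
          exact ⟨Finset.mem_univ _, hsub (mem_big_real.2 hx)⟩
        · have e : (Finset.univ.filter fun p => (p, (0 : Fin (L + 1))) ∈ U) \ X' =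
              Finset.univ.filter fun p => (p, (0 : Fin (L + 1))) ∈ U \ big L X' i₀ c₀ a i₁ b := by
            ext x
            rw [Finset.mem_sdiff, Finset.mem_filter, Finset.mem_filter, Finset.mem_sdiff,
              mem_big_real]
            simp
          rw [e]
          exact ih'
      | one z hz => exact absurd (by rw [hy]) hz
      | none z hz => exact absurd (by rw [hy]) hz
  have h1 := key Finset.univ h
  have e : (Finset.univ.filter fun p : P => (p, (0 : Fin (L + 1))) ∈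
      (Finset.univ : Finset (P × Fin (L + 1)))) = Finset.univ := by
    ext x
    simp
  rw [e] at h1
  exact h1

end Pool.Agent.H1.Dom
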