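import Pool.Agent.H1.Dom.Targets

/-!
MP_0061eb_lc, module C1 (helper94): if the quantified formula is true then the second player wins
the covering game of the formula, even if the adversary may pass.
-/

namespace Pool.Agent.H1.Dom

open Set Finset

namespace Pt

variable {n m : ℕ}

theorem vr_ps (v : Fin n) : vr (ps v) = v := by
  apply Fin.ext
  simp only [vr, ps]
  omega

theorem vr_ng (v : Fin n) : vr (ng v) = v := by
  apply Fin.ext
  simp only [vr, ng]
  omega

theorem ps_ne_ng (v w : Fin n) : ps v ≠ ng w := by
  intro h
  have := congrArg Fin.val h
  simp only [ps, ng] at this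
  omega

theorem eq_ps_or (a : Fin (2 * n)) : a = ps (vr a) ∨ a = ng (vr a) := by
  rcases Nat.mod_two_eq_zero_or_one (a : ℕ) with h | h
  · right
    apply Fin.ext
    simp only [vr, ng]
    omega
  · left
    apply Fin.ext
    simp only [vr, ps]
    omega

theorem mem_toks {a b : Fin (2 * n)} {j : Fin m} : tok b j ∈ toks (m := m) a ↔ b = a := by
  constructor
  · intro h
    simp only [toks, Finset.mem_image, Finset.mem_univ, true_and] at h
    obtain ⟨i, hi⟩ := h
    injection hi with h1 h2
    exact h1.symm
  · rintro rfl
    simp [toks]

theorem card_toks (a : Fin (2 * n)) : (toks (m := m) a).card ≤ m := by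
  unfold toks
  refine Finset.card_image_le.trans ?_
  simp

theorem card_tri (v : Fin n) : (tri (m := m) v).card ≤ 3 := Finset.card_le_three

end Pt

theorem tc0 : TC0 := by
  intro n m U cl p X h
  cases h with
  | tT v =>
      refine (Finset.card_union_le _ _).trans ?_
      have := Pt.card_toks (m := m) (Pt.ng v)
      have := Pt.card_tri (m := m) v
      omega
  | tF v h =>
      refine (Finset.card_union_le _ _).trans ?_
      have := Pt.card_toks (m := m) (Pt.ps v)
      have := Pt.card_tri (m := m) v
      omega
  | t1 v => simp
  | t3 v k h => exact Finset.card_le_three.trans (by omega)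
  | fF v =>
      refine (Finset.card_union_le _ _).trans ?_
      have := Pt.card_toks (m := m) (Pt.ps v)
      have := Pt.card_tri (m := m) v
      omega
  | fT v h =>
      refine (Finset.card_union_le _ _).trans ?_
      have := Pt.card_toks (m := m) (Pt.ng v)
      have := Pt.card_tri (m := m) v
      omega
  | f1 v => simp
  | f3 v k h => exact Finset.card_le_three.trans (by omega)
  | g v => exact (Pt.card_tri v).trans (by omega)
  | q2 j a i hi h => exact Finset.card_le_two.trans (by omega)
  | q3 j a i hi h => exact Finset.card_le_three.trans (by omega)
  | k1 a j => simp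
  | k2 a j => exact Finset.card_le_two.trans (by omega)
  | k3 a j => exact Finset.card_le_two.trans (by omega)
  | k4 a j => exact Finset.card_le_three.trans (by omega)

namespace C1

open Pt

variable {n m : ℕ}

/-- the invariant of the strategy -/
structure WI (U : ℕ → Bool) (cl : ℕ → ℕ → ℕ) (C : Finset (Pt n m)) (τ : ℕ → Bool) (m0 : ℕ) :
    Prop where
  hm : m0 ≤ n
  lt : ∀ v : Fin n, (v : ℕ) < m0 → Pt.g v ∉ C
  un : ∀ v : Fin n, Pt.g v ∈ C → Pt.t v ∈ C ∧ Pt.f v ∈ C ∧
    ∀ j, tok (ps v) j ∈ C ∧ tok (ng v) j ∈ C
  re : ∀ v : Fin n, m0 ≤ v → Pt.g v ∉ C → ∀ j,
    (tok (ps v) j ∈ C ∨ q j ∉ C) ∧ (tok (ng v) j ∈ C ∨ q j ∉ C)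
  tr : ∀ v : Fin n, (v : ℕ) < m0 → ∀ j, tok (if τ v then ps v else ng v) j ∈ C ∨ q j ∉ C
  qe : qev U (Mat m cl) (List.range' m0 (n - m0)) τ

variable {U : ℕ → Bool} {cl : ℕ → ℕ → ℕ} {C : Finset (Pt n m)} {τ : ℕ → Bool} {m0 : ℕ}

/-- removing a set of points which is harmless -/
theorem WI.sdiff (h : WI U cl C τ m0) (X : Finset (Pt n m))
    (h1 : ∀ v, Pt.t v ∈ X ∨ Pt.f v ∈ X → Pt.g v ∉ C \ X)
    (h2 : ∀ a j, tok a j ∈ X → Pt.g (vr a) ∉ C \ X ∧ q j ∉ C \ X) : WI U cl (C \ X) τ m0 := by
  have key : ∀ a j, tok a j ∈ C ∨ q j ∉ C → tok a j ∈ C \ X ∨ q j ∉ C \ X := by
    intro a j h3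
    rcases h3 with h3 | h3
    · by_cases h4 : tok a j ∈ X
      · exact Or.inr (h2 a j h4).2
      · exact Or.inl (Finset.mem_sdiff.2 ⟨h3, h4⟩)
    · exact Or.inr (fun h4 => h3 (Finset.mem_sdiff.1 h4).1)
  refine ⟨h.hm, ?_, ?_, ?_, ?_, h.qe⟩
  · intro v hv h3
    exact h.lt v hv (Finset.mem_sdiff.1 h3).1
  · intro v hv
    obtain ⟨h3, h4, h5⟩ := h.un v (Finset.mem_sdiff.1 hv).1
    refine ⟨Finset.mem_sdiff.2 ⟨h3, fun h6 => h1 v (Or.inl h6) hv⟩,
      Finset.mem_sdiff.2 ⟨h4, fun h6 => h1 v (Or.inr h6) hv⟩, fun j => ⟨?_, ?_⟩⟩
    · refine Finset.mem_sdiff.2 ⟨(h5 j).1, fun h6 => (h2 _ j h6).1 ?_⟩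
      rwa [vr_ps]
    · refine Finset.mem_sdiff.2 ⟨(h5 j).2, fun h6 => (h2 _ j h6).1 ?_⟩
      rwa [vr_ng]
  · intro v hv _ j
    by_cases h3 : Pt.g v ∈ C
    · have h5 := (h.un v h3).2.2 j
      exact ⟨key _ _ (Or.inl h5.1), key _ _ (Or.inl h5.2)⟩
    · have h5 := h.re v hv h3 j
      exact ⟨key _ _ h5.1, key _ _ h5.2⟩
  · intro v hv j
    exact key _ _ (h.tr v hv j)

theorem range'_cons (h : m0 < n) :
    List.range' m0 (n - m0) = m0 :: List.range' (m0 + 1) (n - (m0 + 1)) := by
  have : n - m0 = (n - (m0 + 1)) + 1 := by omega
  rw [this, List.range'_succ]

/-- a variable with both literals live gets a value -/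
theorem WI.advance (h : WI U cl C τ m0) (hn : m0 < n) (hg : Pt.g ⟨m0, hn⟩ ∉ C) :
    ∃ b, WI U cl C (Function.update τ m0 b) (m0 + 1) := by
  have hq : ∃ b, qev U (Mat m cl) (List.range' (m0 + 1) (n - (m0 + 1)))
      (Function.update τ m0 b) := by
    have := h.qe
    rw [range'_cons hn] at this
    unfold qev at this
    split_ifs at this with hU
    · exact ⟨true, this true⟩
    · exact this
  obtain ⟨b, hb⟩ := hq
  refine ⟨b, hn, ?_, h.un, ?_, ?_, hb⟩
  · intro v hv
    rcases Nat.lt_succ_iff_lt_or_eq.1 hv with h3 | h3
    · exact h.lt v h3
    · have : v = ⟨m0, hn⟩ := Fin.ext h3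
      rwa [this]
  · intro v hv
    exact h.re v (by omega)
  · intro v hv j
    rcases Nat.lt_succ_iff_lt_or_eq.1 hv with h3 | h3
    · rw [Function.update_of_ne (by omega)]
      exact h.tr v h3 j
    · have hv' : v = ⟨m0, hn⟩ := Fin.ext h3
      have h5 := h.re v (by omega) (by rwa [hv']) j
      split_ifs
      · exact h5.1
      · exact h5.2

theorem WI.adv : ∀ (k : ℕ) (τ : ℕ → Bool) (m0 : ℕ), n - m0 ≤ k → WI U cl C τ m0 →
    ∃ τ' m1, WI U cl C τ' m1 ∧ ∀ h : m1 < n, Pt.g ⟨m1, h⟩ ∈ C
  | 0, τ, m0, hk, h => ⟨τ, m0, h, fun h3 => by omega⟩
  | (k + 1), τ, m0, hk, h => by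
      by_cases hn : m0 < n
      · by_cases hg : Pt.g ⟨m0, hn⟩ ∈ C
        · exact ⟨τ, m0, h, fun _ => hg⟩
        · obtain ⟨b, hb⟩ := h.advance hn hg
          exact WI.adv k _ _ (by omega) hb
      · exact ⟨τ, m0, h, fun h3 => absurd h3 hn⟩

/-- the first unset variable gets the value `b` -/
theorem WI.set (h : WI U cl C τ m0) (hn : m0 < n) (hg : Pt.g ⟨m0, hn⟩ ∈ C) (b : Bool)
    (hb : qev U (Mat m cl) (List.range' (m0 + 1) (n - (m0 + 1))) (Function.update τ m0 b)) :
    WI U cl (C \ (tri ⟨m0, hn⟩ ∪ toks (if b then ng ⟨m0, hn⟩ else ps ⟨m0, hn⟩)))
      (Function.update τ m0 b) (m0 + 1) := by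
  set w : Fin n := ⟨m0, hn⟩ with hw
  set X : Finset (Pt n m) := tri w ∪ toks (if b then ng w else ps w) with hX
  have ht : ∀ v, Pt.t v ∈ X → v = w := by
    intro v hv
    simp only [hX, tri, toks, Finset.mem_union, Finset.mem_insert, Finset.mem_singleton,
      Finset.mem_image] at hv
    rcases hv with hv | hv
    · rcases hv with hv | hv | hv
      · injection hv
      · cases hv
      · cases hv
    · obtain ⟨i, _, hi⟩ := hv
      cases hi
  have hf : ∀ v, Pt.f v ∈ X → v = w := by
    intro v hv
    simp only [hX, tri, toks, Finset.mem_union, Finset.mem_insert, Finset.mem_singleton,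
      Finset.mem_image] at hv
    rcases hv with hv | hv
    · rcases hv with hv | hv | hv
      · cases hv
      · injection hv
      · cases hv
    · obtain ⟨i, _, hi⟩ := hv
      cases hi
  have hgX : ∀ v, Pt.g v ∈ X ↔ v = w := by
    intro v
    constructor
    · intro hv
      simp only [hX, tri, toks, Finset.mem_union, Finset.mem_insert, Finset.mem_singleton,
        Finset.mem_image] at hv
      rcases hv with hv | hv
      · rcases hv with hv | hv | hv
        · cases hv
        · cases hv
        · injection hv
      · obtain ⟨i, _, hi⟩ := hv
        cases hi
    · rintro rfl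
      simp [hX, tri]
  have hqX : ∀ j, q j ∉ X := by
    intro j hv
    simp only [hX, tri, toks, Finset.mem_union, Finset.mem_insert, Finset.mem_singleton,
      Finset.mem_image] at hv
    rcases hv with hv | hv
    · rcases hv with hv | hv | hv <;> cases hv
    · obtain ⟨i, _, hi⟩ := hv
      cases hi
  have hkX : ∀ a j, tok a j ∈ X → a = (if b then ng w else ps w) := by
    intro a j hv
    rw [hX, Finset.mem_union] at hv
    rcases hv with hv | hv
    · simp only [tri, Finset.mem_insert, Finset.mem_singleton] at hv
      rcases hv with hv | hv | hv <;> cases hv
    · exact mem_toks.1 hv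
  have hvr : vr (if b then ng w else ps w) = w := by
    split_ifs
    · exact vr_ng w
    · exact vr_ps w
  have key : ∀ a j, vr a ≠ w → (tok a j ∈ C ∨ q j ∉ C) → (tok a j ∈ C \ X ∨ q j ∉ C \ X) := by
    intro a j ha h3
    rcases h3 with h3 | h3
    · left
      refine Finset.mem_sdiff.2 ⟨h3, fun h4 => ha ?_⟩
      rw [hkX a j h4, hvr]
    · right
      exact fun h4 => h3 (Finset.mem_sdiff.1 h4).1
  refine ⟨hn, ?_, ?_, ?_, ?_, hb⟩
  · intro v hv h3
    rw [Finset.mem_sdiff] at h3
    rcases Nat.lt_succ_iff_lt_or_eq.1 hv with h4 | h4
    · exact h.lt v h4 h3.1
    · exact h3.2 ((hgX v).2 (Fin.ext h4))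
  · intro v hv
    rw [Finset.mem_sdiff, hgX] at hv
    obtain ⟨h3, h4, h5⟩ := h.un v hv.1
    refine ⟨Finset.mem_sdiff.2 ⟨h3, fun h6 => hv.2 (ht v h6)⟩,
      Finset.mem_sdiff.2 ⟨h4, fun h6 => hv.2 (hf v h6)⟩, fun j => ⟨?_, ?_⟩⟩
    · refine Finset.mem_sdiff.2 ⟨(h5 j).1, fun h6 => hv.2 ?_⟩
      rw [← vr_ps v, hkX _ j h6, hvr]
    · refine Finset.mem_sdiff.2 ⟨(h5 j).2, fun h6 => hv.2 ?_⟩
      rw [← vr_ng v, hkX _ j h6, hvr]
  · intro v hv _ j
    have hvw : v ≠ w := by
      intro h6
      rw [h6, hw] at hv
      simp at hv
    by_cases h3 : Pt.g v ∈ C
    · have h5 := (h.un v h3).2.2 j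
      exact ⟨key _ _ (by rwa [vr_ps]) (Or.inl h5.1), key _ _ (by rwa [vr_ng]) (Or.inl h5.2)⟩
    · have h5 := h.re v (by omega) h3 j
      exact ⟨key _ _ (by rwa [vr_ps]) h5.1, key _ _ (by rwa [vr_ng]) h5.2⟩
  · intro v hv j
    rcases Nat.lt_succ_iff_lt_or_eq.1 hv with h4 | h4
    · rw [Function.update_of_ne (by omega)]
      apply key _ _ _ (h.tr v h4 j)
      have hvw : v ≠ w := by
        intro h6
        rw [h6, hw] at h4
        simp at h4
      split_ifs
      · rwa [vr_ps]
      · rwa [vr_ng]
    · have hvw : v = w := Fin.ext h4
      rw [h4, Function.update_self, hvw]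
      have h5 := (h.un w hg).2.2 j
      left
      refine Finset.mem_sdiff.2 ⟨?_, fun h6 => ?_⟩
      · split_ifs
        · exact h5.1
        · exact h5.2
      · have h7 := hkX _ j h6
        cases b
        · simp only [Bool.false_eq_true, if_false] at h7
          exact ps_ne_ng _ _ h7.symm
        · simp only [if_true] at h7
          exact ps_ne_ng _ _ h7

theorem qev_exists {U : ℕ → Bool} {Φ : (ℕ → Bool) → Prop} :
    ∀ (vs : List ℕ) (τ : ℕ → Bool), qev U Φ vs τ → ∃ τ', (∀ x, x ∉ vs → τ' x = τ x) ∧ Φ τ'
  | [], τ, h => ⟨τ, fun _ _ => rfl, h⟩
  | v :: vs, τ, h => by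
      have h2 : ∃ b, qev U Φ vs (Function.update τ v b) := by
        unfold qev at h
        split_ifs at h with hU
        · exact ⟨true, h true⟩
        · exact h
      obtain ⟨b, hb⟩ := h2
      obtain ⟨τ', h3, h4⟩ := qev_exists vs _ hb
      refine ⟨τ', fun x hx => ?_, h4⟩
      rw [List.mem_cons, not_or] at hx
      rw [h3 x hx.2, Function.update_of_ne hx.1]

/-- the literal used for the clause `j` -/
theorem WI.clause (hcl : ∀ j < m, ∀ i < 5, cl j i < 2 * n) (h : WI U cl C τ m0) (j : Fin m) :
    ∃ (a : Fin (2 * n)) (i : ℕ), i < 5 ∧ cl j i = a ∧
      (Pt.g (vr a) ∈ C ∨ (tok a j ∈ C ∨ q j ∉ C)) := by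
  obtain ⟨τ', h1, h2⟩ := qev_exists _ _ h.qe
  obtain ⟨i, hi, h3⟩ := h2 j j.2
  refine ⟨⟨cl j i, hcl j j.2 i hi⟩, i, hi, rfl, ?_⟩
  set a : Fin (2 * n) := ⟨cl j i, hcl j j.2 i hi⟩ with ha
  by_cases hg : Pt.g (vr a) ∈ C
  · exact Or.inl hg
  · right
    by_cases hv : ((vr a : Fin n) : ℕ) < m0
    · have h4 := h.tr (vr a) hv j
      have h5 : τ' (vr a : Fin n) = τ (vr a : Fin n) := by
        apply h1
        rw [List.mem_range']
        rintro ⟨i', hi', h6⟩
        omega
      have h6 : (if τ (vr a : Fin n) = true then ps (vr a) else ng (vr a)) = a := by
        have hval : ((vr a : Fin n) : ℕ) = cl j i / 2 := rfl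
        unfold lit at h3
        rw [← h5, hval]
        split_ifs at h3 with h7
        · rw [if_pos h3]
          apply Fin.ext
          simp only [ps, hval]
          rw [ha]
          simp only
          omega
        · have h8 : τ' (cl j i / 2) = false := by simpa using h3
          rw [h8]
          simp only [Bool.false_eq_true, if_false]
          apply Fin.ext
          simp only [ng, hval]
          rw [ha]
          simp only
          omega
      rwa [h6] at h4
    · have h4 := h.re (vr a) (by omega) hg j
      rcases eq_ps_or a with h5 | h5
      · rw [← h5] at h4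
        exact h4.1
      · rw [← h5] at h4
        exact h4.2

theorem main (hcl : ∀ j < m, ∀ i < 5, cl j i < 2 * n) : ∀ (k : ℕ) (C : Finset (Pt n m)),
    C.card ≤ k → ∀ τ m0, WI U cl C τ m0 → DW (Pt.Ans U cl) C := by
  intro k
  induction k with
  | zero =>
      intro C hC τ m0 _
      have : C = ∅ := by
        rw [← Finset.card_eq_zero]
        omega
      subst this
      rw [DW_iff]
      exact ⟨fun p hp => by simp at hp, fun h => by simp at h⟩
  | succ k ih =>
      intro C hC τ0 m00 h0
      obtain ⟨τ, m0, h, hg⟩ := WI.adv (n - m00) τ0 m00 le_rfl h0
      have step : ∀ (p : Pt n m) (X : Finset (Pt n m)), p ∈ C → p ∈ X → ∀ τ' m1,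
          WI U cl (C \ X) τ' m1 → DW (Pt.Ans U cl) (C \ X) := by
        intro p X hp hpX τ' m1 h1
        apply ih _ _ τ' m1 h1
        have : (C \ X).card < C.card := by
          apply Finset.card_lt_card
          rw [Finset.ssubset_iff_subset_ne]
          refine ⟨Finset.sdiff_subset, fun h2 => ?_⟩
          rw [← h2] at hp
          exact (Finset.mem_sdiff.1 hp).2 hpX
        omega
      rw [DW_iff]
      constructor
      · intro p hp
        cases p with
        | t v =>
            by_cases hgv : Pt.g v ∈ C
            · obtain ⟨u1, u2, u3⟩ := h.un v hgv
              have hm0v : m0 ≤ v := by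
                by_contra h3
                exact h.lt v (by omega) hgv
              have hn : m0 < n := by have := v.2; omega
              rcases Nat.eq_or_lt_of_le hm0v with h3 | h3
              · -- the first unset variable
                have hvw : v = ⟨m0, hn⟩ := Fin.ext h3.symm
                have hb : ∃ b, (U m0 = true → b = true) ∧
                    qev U (Mat m cl) (List.range' (m0 + 1) (n - (m0 + 1)))
                      (Function.update τ m0 b) := by
                  have := h.qe
                  rw [range'_cons hn] at this
                  unfold qev at this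
                  split_ifs at this with hU
                  · exact ⟨true, fun _ => rfl, this true⟩
                  · obtain ⟨b, hb⟩ := this
                    exact ⟨b, fun h4 => absurd h4 hU, hb⟩
                obtain ⟨b, hb1, hb2⟩ := hb
                have hs := h.set hn (hvw ▸ hgv) b hb2
                rw [← hvw] at hs
                refine ⟨tri v ∪ toks (if b then ng v else ps v), ?_, ?_, ?_, ?_⟩
                · cases b
                  · simp only [Bool.false_eq_true, if_false]
                    apply Ans.tF
                    rw [← h3]
                    by_contra h4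
                    have := hb1 (by simpa using h4)
                    simp at this
                  · simp only [if_true]
                    exact Ans.tT v
                · simp [tri]
                · intro x hx
                  rw [Finset.mem_union] at hx
                  rcases hx with hx | hx
                  · simp only [tri, Finset.mem_insert, Finset.mem_singleton] at hx
                    rcases hx with rfl | rfl | rfl
                    · exact u1
                    · exact u2
                    · exact hgv
                  · simp only [toks, Finset.mem_image, Finset.mem_univ, true_and] at hx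
                    obtain ⟨j, rfl⟩ := hx
                    split_ifs
                    · exact (u3 j).2
                    · exact (u3 j).1
                · exact step _ _ hp (by simp [tri]) _ _ hs
              · -- a later unset variable
                have hgm := hg hn
                refine ⟨{Pt.t v, Pt.g v, Pt.g ⟨m0, hn⟩}, Ans.t3 v ⟨m0, hn⟩ h3, by simp, ?_, ?_⟩
                · intro x hx
                  simp only [Finset.mem_insert, Finset.mem_singleton] at hx
                  rcases hx with rfl | rfl | rfl
                  · exact u1
                  · exact hgv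
                  · exact hgm
                · apply step (Pt.t v) _ hp (by simp) τ m0
                  apply h.sdiff
                  · intro w hw h4
                    simp only [Finset.mem_insert, Finset.mem_singleton, reduceCtorEq, or_false,
                      Pt.t.injEq] at hw
                    subst hw
                    simp at h4
                  · intro a j hx
                    simp at hx
            · refine ⟨{Pt.t v}, Ans.t1 v, by simp, by simpa using hp, ?_⟩
              apply step (Pt.t v) _ hp (by simp) τ m0
              apply h.sdiff
              · intro w hw h4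
                simp only [Finset.mem_singleton, reduceCtorEq, or_false, Pt.t.injEq] at hw
                subst hw
                exact hgv (Finset.mem_sdiff.1 h4).1
              · intro a j hx
                simp at hx
        | f v =>
            by_cases hgv : Pt.g v ∈ C
            · obtain ⟨u1, u2, u3⟩ := h.un v hgv
              have hm0v : m0 ≤ v := by
                by_contra h3
                exact h.lt v (by omega) hgv
              have hn : m0 < n := by have := v.2; omega
              rcases Nat.eq_or_lt_of_le hm0v with h3 | h3
              · have hvw : v = ⟨m0, hn⟩ := Fin.ext h3.symm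
                have hb : ∃ b, (U m0 = true → b = false) ∧
                    qev U (Mat m cl) (List.range' (m0 + 1) (n - (m0 + 1)))
                      (Function.update τ m0 b) := by
                  have := h.qe
                  rw [range'_cons hn] at this
                  unfold qev at this
                  split_ifs at this with hU
                  · exact ⟨false, fun _ => rfl, this false⟩
                  · obtain ⟨b, hb⟩ := this
                    exact ⟨b, fun h4 => absurd h4 hU, hb⟩
                obtain ⟨b, hb1, hb2⟩ := hb
                have hs := h.set hn (hvw ▸ hgv) b hb2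
                rw [← hvw] at hs
                refine ⟨tri v ∪ toks (if b then ng v else ps v), ?_, ?_, ?_, ?_⟩
                · cases b
                  · simp only [Bool.false_eq_true, if_false]
                    exact Ans.fF v
                  · simp only [if_true]
                    apply Ans.fT
                    rw [← h3]
                    by_contra h4
                    have := hb1 (by simpa using h4)
                    simp at this
                · simp [tri]
                · intro x hx
                  rw [Finset.mem_union] at hx
                  rcases hx with hx | hx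
                  · simp only [tri, Finset.mem_insert, Finset.mem_singleton] at hx
                    rcases hx with rfl | rfl | rfl
                    · exact u1
                    · exact u2
                    · exact hgv
                  · simp only [toks, Finset.mem_image, Finset.mem_univ, true_and] at hx
                    obtain ⟨j, rfl⟩ := hx
                    split_ifs
                    · exact (u3 j).2
                    · exact (u3 j).1
                · exact step _ _ hp (by simp [tri]) _ _ hs
              · have hgm := hg hn
                refine ⟨{Pt.f v, Pt.g v, Pt.g ⟨m0, hn⟩}, Ans.f3 v ⟨m0, hn⟩ h3, by simp, ?_, ?_⟩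
                · intro x hx
                  simp only [Finset.mem_insert, Finset.mem_singleton] at hx
                  rcases hx with rfl | rfl | rfl
                  · exact u2
                  · exact hgv
                  · exact hgm
                · apply step (Pt.f v) _ hp (by simp) τ m0
                  apply h.sdiff
                  · intro w hw h4
                    simp only [Finset.mem_insert, Finset.mem_singleton, reduceCtorEq, or_false,
                      false_or, Pt.f.injEq] at hw
                    subst hw
                    simp at h4
                  · intro a j hx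
                    simp at hx
            · refine ⟨{Pt.f v}, Ans.f1 v, by simp, by simpa using hp, ?_⟩
              apply step (Pt.f v) _ hp (by simp) τ m0
              apply h.sdiff
              · intro w hw h4
                simp only [Finset.mem_singleton, reduceCtorEq, false_or, Pt.f.injEq] at hw
                subst hw
                exact hgv (Finset.mem_sdiff.1 h4).1
              · intro a j hx
                simp at hx
        | g v =>
            obtain ⟨u1, u2, u3⟩ := h.un v hp
            refine ⟨tri v, Ans.g v, by simp [tri], ?_, ?_⟩
            · intro x hx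
              simp only [tri, Finset.mem_insert, Finset.mem_singleton] at hx
              rcases hx with rfl | rfl | rfl
              · exact u1
              · exact u2
              · exact hp
            · apply step (Pt.g v) _ hp (by simp [tri]) τ m0
              apply h.sdiff
              · intro w hw h4
                simp only [tri, Finset.mem_insert, Finset.mem_singleton, reduceCtorEq, or_false,
                  false_or, Pt.t.injEq, Pt.f.injEq, or_self] at hw
                subst hw
                simp [tri] at h4
              · intro a j hx
                simp [tri] at hx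
        | q j =>
            obtain ⟨a, i, hi, hc, h3⟩ := h.clause hcl j
            by_cases hgv : Pt.g (vr a) ∈ C
            · have htok : tok a j ∈ C := by
                have h5 := (h.un _ hgv).2.2 j
                rcases eq_ps_or a with h6 | h6
                · rw [← h6] at h5
                  exact h5.1
                · rw [← h6] at h5
                  exact h5.2
              refine ⟨{q j, tok a j, Pt.g (vr a)}, Ans.q3 j a i hi hc, by simp, ?_, ?_⟩
              · intro x hx
                simp only [Finset.mem_insert, Finset.mem_singleton] at hx
                rcases hx with rfl | rfl | rfl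
                · exact hp
                · exact htok
                · exact hgv
              · apply step (q j) _ hp (by simp) τ m0
                apply h.sdiff
                · intro w hw h4
                  simp at hw
                · intro a' j' hx
                  simp only [Finset.mem_insert, Finset.mem_singleton, reduceCtorEq, or_false,
                    false_or, Pt.tok.injEq] at hx
                  obtain ⟨rfl, rfl⟩ := hx
                  simp
            · have htok : tok a j ∈ C := by
                rcases h3 with h3 | h3 | h3
                · exact absurd h3 hgv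
                · exact h3
                · exact absurd hp h3
              refine ⟨{q j, tok a j}, Ans.q2 j a i hi hc, by simp, ?_, ?_⟩
              · intro x hx
                simp only [Finset.mem_insert, Finset.mem_singleton] at hx
                rcases hx with rfl | rfl
                · exact hp
                · exact htok
              · apply step (q j) _ hp (by simp) τ m0
                apply h.sdiff
                · intro w hw h4
                  simp at hw
                · intro a' j' hx
                  simp only [Finset.mem_insert, Finset.mem_singleton, reduceCtorEq,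
                    false_or, Pt.tok.injEq] at hx
                  obtain ⟨rfl, rfl⟩ := hx
                  refine ⟨fun h5 => hgv (Finset.mem_sdiff.1 h5).1, by simp⟩
        | tok a j =>
            by_cases hq : q j ∈ C <;> by_cases hgv : Pt.g (vr a) ∈ C
            · refine ⟨{tok a j, q j, Pt.g (vr a)}, Ans.k4 a j, by simp, ?_, ?_⟩
              · intro x hx
                simp only [Finset.mem_insert, Finset.mem_singleton] at hx
                rcases hx with rfl | rfl | rfl <;> assumption
              · apply step (tok a j) _ hp (by simp) τ m0
                apply h.sdiff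
                · intro w hw h4
                  simp at hw
                · intro a' j' hx
                  simp only [Finset.mem_insert, Finset.mem_singleton, reduceCtorEq, or_false,
                    Pt.tok.injEq] at hx
                  obtain ⟨rfl, rfl⟩ := hx
                  simp
            · refine ⟨{tok a j, q j}, Ans.k2 a j, by simp, ?_, ?_⟩
              · intro x hx
                simp only [Finset.mem_insert, Finset.mem_singleton] at hx
                rcases hx with rfl | rfl <;> assumption
              · apply step (tok a j) _ hp (by simp) τ m0
                apply h.sdiff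
                · intro w hw h4
                  simp at hw
                · intro a' j' hx
                  simp only [Finset.mem_insert, Finset.mem_singleton, reduceCtorEq, or_false,
                    Pt.tok.injEq] at hx
                  obtain ⟨rfl, rfl⟩ := hx
                  refine ⟨fun h5 => hgv (Finset.mem_sdiff.1 h5).1, by simp⟩
            · refine ⟨{tok a j, Pt.g (vr a)}, Ans.k3 a j, by simp, ?_, ?_⟩
              · intro x hx
                simp only [Finset.mem_insert, Finset.mem_singleton] at hx
                rcases hx with rfl | rfl <;> assumption
              · apply step (tok a j) _ hp (by simp) τ m0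
                apply h.sdiff
                · intro w hw h4
                  simp at hw
                · intro a' j' hx
                  simp only [Finset.mem_insert, Finset.mem_singleton, reduceCtorEq, or_false,
                    Pt.tok.injEq] at hx
                  obtain ⟨rfl, rfl⟩ := hx
                  refine ⟨by simp, fun h5 => hq (Finset.mem_sdiff.1 h5).1⟩
            · refine ⟨{tok a j}, Ans.k1 a j, by simp, ?_, ?_⟩
              · intro x hx
                simp only [Finset.mem_singleton] at hx
                rcases hx with rfl
                assumption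
              · apply step (tok a j) _ hp (by simp) τ m0
                apply h.sdiff
                · intro w hw h4
                  simp at hw
                · intro a' j' hx
                  simp only [Finset.mem_singleton, Pt.tok.injEq] at hx
                  obtain ⟨rfl, rfl⟩ := hx
                  refine ⟨fun h5 => hgv (Finset.mem_sdiff.1 h5).1,
                    fun h5 => hq (Finset.mem_sdiff.1 h5).1⟩
      · intro hne
        have pass : ∀ p ∈ C, (∀ v, p = Pt.t v ∨ p = Pt.f v → Pt.g v ∉ C) →
            (∀ a j, p = tok a j → Pt.g (vr a) ∉ C ∧ q j ∉ C) →
            ∃ p ∈ C, DW (Pt.Ans U cl) (C.erase p) := by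
          intro p hp h1 h2
          refine ⟨p, hp, ?_⟩
          rw [← Finset.sdiff_singleton_eq_erase]
          apply step p _ hp (by simp) τ m0
          apply h.sdiff
          · intro v hv h3
            apply h1 v _ (Finset.mem_sdiff.1 h3).1
            simp only [Finset.mem_singleton] at hv
            rcases hv with hv | hv
            · exact Or.inl hv.symm
            · exact Or.inr hv.symm
          · intro a j hx
            simp only [Finset.mem_singleton] at hx
            obtain ⟨h3, h4⟩ := h2 a j hx.symm
            exact ⟨fun h5 => h3 (Finset.mem_sdiff.1 h5).1, fun h5 => h4 (Finset.mem_sdiff.1 h5).1⟩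
        by_cases hn : m0 < n
        · exact pass _ (hg hn) (fun v hv => by simp at hv) (fun a j hx => by simp at hx)
        · have hall : ∀ v : Fin n, Pt.g v ∉ C := fun v => h.lt v (by have := v.2; omega)
          by_cases hq : ∃ j, q j ∈ C
          · obtain ⟨j, hj⟩ := hq
            exact pass _ hj (fun v hv => by simp at hv) (fun a j hx => by simp at hx)
          · push Not at hq
            obtain ⟨p, hp⟩ := hne
            exact pass p hp (fun v _ => hall v) (fun a j _ => ⟨hall _, hq j⟩)

end C1

theorem tc1 : TC1 := by
  intro n m U cl hcl hQ
  apply C1.main hcl _ Finset.univ le_rfl (fun _ => false) 0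
  refine ⟨Nat.zero_le _, ?_, ?_, ?_, ?_, ?_⟩
  · intro v hv
    omega
  · intro v _
    simp
  · intro v _ _ j
    simp
  · intro v hv
    omega
  · unfold QTrue at hQ
    rw [List.range_eq_range'] at hQ
    simpa using hQ

end Pool.Agent.H1.Dom
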