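import Pool.Agent.H1.Dom.Targets

/-!
MP_0061eb_lc, module C2.  helper56
-/

namespace Pool.Agent.H1.Dom

open Set Finset

namespace C2

variable {n m : ℕ}

open Classical in
/-- the set of uncovered points after the first `i` variables have been set as in `τ` -/
noncomputable def Cs (n m : ℕ) (i : ℕ) (τ : ℕ → Bool) : Finset (Pt n m) :=
  Finset.univ.filter (fun p => match p with
    | .t v => i ≤ (v : ℕ)
    | .f v => i ≤ (v : ℕ)
    | .g v => i ≤ (v : ℕ)
    | .q _ => True
    | .tok a _ => i ≤ (a : ℕ) / 2 ∨ lit τ a = true)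

theorem mem_t {i : ℕ} {τ : ℕ → Bool} {v : Fin n} : (Pt.t v : Pt n m) ∈ Cs n m i τ ↔ i ≤ (v : ℕ) := by
  simp [Cs]

theorem mem_f {i : ℕ} {τ : ℕ → Bool} {v : Fin n} : (Pt.f v : Pt n m) ∈ Cs n m i τ ↔ i ≤ (v : ℕ) := by
  simp [Cs]

theorem mem_g {i : ℕ} {τ : ℕ → Bool} {v : Fin n} : (Pt.g v : Pt n m) ∈ Cs n m i τ ↔ i ≤ (v : ℕ) := by
  simp [Cs]

theorem mem_q {i : ℕ} {τ : ℕ → Bool} {j : Fin m} : (Pt.q j : Pt n m) ∈ Cs n m i τ := by
  simp [Cs]

theorem mem_tok {i : ℕ} {τ : ℕ → Bool} {a : Fin (2 * n)} {j : Fin m} :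
    (Pt.tok a j : Pt n m) ∈ Cs n m i τ ↔ i ≤ (a : ℕ) / 2 ∨ lit τ a = true := by
  simp [Cs]

theorem mem_toks {a b : Fin (2 * n)} {j : Fin m} :
    (Pt.tok a j : Pt n m) ∈ Pt.toks b ↔ a = b := by
  simp [Pt.toks, eq_comm]

theorem not_toks_t {b : Fin (2 * n)} {v : Fin n} : (Pt.t v : Pt n m) ∉ Pt.toks b := by
  simp [Pt.toks]

theorem not_toks_f {b : Fin (2 * n)} {v : Fin n} : (Pt.f v : Pt n m) ∉ Pt.toks b := by
  simp [Pt.toks]

theorem not_toks_g {b : Fin (2 * n)} {v : Fin n} : (Pt.g v : Pt n m) ∉ Pt.toks b := by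
  simp [Pt.toks]

theorem not_toks_q {b : Fin (2 * n)} {v : Fin m} : (Pt.q v : Pt n m) ∉ Pt.toks b := by
  simp [Pt.toks]

theorem lit_update {τ : ℕ → Bool} {i : ℕ} {b : Bool} {a : ℕ} (h : a / 2 ≠ i) :
    lit (Function.update τ i b) a = lit τ a := by
  unfold lit
  rw [Function.update_of_ne h]

theorem step {i : ℕ} (hi : i < n) (τ : ℕ → Bool) (b : Bool) :
    Cs n m i τ \ (Pt.tri ⟨i, hi⟩ ∪ Pt.toks (if b then Pt.ng ⟨i, hi⟩ else Pt.ps ⟨i, hi⟩)) =
      Cs n m (i + 1) (Function.update τ i b) := by
  ext p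
  rw [Finset.mem_sdiff, Finset.mem_union]
  cases p with
  | t v =>
    rw [mem_t, mem_t]
    simp only [not_toks_t, Pt.tri, Finset.mem_insert, Finset.mem_singleton, Pt.t.injEq, or_false,
      reduceCtorEq, Fin.ext_iff]
    omega
  | f v =>
    rw [mem_f, mem_f]
    simp only [not_toks_f, Pt.tri, Finset.mem_insert, Finset.mem_singleton, Pt.f.injEq, or_false,
      false_or, reduceCtorEq, Fin.ext_iff]
    omega
  | g v =>
    rw [mem_g, mem_g]
    simp only [not_toks_g, Pt.tri, Finset.mem_insert, Finset.mem_singleton, Pt.g.injEq, or_false,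
      false_or, reduceCtorEq, Fin.ext_iff]
    omega
  | q j =>
    simp [mem_q, not_toks_q, Pt.tri]
  | tok a j =>
    rw [mem_tok, mem_tok, mem_toks]
    simp only [Pt.tri, Finset.mem_insert, Finset.mem_singleton, reduceCtorEq, false_or]
    by_cases h : (a : ℕ) / 2 = i
    · have h2 : (a : ℕ) = 2 * i ∨ (a : ℕ) = 2 * i + 1 := by omega
      cases b with
      | true =>
        simp only [if_true, Fin.ext_iff, Pt.ng]
        rcases h2 with h2 | h2
        · rw [h2]
          simp [lit]
        · rw [h2]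
          have e1 : (2 * i + 1) % 2 = 1 := by omega
          have e2 : (2 * i + 1) / 2 = i := by omega
          simp only [lit, e1, e2]
          simp
      | false =>
        simp only [Bool.false_eq_true, if_false, Fin.ext_iff, Pt.ps]
        rcases h2 with h2 | h2
        · rw [h2]
          simp [lit]
        · rw [h2]
          have e1 : (2 * i + 1) % 2 = 1 := by omega
          have e2 : (2 * i + 1) / 2 = i := by omega
          simp only [lit, e1, e2]
          simp
    · rw [lit_update h]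
      have h3 : ¬ a = (if b then Pt.ng ⟨i, hi⟩ else Pt.ps ⟨i, hi⟩) := by
        cases b <;> simp [Fin.ext_iff, Pt.ng, Pt.ps] <;> omega
      simp only [h3, not_false_eq_true, and_true]
      constructor
      · rintro (h4 | h4)
        · left; omega
        · exact Or.inr h4
      · rintro (h4 | h4)
        · left; omega
        · exact Or.inr h4

variable {U : ℕ → Bool} {cl : ℕ → ℕ → ℕ}

/-- once `t v` is covered alone, the game is lost -/
theorem dead_t {C : Finset (Pt n m)} {v : Fin n} (hg : Pt.g v ∈ C) {p : Pt n m}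
    (hp : p = Pt.t v ∨ p = Pt.f v) (h : RW (Pt.Ans U cl) (C \ {p})) : False := by
  have hg' : Pt.g v ∈ C \ {p} := by
    rw [Finset.mem_sdiff, Finset.mem_singleton]
    refine ⟨hg, ?_⟩
    rintro rfl
    rcases hp with hp | hp <;> simp at hp
  obtain ⟨X, hA, -, hX, -⟩ := (RW_iff _).mp h _ hg'
  cases hA with
  | g v =>
    have h1 : p ∈ (Pt.tri v : Finset (Pt n m)) := by
      rcases hp with rfl | rfl <;> simp [Pt.tri]
    have := hX h1
    simp at this

theorem main (n m : ℕ) (U : ℕ → Bool) (cl : ℕ → ℕ → ℕ) : ∀ (k i : ℕ) (τ : ℕ → Bool), i + k = n →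
    RW (Pt.Ans U cl : Pt n m → _ → _) (Cs n m i τ) → qev U (Mat m cl) (List.range' i k) τ := by
  intro k
  induction k with
  | zero =>
    intro i τ hi h j hj
    obtain ⟨X, hA, -, hX, -⟩ := (RW_iff _).mp h (Pt.q ⟨j, hj⟩) mem_q
    have key : ∀ (a : Fin (2 * n)) (i' : ℕ), i' < 5 → cl j i' = a →
        (Pt.tok a ⟨j, hj⟩ : Pt n m) ∈ Cs n m i τ → ∃ i < 5, lit τ (cl j i) = true := by
      intro a i' h1 h2 h3
      rw [mem_tok] at h3
      rcases h3 with h3 | h3
      · have := a.2; omega
      · exact ⟨i', h1, by rw [h2]; exact h3⟩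
    cases hA with
    | q2 j a i' h1 h2 => exact key a i' h1 h2 (hX (by simp))
    | q3 j a i' h1 h2 => exact key a i' h1 h2 (hX (by simp))
  | succ k ih =>
    intro i τ hi h
    have hin : i < n := by omega
    rw [List.range'_succ]
    simp only [qev]
    have ht := (RW_iff _).mp h (Pt.t ⟨i, hin⟩) (mem_t.mpr le_rfl)
    have hf := (RW_iff _).mp h (Pt.f ⟨i, hin⟩) (mem_f.mpr le_rfl)
    have hg : (Pt.g ⟨i, hin⟩ : Pt n m) ∈ Cs n m i τ := mem_g.mpr le_rfl
    have s1 := step (m := m) hin τ true
    have s2 := step (m := m) hin τ false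
    simp only [if_true, Bool.false_eq_true, if_false] at s1 s2
    have htt : qev U (Mat m cl) (List.range' (i + 1) k) (Function.update τ i true) ∨
        (U i = false ∧
          qev U (Mat m cl) (List.range' (i + 1) k) (Function.update τ i false)) := by
      obtain ⟨X, hA, -, hX, hW⟩ := ht
      cases hA with
      | tT v =>
        left
        rw [s1] at hW
        exact ih _ _ (by omega) hW
      | tF v hU =>
        right
        rw [s2] at hW
        exact ⟨hU, ih _ _ (by omega) hW⟩
      | t1 v => exact (dead_t hg (Or.inl rfl) hW).elim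
      | t3 v k' hk =>
        have : (Pt.g k' : Pt n m) ∈ Cs n m i τ := hX (by simp)
        rw [mem_g] at this
        have hk : (k' : ℕ) < i := hk
        omega
    have hff : qev U (Mat m cl) (List.range' (i + 1) k) (Function.update τ i false) ∨
        U i = false := by
      obtain ⟨X, hA, -, hX, hW⟩ := hf
      cases hA with
      | fF v =>
        left
        rw [s2] at hW
        exact ih _ _ (by omega) hW
      | fT v hU => exact Or.inr hU
      | f1 v => exact (dead_t hg (Or.inr rfl) hW).elim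
      | f3 v k' hk =>
        have : (Pt.g k' : Pt n m) ∈ Cs n m i τ := hX (by simp)
        rw [mem_g] at this
        have hk : (k' : ℕ) < i := hk
        omega
    by_cases hU : U i = true
    · rw [if_pos hU]
      intro b
      cases b with
      | true =>
        rcases htt with h1 | h1
        · exact h1
        · rw [hU] at h1; simp at h1
      | false =>
        rcases hff with h1 | h1
        · exact h1
        · rw [hU] at h1; simp at h1
    · rw [if_neg hU]
      rcases htt with h1 | h1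
      · exact ⟨true, h1⟩
      · exact ⟨false, h1.2⟩

end C2

theorem tc2 : TC2 := by
  intro n m U cl h
  unfold QTrue
  rw [List.range_eq_range']
  apply C2.main n m U cl n 0 _ (by omega)
  convert h
  ext p
  cases p <;> simp [C2.Cs]

end Pool.Agent.H1.Dom
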