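import Mathlib

/-!
MP_0061eb_lc: definitions (domination game on split graphs).
-/

namespace Pool.Agent.H1.Dom

open Set

/-! ### The domination game -/

section game

variable {V : Type} (G : SimpleGraph V)

/-- the closed neighbourhood of `v` -/
def nb (v : V) : Set V := {w | w = v ∨ G.Adj v w}

/-- `v` may be chosen when the vertices of `A` are dominated -/
def Legal (A : Set V) (v : V) : Prop := ¬ nb G v ⊆ A

open Classical in
/-- the number of further moves under optimal play from the position in which the vertices of `A`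
are dominated; it is Dominator's turn if the flag is `true` and Staller's turn otherwise; the first
argument is an upper bound for the number of further moves -/
noncomputable def moves : ℕ → Bool → Set V → ℕ
  | 0, _, _ => 0
  | n + 1, true, A => if A = univ then 0 else
      (⨅ v : {v // Legal G A v}, moves n false (A ∪ nb G v)) + 1
  | n + 1, false, A => if A = univ then 0 else
      (⨆ v : {v // Legal G A v}, moves n true (A ∪ nb G v)) + 1

/-- the game domination number -/
noncomputable def gameDom [Fintype V] : ℕ := moves G (Fintype.card V) true ∅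

/-- Dominator can end the game within `k` further moves; the flag tells whether it is Dominator's
turn -/
def Win : ℕ → Bool → Set V → Prop
  | 0, _, A => A = univ
  | k + 1, true, A => A = univ ∨ ∃ v, Legal G A v ∧ Win k false (A ∪ nb G v)
  | k + 1, false, A => ∀ v, Legal G A v → Win k true (A ∪ nb G v)

end game

/-- the split graph with clique `K`, independent set `I`, in which the neighbours of `k` in `I` are
the elements of `F k` -/
def splitG {K I : Type} (F : K → Set I) : SimpleGraph (K ⊕ I) :=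
  SimpleGraph.fromRel (fun a b => match a, b with
    | .inl _, .inl _ => True
    | .inl k, .inr i => i ∈ F k
    | _, _ => False)

/-! ### Online covering games.  The first player (adversary) picks an uncovered point `p`, the
second player answers by a set `X` of uncovered points with `p ∈ X` and `R p X`. -/

section cover

variable {P : Type} [DecidableEq P] (R : P → Finset P → Prop)

/-- the second player wins from the set `C` of uncovered points -/
inductive RW : Finset P → Prop
  | mk (C : Finset P) (X : P → Finset P)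
      (hX : ∀ p ∈ C, R p (X p) ∧ p ∈ X p ∧ X p ⊆ C)
      (h : ∀ p ∈ C, RW (C \ X p)) : RW C

/-- the second player wins from `C` even if the adversary may also pass; after a pass the second
player removes one point of his choice -/
inductive DW : Finset P → Prop
  | mk (C : Finset P) (X : P → Finset P)
      (hX : ∀ p ∈ C, R p (X p) ∧ p ∈ X p ∧ X p ⊆ C)
      (h : ∀ p ∈ C, DW (C \ X p))
      (z : Finset P) (hz : C.Nonempty → ∃ p ∈ C, z = C.erase p)
      (hz' : C.Nonempty → DW z) : DW C

/-- the second player wins, using only answers with exactly `l` points -/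
inductive UW (l : ℕ) : Finset P → Prop
  | mk (U : Finset P) (X : P → Finset P)
      (hX : ∀ p ∈ U, R p (X p) ∧ p ∈ X p ∧ X p ⊆ U ∧ (X p).card = l)
      (h : ∀ p ∈ U, UW l (U \ X p)) : UW l U

theorem RW_iff {C : Finset P} : RW R C ↔
    ∀ p ∈ C, ∃ X, R p X ∧ p ∈ X ∧ X ⊆ C ∧ RW R (C \ X) := by
  classical
  constructor
  · rintro ⟨_, X, hX, h⟩ p hp
    exact ⟨X p, (hX p hp).1, (hX p hp).2.1, (hX p hp).2.2, h p hp⟩
  · intro h
    choose! X h1 h2 h3 h4 using h
    exact ⟨C, X, fun p hp => ⟨h1 p hp, h2 p hp, h3 p hp⟩, h4⟩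

theorem UW_iff {l : ℕ} {U : Finset P} : UW R l U ↔
    ∀ p ∈ U, ∃ X, R p X ∧ p ∈ X ∧ X ⊆ U ∧ X.card = l ∧ UW R l (U \ X) := by
  classical
  constructor
  · rintro ⟨_, X, hX, h⟩ p hp
    exact ⟨X p, (hX p hp).1, (hX p hp).2.1, (hX p hp).2.2.1, (hX p hp).2.2.2, h p hp⟩
  · intro h
    choose! X h1 h2 h3 h4 h5 using h
    exact ⟨U, X, fun p hp => ⟨h1 p hp, h2 p hp, h3 p hp, h4 p hp⟩, h5⟩

theorem DW_iff {C : Finset P} : DW R C ↔
    (∀ p ∈ C, ∃ X, R p X ∧ p ∈ X ∧ X ⊆ C ∧ DW R (C \ X)) ∧
    (C.Nonempty → ∃ p ∈ C, DW R (C.erase p)) := by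
  classical
  constructor
  · rintro ⟨_, X, hX, h, z, hz, hz'⟩
    refine ⟨fun p hp => ⟨X p, (hX p hp).1, (hX p hp).2.1, (hX p hp).2.2, h p hp⟩, fun hC => ?_⟩
    obtain ⟨p, hp, rfl⟩ := hz hC
    exact ⟨p, hp, hz' hC⟩
  · rintro ⟨h, h'⟩
    choose! X h1 h2 h3 h4 using h
    by_cases hC : C.Nonempty
    · obtain ⟨p, hp, hp'⟩ := h' hC
      exact ⟨C, X, fun p hp => ⟨h1 p hp, h2 p hp, h3 p hp⟩, h4, C.erase p,
        fun _ => ⟨p, hp, rfl⟩, fun _ => hp'⟩
    · exact ⟨C, X, fun p hp => ⟨h1 p hp, h2 p hp, h3 p hp⟩, h4, ∅, fun h => absurd h hC,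
        fun h => absurd h hC⟩

end cover

/-! ### From covering games with answers of different sizes to answers of one size -/

section fill

variable {P : Type} [DecidableEq P] {L : ℕ}

/-- the segment of the cell `i` with positions in `[c, c + a)` -/
def seg (L : ℕ) (i : P) (c a : ℕ) : Finset (P × Fin (L + 1)) :=
  (Finset.univ.filter (fun e : Fin (L + 1) => c ≤ (e : ℕ) ∧ (e : ℕ) < c + a)).map
    ⟨fun e => (i, e), fun _ _ h => (Prod.ext_iff.1 h).2⟩

/-- the set of the real points of `X`, one segment of `a` fillers of the cell `i₀` starting at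
`c₀ + 1` and the first `b` fillers of the cell `i₁` -/
def big (L : ℕ) (X : Finset P) (i₀ : P) (c₀ a : ℕ) (i₁ : P) (b : ℕ) :
    Finset (P × Fin (L + 1)) :=
  X.map ⟨fun p => (p, 0), fun _ _ h => (Prod.ext_iff.1 h).1⟩ ∪ seg L i₀ (c₀ + 1) a ∪
    seg L i₁ 1 b

/-- answers of the padded game: the ground set is `P × Fin (L + 1)`, the points `(p, 0)` are the
real points and the points `(p, e)` with `e ≥ 1` are fillers.  A real point may be answered
with an old answer and fillers, a filler with at most one real point and fillers. -/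
inductive Pad (L : ℕ) (R : P → Finset P → Prop) :
    P × Fin (L + 1) → Finset (P × Fin (L + 1)) → Prop
  | real (p : P) (X : Finset P) (i₀ : P) (c₀ a : ℕ) (i₁ : P) (b : ℕ)
      (hR : R p X) (hX : p ∈ X) (hc : c₀ + a ≤ L) (hb : b ≤ L) (h : X.card + a + b = L + 1) :
      Pad L R (p, 0) (big L X i₀ c₀ a i₁ b)
  | one (z : P × Fin (L + 1)) (hz : z.2 ≠ 0) (p i₀ : P) (c₀ a : ℕ) (i₁ : P) (b : ℕ)
      (hc : c₀ + a ≤ L) (hb : b ≤ L) (h : a + b = L) (hm : z ∈ big L {p} i₀ c₀ a i₁ b) :
      Pad L R z (big L {p} i₀ c₀ a i₁ b)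
  | none (z : P × Fin (L + 1)) (hz : z.2 ≠ 0) (i₀ : P) (c₀ a : ℕ) (i₁ : P) (b : ℕ)
      (hc : c₀ + a ≤ L) (hb : b ≤ L) (h : a + b = L + 1) (hm : z ∈ big L ∅ i₀ c₀ a i₁ b) :
      Pad L R z (big L ∅ i₀ c₀ a i₁ b)

end fill

/-! ### Quantified Boolean formulas -/

/-- truth of a literal: `2 x + 1` is the variable `x`, `2 x` its negation -/
def lit (τ : ℕ → Bool) (a : ℕ) : Bool := if a % 2 = 1 then τ (a / 2) else !τ (a / 2)

/-- truth of a quantified formula: the variables of the list are quantified from left to right,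
universally if `U v` and existentially otherwise, `Φ` is the matrix -/
def qev (U : ℕ → Bool) (Φ : (ℕ → Bool) → Prop) : List ℕ → (ℕ → Bool) → Prop
  | [], τ => Φ τ
  | v :: vs, τ => if U v then ∀ b, qev U Φ vs (Function.update τ v b)
      else ∃ b, qev U Φ vs (Function.update τ v b)

/-- the matrix with `m` clauses, the literals of the clause `j` being `cl j i`, `i < 5` -/
def Mat (m : ℕ) (cl : ℕ → ℕ → ℕ) (τ : ℕ → Bool) : Prop :=
  ∀ j < m, ∃ i < 5, lit τ (cl j i) = true

/-- truth of a quantified formula with variables `0, …, n - 1` quantified in this order -/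
def QTrue (n m : ℕ) (U : ℕ → Bool) (cl : ℕ → ℕ → ℕ) : Prop :=
  qev U (Mat m cl) (List.range n) (fun _ => false)

/-! ### The covering game of a quantified formula -/

/-- points: for every variable `v` the points `t v`, `f v`, `g v`, for every clause `j` the point
`q j`, for every literal `a < 2 n` and every clause `j` the token `tok a j` -/
inductive Pt (n m : ℕ) : Type
  | t (v : Fin n) : Pt n m
  | f (v : Fin n) : Pt n m
  | g (v : Fin n) : Pt n m
  | q (j : Fin m) : Pt n m
  | tok (a : Fin (2 * n)) (j : Fin m) : Pt n m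
  deriving DecidableEq, Fintype

namespace Pt

variable {n m : ℕ}

/-- the variable of a literal -/
def vr (a : Fin (2 * n)) : Fin n := ⟨a / 2, by omega⟩

/-- the literal `v` -/
def ps (v : Fin n) : Fin (2 * n) := ⟨2 * v + 1, by omega⟩

/-- the literal `¬ v` -/
def ng (v : Fin n) : Fin (2 * n) := ⟨2 * v, by omega⟩

/-- the tokens of a literal -/
def toks (a : Fin (2 * n)) : Finset (Pt n m) := Finset.univ.image (fun j => tok a j)

/-- the points of a variable -/
def tri (v : Fin n) : Finset (Pt n m) := {t v, f v, g v}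

/-- possible answers -/
inductive Ans (U : ℕ → Bool) (cl : ℕ → ℕ → ℕ) : Pt n m → Finset (Pt n m) → Prop
  | tT (v : Fin n) : Ans U cl (t v) (tri v ∪ toks (ng v))
  | tF (v : Fin n) (h : U v = false) : Ans U cl (t v) (tri v ∪ toks (ps v))
  | t1 (v : Fin n) : Ans U cl (t v) {t v}
  | t3 (v k : Fin n) (h : k < v) : Ans U cl (t v) {t v, g v, g k}
  | fF (v : Fin n) : Ans U cl (f v) (tri v ∪ toks (ps v))
  | fT (v : Fin n) (h : U v = false) : Ans U cl (f v) (tri v ∪ toks (ng v))
  | f1 (v : Fin n) : Ans U cl (f v) {f v}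
  | f3 (v k : Fin n) (h : k < v) : Ans U cl (f v) {f v, g v, g k}
  | g (v : Fin n) : Ans U cl (g v) (tri v)
  | q2 (j : Fin m) (a : Fin (2 * n)) (i : ℕ) (hi : i < 5) (h : cl j i = a) :
      Ans U cl (q j) {q j, tok a j}
  | q3 (j : Fin m) (a : Fin (2 * n)) (i : ℕ) (hi : i < 5) (h : cl j i = a) :
      Ans U cl (q j) {q j, tok a j, g (vr a)}
  | k1 (a : Fin (2 * n)) (j : Fin m) : Ans U cl (tok a j) {tok a j}
  | k2 (a : Fin (2 * n)) (j : Fin m) : Ans U cl (tok a j) {tok a j, q j}
  | k3 (a : Fin (2 * n)) (j : Fin m) : Ans U cl (tok a j) {tok a j, g (vr a)}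
  | k4 (a : Fin (2 * n)) (j : Fin m) : Ans U cl (tok a j) {tok a j, q j, g (vr a)}

end Pt

end Pool.Agent.H1.Dom
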