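import Pool.Agent.H1.Dom.Targets

/-!
MP_0061eb_lc: module G (generalities on the domination game).
-/

namespace Pool.Agent.H1.Dom

open Set

section

variable {V : Type} (G : SimpleGraph V)

theorem mem_nb_self (v : V) : v ∈ nb G v := Or.inl rfl

theorem legal_of_notMem {A : Set V} {v : V} (h : v ∉ A) : Legal G A v :=
  fun hs => h (hs (mem_nb_self G v))

theorem exists_legal {A : Set V} (h : A ≠ univ) : ∃ v, Legal G A v := by
  obtain ⟨v, hv⟩ := (Set.ne_univ_iff_exists_notMem A).1 h
  exact ⟨v, legal_of_notMem G hv⟩

theorem not_legal_univ (v : V) : ¬ Legal G univ v := fun h => h (Set.subset_univ _)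

theorem win_univ (k : ℕ) (b : Bool) : Win G k b univ := by
  cases k with
  | zero => exact rfl
  | succ k =>
    cases b with
    | true => exact Or.inl rfl
    | false => exact fun v hv => absurd hv (not_legal_univ G v)

theorem win_zero_iff (b : Bool) (A : Set V) : Win G 0 b A ↔ A = univ := by
  cases b <;> exact Iff.rfl

end

theorem tg3 : TG3 := by
  intro V G k
  induction k with
  | zero =>
    intro b A B hAB h
    rw [win_zero_iff] at h ⊢
    rw [h] at hAB
    exact Set.univ_subset_iff.1 hAB
  | succ k ih =>
    intro b A B hAB h
    cases b with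
    | true =>
      rcases eq_or_ne B univ with hB | hB
      · exact Or.inl hB
      rcases h with h | ⟨v, _, hw⟩
      · rw [h] at hAB
        exact Or.inl (Set.univ_subset_iff.1 hAB)
      right
      by_cases hvB : Legal G B v
      · exact ⟨v, hvB, ih false _ _ (Set.union_subset_union_left _ hAB) hw⟩
      · obtain ⟨w, hwl⟩ := exists_legal G hB
        refine ⟨w, hwl, ih false _ _ ?_ hw⟩
        have h1 : nb G v ⊆ B := not_not.1 hvB
        exact (Set.union_subset hAB h1).trans Set.subset_union_left
    | false =>
      intro v hv
      have h1 : Legal G A v := fun hs => hv (hs.trans hAB)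
      exact ih true _ _ (Set.union_subset_union_left _ hAB) (h v h1)

/-- Dominator may play any vertex -/
theorem win_of_move {V : Type} (G : SimpleGraph V) (k : ℕ) (A : Set V) (v : V)
    (h : Win G k false (A ∪ nb G v)) : Win G (k + 1) true A := by
  rcases eq_or_ne A univ with hA | hA
  · exact Or.inl hA
  right
  by_cases hv : Legal G A v
  · exact ⟨v, hv, h⟩
  · obtain ⟨w, hw⟩ := exists_legal G hA
    refine ⟨w, hw, tg3 G k false _ _ ?_ h⟩
    have h1 : nb G v ⊆ A := not_not.1 hv
    exact (Set.union_subset subset_rfl h1).trans Set.subset_union_left

theorem moves_le_iff {V : Type} [Fintype V] (G : SimpleGraph V) (n : ℕ) :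
    ∀ (A : Set V), (Aᶜ).ncard ≤ n → ∀ (b : Bool) (k : ℕ),
      moves G n b A ≤ k ↔ Win G k b A := by
  classical
  induction n with
  | zero =>
    intro A hA b k
    have h1 : A = univ := by
      have h2 : Aᶜ = ∅ := by
        rw [← Set.ncard_eq_zero (Set.toFinite _)]
        omega
      exact Set.compl_empty_iff.1 h2
    rw [h1]
    constructor
    · intro _
      exact win_univ G k b
    · intro _
      cases b <;> exact Nat.zero_le _
  | succ n ih =>
    intro A hA b k
    rcases eq_or_ne A univ with hA' | hA'
    · rw [hA']
      constructor
      · intro _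
        exact win_univ G k b
      · intro _
        cases b <;> simp [moves]
    -- the measure decreases
    have hdec : ∀ v, Legal G A v → ((A ∪ nb G v)ᶜ).ncard ≤ n := by
      intro v hv
      have h1 : (A ∪ nb G v)ᶜ ⊂ Aᶜ := by
        refine ⟨Set.compl_subset_compl.2 Set.subset_union_left, fun h => hv ?_⟩
        exact Set.subset_union_right.trans (Set.compl_subset_compl.1 h)
      have h2 := Set.ncard_lt_ncard h1 (Set.toFinite _)
      omega
    have hne : Nonempty {v // Legal G A v} := by
      obtain ⟨v, hv⟩ := exists_legal G hA'
      exact ⟨⟨v, hv⟩⟩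
    cases b with
    | true =>
      have e : moves G (n + 1) true A =
          (⨅ v : {v // Legal G A v}, moves G n false (A ∪ nb G v)) + 1 := by
        rw [moves, if_neg hA']
      rw [e]
      cases k with
      | zero =>
        constructor
        · intro h
          omega
        · intro h
          exact absurd h hA'
      | succ k =>
        have h1 : (⨅ v : {v // Legal G A v}, moves G n false (A ∪ nb G v)) + 1 ≤ k + 1 ↔
            ∃ v : {v // Legal G A v}, moves G n false (A ∪ nb G v) ≤ k := by
          constructor
          · intro h
            obtain ⟨v, hv⟩ := Nat.sInf_mem (Set.range_nonempty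
              (fun v : {v // Legal G A v} => moves G n false (A ∪ nb G v)))
            refine ⟨v, ?_⟩
            simp only at hv
            rw [hv]
            unfold iInf at h
            omega
          · rintro ⟨v, hv⟩
            have h2 : (⨅ v : {v // Legal G A v}, moves G n false (A ∪ nb G v)) ≤
                moves G n false (A ∪ nb G v) := ciInf_le (OrderBot.bddBelow _) v
            omega
        rw [h1]
        constructor
        · rintro ⟨⟨v, hv⟩, h2⟩
          exact Or.inr ⟨v, hv, (ih _ (hdec v hv) false k).1 h2⟩
        · rintro (h2 | ⟨v, hv, h2⟩)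
          · exact absurd h2 hA'
          · exact ⟨⟨v, hv⟩, (ih _ (hdec v hv) false k).2 h2⟩
    | false =>
      have e : moves G (n + 1) false A =
          (⨆ v : {v // Legal G A v}, moves G n true (A ∪ nb G v)) + 1 := by
        rw [moves, if_neg hA']
      rw [e]
      cases k with
      | zero =>
        constructor
        · intro h
          omega
        · intro h
          exact absurd h hA'
      | succ k =>
        have h1 : (⨆ v : {v // Legal G A v}, moves G n true (A ∪ nb G v)) + 1 ≤ k + 1 ↔
            ∀ v : {v // Legal G A v}, moves G n true (A ∪ nb G v) ≤ k := by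
          rw [Nat.succ_le_succ_iff]
          exact ciSup_le_iff (Set.finite_range _).bddAbove
        rw [h1]
        constructor
        · intro h2 v hv
          exact (ih _ (hdec v hv) true k).1 (h2 ⟨v, hv⟩)
        · rintro h2 ⟨v, hv⟩
          exact (ih _ (hdec v hv) true k).2 (h2 v hv)

theorem tg1 : TG1 := by
  intro V _ G k
  refine moves_le_iff G (Fintype.card V) ∅ ?_ true k
  rw [Set.compl_empty, Set.ncard_univ, Nat.card_eq_fintype_card]

theorem tg2 : TG2 := by
  intro V W G H e he k
  have hnb : ∀ v, nb H (e v) = e '' nb G v := by
    intro v
    ext w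
    constructor
    · rintro (h | h)
      · exact ⟨v, Or.inl rfl, h.symm⟩
      · refine ⟨e.symm w, Or.inr ?_, by simp⟩
        rw [he]
        simpa using h
    · rintro ⟨u, hu | hu, rfl⟩
      · exact Or.inl (by rw [hu])
      · exact Or.inr ((he v u).1 hu)
  have hleg : ∀ A v, Legal H (e '' A) (e v) ↔ Legal G A v := by
    intro A v
    unfold Legal
    rw [hnb, Set.image_subset_image_iff e.injective]
  have huniv : ∀ A : Set V, e '' A = univ ↔ A = univ := by
    intro A
    constructor
    · intro h
      rw [← Set.image_univ_of_surjective e.surjective] at h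
      exact e.injective.image_injective h
    · intro h
      rw [h, Set.image_univ_of_surjective e.surjective]
  induction k with
  | zero =>
    intro b A
    rw [win_zero_iff, win_zero_iff, huniv]
  | succ k ih =>
    intro b A
    have hun : ∀ v, e '' (A ∪ nb G v) = e '' A ∪ nb H (e v) := by
      intro v
      rw [Set.image_union, hnb]
    cases b with
    | true =>
      constructor
      · rintro (h | ⟨v, hv, h⟩)
        · exact Or.inl ((huniv A).2 h)
        · refine Or.inr ⟨e v, (hleg A v).2 hv, ?_⟩
          rw [← hun]
          exact (ih false _).1 h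
      · rintro (h | ⟨w, hw, h⟩)
        · exact Or.inl ((huniv A).1 h)
        · obtain ⟨v, rfl⟩ := e.surjective w
          refine Or.inr ⟨v, (hleg A v).1 hw, ?_⟩
          rw [← hun] at h
          exact (ih false _).2 h
    | false =>
      constructor
      · intro h w hw
        obtain ⟨v, rfl⟩ := e.surjective w
        rw [← hun]
        exact (ih true _).1 (h v ((hleg A v).1 hw))
      · intro h v hv
        have h1 := h (e v) ((hleg A v).2 hv)
        rw [← hun] at h1
        exact (ih true _).2 h1

end Pool.Agent.H1.Dom
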