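import Pool.Agent.H1.Dom.PSub
import Pool.Agent.H1.Dom.A1
import Pool.Agent.H1.Dom.A2
import Pool.Agent.H1.Dom.B2
import Pool.Agent.H1.Dom.C2

/-!
MP_0061eb_lc: composition of the modules.
-/

namespace Pool.Agent.H1.Dom

open Set Pool.Agent.H68.OQP Pool.Agent.H68.NPH Pool.Agent.H1.NP

/-- split graphs -/
def IsSplit {V : Type} (G : SimpleGraph V) : Prop := ∃ s : Set V, G.IsClique s ∧ G.IsIndepSet sᶜ

theorem split_of_iso {K I V : Type} (F : K → Set I) {G : SimpleGraph V} (e : (K ⊕ I) ≃ V)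
    (h : ∀ a b, (splitG F).Adj a b ↔ G.Adj (e a) (e b)) : IsSplit G := by
  refine ⟨e '' (range Sum.inl), ?_, ?_⟩
  · rintro _ ⟨_, ⟨a, rfl⟩, rfl⟩ _ ⟨_, ⟨b, rfl⟩, rfl⟩ hab
    rw [← h]
    unfold splitG
    rw [SimpleGraph.fromRel_adj]
    exact ⟨fun h1 => hab (congrArg e h1), Or.inl trivial⟩
  · intro a ha b hb hab
    obtain ⟨a, rfl⟩ := e.surjective a
    obtain ⟨b, rfl⟩ := e.surjective b
    rw [← h]
    unfold splitG
    rw [SimpleGraph.fromRel_adj]
    rintro ⟨_, h1⟩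
    rcases a with a | a
    · exact ha ⟨_, ⟨a, rfl⟩, rfl⟩
    · rcases b with b | b
      · exact hb ⟨_, ⟨b, rfl⟩, rfl⟩
      · rcases h1 with h1 | h1 <;> exact h1

/-- points as a sum type -/
def ptEquiv (n m : ℕ) : Pt n m ≃ ((Fin n ⊕ Fin n) ⊕ (Fin n ⊕ Fin m)) ⊕ (Fin (2 * n) × Fin m) where
  toFun
    | .t v => .inl (.inl (.inl v))
    | .f v => .inl (.inl (.inr v))
    | .g v => .inl (.inr (.inl v))
    | .q j => .inl (.inr (.inr j))
    | .tok a j => .inr (a, j)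
  invFun
    | .inl (.inl (.inl v)) => .t v
    | .inl (.inl (.inr v)) => .f v
    | .inl (.inr (.inl v)) => .g v
    | .inl (.inr (.inr j)) => .q j
    | .inr (a, j) => .tok a j
  left_inv := by rintro (v | v | v | j | ⟨a, j⟩) <;> rfl
  right_inv := by rintro ((((v | v) | (v | j)) | ⟨a, j⟩)) <;> rfl

theorem card_pt (n m : ℕ) : Fintype.card (Pt n m) = 3 * n + m + 2 * n * m := by
  rw [Fintype.card_congr (ptEquiv n m)]
  simp only [Fintype.card_sum, Fintype.card_fin, Fintype.card_prod]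
  ring

/-- the number of moves -/
def kE : Ex := .add (.mul (.con 2) (.add (.add (.mul (.con 3) (.inp (.con 0))) (.inp (.con 1)))
  (.mul (.mul (.con 2) (.inp (.con 0))) (.inp (.con 1))))) (.con 1)

theorem kE_val (l : List ℕ) : kE.val l [] = 2 * (3 * qn l + qm l + 2 * qn l * qm l) + 1 := rfl

/-- code of an instance -/
def encI (i : (ℕ × List (ℕ × ℕ)) × ℕ) : List Bool :=
  unary (i.2 :: i.1.1 :: i.1.2.flatMap (fun e => [e.1, e.2]))

theorem encI_inj : Function.Injective encI := by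
  rintro ⟨⟨n, E⟩, k⟩ ⟨⟨n', E'⟩, k'⟩ h
  have h1 := Pool.Agent.H1.PNP.unary_inj h
  simp only [List.cons.injEq] at h1
  obtain ⟨rfl, rfl, h2⟩ := h1
  have : ∀ (E E' : List (ℕ × ℕ)), E.flatMap (fun e => [e.1, e.2]) =
      E'.flatMap (fun e => [e.1, e.2]) → E = E' := by
    intro E
    induction E with
    | nil =>
      intro E' h
      cases E' with
      | nil => rfl
      | cons e E' => simp at h
    | cons e E ih =>
      intro E' h
      cases E' with
      | nil => simp at h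
      | cons e' E' =>
        simp only [List.flatMap_cons, List.cons_append, List.nil_append, List.cons.injEq] at h
        obtain ⟨h1, h2, h3⟩ := h
        rw [ih E' h3, Prod.ext h1 h2]
  rw [this E E' h2]

theorem polyOn_inst (N k : Ex) (g : Rg) :
    PolyOn unary encI (fun l => ((N.val l [], g.out l []), k.val l [])) :=
  (polyOn_lg (.seq (.el k) (.seq (.el N) g.toLg))).congr (fun l => l) (fun _ => rfl) (fun l => by
    simp only [Lg.out, Rg.toLg_out, encI]
    rfl)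

theorem graph_main (hB0 : TB0) (hB1 : TB1) (hC0 : TC0) (hC1 : TC1) {N : Ex} {g : Rg}
    (hE : ∀ l : List ℕ, QOk l →
      ∃ (K : Type) (_ : Fintype K) (F : K → Set (((Pt (qn l) (qm l)) × Fin (qm l + 3 + 1)) ×
          Fin 3 ⊕ Fin (3 * (qm l + 3 + 1) - 1))),
        Good (Pad (qm l + 3) (Pt.Ans (qU l) (qc l))) (qm l + 3 + 1) F ∧
        ∃ e : (K ⊕ (((Pt (qn l) (qm l)) × Fin (qm l + 3 + 1)) × Fin 3 ⊕
          Fin (3 * (qm l + 3 + 1) - 1))) ≃ Fin (N.val l []),
          ∀ a b, (splitG F).Adj a b ↔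
            (graphOf (N.val l [], g.out l [])).Adj (e a) (e b)) (l : List ℕ) (hl : QOk l) :
    IsSplit (graphOf (N.val l [], g.out l [])) ∧
    (gameDom (graphOf (N.val l [], g.out l [])) ≤ kE.val l [] ↔
      QTrue (qn l) (qm l) (qU l) (qc l)) := by
  obtain ⟨K, _, F, hF, e, he⟩ := hE l hl
  refine ⟨split_of_iso F e he, ?_⟩
  have hcard : Fintype.card ((Pt (qn l) (qm l)) × Fin (qm l + 3 + 1)) =
      (qm l + 3 + 1) * (3 * qn l + qm l + 2 * qn l * qm l) := by
    rw [Fintype.card_prod, card_pt, Fintype.card_fin, Nat.mul_comm]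
  have h1 := tg2 (splitG F) (graphOf (N.val l [], g.out l [])) e he
    (2 * (3 * qn l + qm l + 2 * qn l * qm l) + 1) true ∅
  rw [image_empty] at h1
  rw [kE_val, tg1 _ _]
  erw [← h1]
  constructor
  · intro h
    have h2 := ta_win_uw _ (qm l + 3 + 1) (3 * qn l + qm l + 2 * qn l * qm l) (by omega) hcard
      (fun p Y => hB0 _ _ _ _) F hF h
    exact tc2 _ _ _ _ (tb2 _ _ h2)
  · intro h
    have h2 := hC1 _ _ _ _ hl h
    exact ta1 _ (qm l + 3 + 1) (3 * qn l + qm l + 2 * qn l * qm l) (by omega) hcard F hF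
      (hB1 _ _ (by omega) (fun p X => hC0 _ _ _ _) h2)

/-- the reduction -/
theorem reduction (hB0 : TB0) (hB1 : TB1) (hC0 : TC0) (hC1 : TC1) (hE : TE)
    {L : N68a2faeb.DecisionProblem} (hL : L ∈ PSPACE) :
    ∃ f : List Bool → (ℕ × List (ℕ × ℕ)) × ℕ, PolyOn (fun w => w) encI f ∧
      ∀ x, IsSplit (graphOf (f x).1) ∧ (L x = true ↔ gameDom (graphOf (f x).1) ≤ (f x).2) := by
  obtain ⟨F, hF, hok, hQ⟩ := pspace_qbf hL
  obtain ⟨N, g, hE⟩ := hE
  refine ⟨fun x => ((N.val (F x) [], g.out (F x) []), kE.val (F x) []),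
    hF.comp (polyOn_inst N kE g), fun x => ?_⟩
  obtain ⟨h1, h2⟩ := graph_main hB0 hB1 hC0 hC1 hE (F x) (hok x)
  exact ⟨h1, (hQ x).trans h2.symm⟩

/-- hardness of every problem which agrees with the question on codes of split graphs -/
theorem hard (hB0 : TB0) (hB1 : TB1) (hC0 : TC0) (hC1 : TC1) (hE : TE)
    {Q : N68a2faeb.DecisionProblem} (hQ : ∀ g k, IsSplit (graphOf g) →
      (Q (encI (g, k)) = true ↔ gameDom (graphOf g) ≤ k)) :
    ∀ L ∈ PSPACE, N793a5b8e.ManyOneReducible L Q := by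
  intro L hL
  obtain ⟨f, hf, h⟩ := reduction hB0 hB1 hC0 hC1 hE hL
  refine ⟨fun x => encI (f x), Pool.Agent.H1.PNP.isPolyTime_of (hf.congr (fun x => x)
    (fun _ => rfl) (fun _ => rfl)), fun x => ?_⟩
  rw [Bool.eq_iff_iff, (h x).2]
  exact (hQ (f x).1 (f x).2 (h x).1).symm

end Pool.Agent.H1.Dom
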