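import Pool.Agent.H1.Dom.QGen
import Pool.Agent.H68.NPH.Base

/-!
Every language decided in polynomial space reduces to the truth of quantified formulas.
-/

namespace Pool.Agent.H1.Dom

open Function Turing Polynomial Pool.Agent.H1.NP

/-- A stack machine (`FinTM2` of Mathlib) which decides `L` on every input and whose stacks have
length at most `space (|x|)` in all configurations reached on the input `x`. -/
structure PolySpaceDecider (L : N68a2faeb.DecisionProblem) where
  tm : FinTM2
  inputAlphabet : tm.Γ tm.k₀ ≃ Bool
  outputAlphabet : tm.Γ tm.k₁ ≃ Bool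
  space : ℕ[X]
  outputsFun : ∀ x : List Bool, TM2Outputs tm (x.map inputAlphabet.invFun)
    (some [outputAlphabet.invFun (L x)])
  space_le : ∀ (x : List Bool) (n : ℕ) (c : tm.Cfg),
    (flip bind tm.step)^[n] (some (initList tm (x.map inputAlphabet.invFun))) = some c →
      ∀ k, (c.stk k).length ≤ space.eval x.length

/-- the class PSPACE -/
def PSPACE : N68a2faeb.DecisionComplexityClass := {L | Nonempty (PolySpaceDecider L)}

section small

variable {K : Type} [DecidableEq K] {Γ : K → Type} {Λ σ : Type} (M : Λ → TM2.Stmt Γ Λ σ)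

/-- the configuration at the end of the current statement -/
def compl : SC Γ Λ σ → TM2.Cfg Γ Λ σ
  | ((none, v), S) => ⟨none, v, S⟩
  | ((some q, v), S) => TM2.stepAux q v S

/-- the current statement is short -/
def shrt (D : ℕ) (c : SC Γ Λ σ) : Prop := ∀ q, c.1.1 = some q → dep q ≤ D

theorem compl_step {D : ℕ} (hD : ∀ q, dep (M q) ≤ D) {c₀ : TM2.Cfg Γ Λ σ} (c : SC Γ Λ σ)
    (hs : shrt D c) {n : ℕ}
    (h : (flip bind (TM2.step M))^[n] (some c₀) = some (compl c)) :
    shrt D (sstep M c) ∧
      ∃ n', (flip bind (TM2.step M))^[n'] (some c₀) = some (compl (sstep M c)) := by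
  obtain ⟨⟨q, v⟩, S⟩ := c
  cases q with
  | none => exact ⟨hs, n, h⟩
  | some q =>
    have hq := hs q rfl
    cases q with
    | push k f q =>
      refine ⟨?_, n, h⟩
      rintro q' hq'
      obtain rfl : q = q' := by simpa [sstep] using hq'
      simp only [dep] at hq
      omega
    | peek k f q =>
      refine ⟨?_, n, h⟩
      rintro q' hq'
      obtain rfl : q = q' := by simpa [sstep] using hq'
      simp only [dep] at hq
      omega
    | pop k f q =>
      refine ⟨?_, n, h⟩
      rintro q' hq'
      obtain rfl : q = q' := by simpa [sstep] using hq'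
      simp only [dep] at hq
      omega
    | load a q =>
      refine ⟨?_, n, h⟩
      rintro q' hq'
      obtain rfl : q = q' := by simpa [sstep] using hq'
      simp only [dep] at hq
      omega
    | branch p q₁ q₂ =>
      refine ⟨?_, n, ?_⟩
      · rintro q' hq'
        simp only [dep] at hq
        cases hp : p v with
        | true =>
          obtain rfl : q₁ = q' := by simpa [sstep, hp] using hq'
          omega
        | false =>
          obtain rfl : q₂ = q' := by simpa [sstep, hp] using hq'
          omega
      · rw [h]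
        cases hp : p v <;> simp [compl, sstep, TM2.stepAux, hp]
    | goto f =>
      refine ⟨?_, n + 1, ?_⟩
      · rintro q' hq'
        obtain rfl : M (f v) = q' := by simpa [sstep] using hq'
        exact hD _
      · rw [Function.iterate_succ_apply', h]
        rfl
    | halt =>
      refine ⟨?_, n, h⟩
      rintro q' hq'
      simp [sstep] at hq'

theorem length_step (q : TM2.Stmt Γ Λ σ) : ∀ (v : σ) (S : ∀ k, List (Γ k)) (k : K),
    (S k).length ≤ ((TM2.stepAux q v S).stk k).length + dep q := by
  induction q with
  | push k' f q ih =>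
    intro v S k
    have := ih v (update S k' (f v :: S k')) k
    simp only [TM2.stepAux, dep]
    by_cases hk : k = k'
    · subst hk
      rw [update_self, List.length_cons] at this
      omega
    · rw [update_of_ne hk] at this
      omega
  | peek k' f q ih =>
    intro v S k
    have := ih (f v (S k').head?) S k
    simp only [TM2.stepAux, dep]
    omega
  | pop k' f q ih =>
    intro v S k
    have := ih (f v (S k').head?) (update S k' (S k').tail) k
    simp only [TM2.stepAux, dep]
    by_cases hk : k = k'
    · subst hk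
      rw [update_self, List.length_tail] at this
      omega
    · rw [update_of_ne hk] at this
      omega
  | load a q ih =>
    intro v S k
    have := ih (a v) S k
    simp only [TM2.stepAux, dep]
    omega
  | branch p q₁ q₂ ih₁ ih₂ =>
    intro v S k
    simp only [TM2.stepAux, dep]
    cases hp : p v with
    | true =>
      have := ih₁ v S k
      simp only [cond_true]
      omega
    | false =>
      have := ih₂ v S k
      simp only [cond_false]
      omega
  | goto f =>
    intro v S k
    simp only [TM2.stepAux, dep]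
    omega
  | halt =>
    intro v S k
    simp only [TM2.stepAux, dep]
    omega

/-- stacks stay short between the configurations -/
theorem small_space {D B : ℕ} (hD : ∀ q, dep (M q) ≤ D) {c₀ : TM2.Cfg Γ Λ σ}
    (hB : ∀ n c, (flip bind (TM2.step M))^[n] (some c₀) = some c → ∀ k, (c.stk k).length ≤ B)
    (t : ℕ) (k : K) : (((sstep M)^[t] (emb M c₀)).2 k).length ≤ B + D := by
  have key : shrt D ((sstep M)^[t] (emb M c₀)) ∧ ∃ n,
      (flip bind (TM2.step M))^[n] (some c₀) = some (compl ((sstep M)^[t] (emb M c₀))) := by
    induction t with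
    | zero =>
      obtain ⟨l, v, S⟩ := c₀
      cases l with
      | none =>
        refine ⟨?_, 0, rfl⟩
        intro q hq
        simp [emb] at hq
      | some l =>
        refine ⟨?_, 1, rfl⟩
        intro q hq
        obtain rfl : M l = q := by simpa [emb] using hq
        exact hD _
    | succ t ih =>
      obtain ⟨h1, n, h2⟩ := ih
      rw [Function.iterate_succ_apply']
      exact compl_step M hD _ h1 h2
  obtain ⟨h1, n, h2⟩ := key
  have h3 := hB n _ h2 k
  revert h1 h3
  generalize (sstep M)^[t] (emb M c₀) = c
  intro h1 h3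
  obtain ⟨⟨q, v⟩, S⟩ := c
  cases q with
  | none =>
    simp only [compl] at h3
    simp only
    omega
  | some q =>
    have h4 := length_step q v S k
    have h5 := h1 q rfl
    simp only [compl] at h3
    simp only
    omega

end small

theorem nx_congr (Z : CA) (h : ℕ) {ρ ρ' : ℕ → ℕ} (hρ : ∀ i < h + 2, ρ i = ρ' i) :
    ∀ i < h + 2, Z.nx h ρ i = Z.nx h ρ' i := by
  intro i hi
  cases i with
  | zero =>
    simp only [CA.nx]
    rw [hρ 0 (by omega), hρ 1 (by omega)]
  | succ i =>
    simp only [CA.nx]
    by_cases h1 : i < h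
    · rw [if_pos h1, if_pos h1, hρ 0 (by omega), hρ i (by omega), hρ (i + 1) (by omega),
        hρ (i + 2) (by omega)]
    · rw [if_neg h1, if_neg h1, hρ 0 (by omega), hρ i (by omega), hρ (i + 1) (by omega)]

/-- every language in PSPACE reduces to the truth of quantified formulas -/
theorem pspace_qbf {L : N68a2faeb.DecisionProblem} (hL : L ∈ PSPACE) :
    ∃ F : List Bool → List ℕ, PolyOn (fun w => w) Pool.Agent.H68.OQP.unary F ∧
      (∀ x, QOk (F x)) ∧
      ∀ x, L x = true ↔ QTrue (qn (F x)) (qm (F x)) (qU (F x)) (qc (F x)) := by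
  classical
  obtain ⟨h⟩ := hL
  set tm := h.tm with htm
  have : Fintype tm.Λ := tm.ΛFin
  have : Fintype tm.σ := tm.σFin
  have : Fintype (tm.Γ tm.k₀) := tm.Γk₀Fin
  have : Fintype tm.K := tm.kFin
  have : Nonempty (RC tm.Γ tm.Λ tm.σ) := ⟨cell0 tm none⟩
  obtain ⟨s, e, d, hed, hde⟩ := exists_numbering (cells_finite tm.m tm.k₀)
  let cellOf : Option Bool → RC tm.Γ tm.Λ tm.σ :=
    fun o => cell0 tm (o.map h.inputAlphabet.invFun)
  let Z : CA :=
    { s := s
      F0 := fun a b => e (rF tm.m (d a) none (d a) (d b))
      F1 := fun a b c f => e (rF tm.m (d a) (some (d b)) (d c) (d f))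
      sy := fun o => e (cellOf o)
      acc := fun a => decide ((d a).2 tm.k₁ = some (h.outputAlphabet.invFun true))
      hF0 := fun a b ha hb => (hed _ (rF_mem _ (hde a ha).1 (by intro b hb; cases hb)
        (hde a ha).1 (hde b hb).1)).1
      hF1 := fun a b c f ha hb hc hf => (hed _ (rF_mem _ (hde a ha).1 (by
        intro b' hb'
        obtain rfl : d b = b' := by simpa using hb'
        exact (hde b hb).1) (hde c hc).1 (hde f hf).1)).1
      hsy := fun o => (hed _ (cell0_mem tm _)).1 }
  let c0 : List Bool → SC tm.Γ tm.Λ tm.σ := fun x =>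
    emb tm.m (initList tm (x.map h.inputAlphabet.invFun))
  have hc0 : ∀ x i, row (c0 x) i = cellOf (x[i]?) := by
    intro x i
    simp only [c0, cellOf]
    rw [row_init, List.getElem?_map]
  have hmem : ∀ x t i, row ((sstep tm.m)^[t] (c0 x)) i ∈ cells tm.m tm.k₀ := by
    intro x t
    induction t with
    | zero =>
      intro i
      rw [Function.iterate_zero, id, hc0]
      exact cell0_mem tm _
    | succ t ih =>
      intro i
      rw [Function.iterate_succ_apply']
      cases i with
      | zero =>
        rw [row_zero]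
        exact rF_mem _ (ih 0) (by intro b hb; cases hb) (ih 0) (ih 1)
      | succ i =>
        rw [row_succ]
        exact rF_mem _ (ih 0) (by
          intro b hb
          obtain rfl : row ((sstep tm.m)^[t] (c0 x)) i = b := by simpa using hb
          exact ih i) (ih (i + 1)) (ih (i + 2))
  -- bounds
  set D : ℕ := Finset.univ.sup (fun q : tm.Λ => dep (tm.m q)) with hD
  have hDb : ∀ q, dep (tm.m q) ≤ D := fun q =>
    Finset.le_sup (f := fun q : tm.Λ => dep (tm.m q)) (Finset.mem_univ q)
  let T : List Bool → ℕ := fun x => h.space.eval x.length + D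
  let M : List Bool → ℕ := fun x => s * (x.length + (h.space.eval x.length + D) + 2)
  obtain ⟨xT, hxT⟩ := exPoly (h.space + C D)
  obtain ⟨xM, hxM⟩ := exPoly (C s * (.X + (h.space + C D) + 2))
  have hT : ∀ x env, xT.val (bits x) env = T x := by
    intro x env
    rw [hxT]
    simp only [eval_add, eval_C]
    rfl
  have hM : ∀ x env, xM.val (bits x) env = M x := by
    intro x env
    rw [hxM]
    simp only [eval_add, eval_mul, eval_C, eval_X, eval_ofNat]
    rfl
  have hlen : ∀ x t k, (((sstep tm.m)^[t] (c0 x)).2 k).length ≤ T x := fun x t k =>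
    small_space tm.m hDb (fun n c hc => h.space_le x n c hc) t k
  have htop : ∀ x t i, T x ≤ i → row ((sstep tm.m)^[t] (c0 x)) i =
      (((sstep tm.m)^[t] (c0 x)).1, fun _ => none) := by
    intro x t i hi
    refine Prod.ext rfl (funext fun k => ?_)
    exact List.getElem?_eq_none ((hlen x t k).trans hi)
  have hR : ∀ x t, ∀ i < hh x (T x) + 2, ((Z.nx (hh x (T x)))^[t] (Z.r0 x)) i =
      e (row ((sstep tm.m)^[t] (c0 x)) i) := by
    intro x t
    induction t with
    | zero =>
      intro i _
      rw [Function.iterate_zero, id, Function.iterate_zero, id, hc0]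
      rfl
    | succ t ih =>
      intro i hi
      rw [Function.iterate_succ_apply', Function.iterate_succ_apply']
      have hd := fun i => (hed _ (hmem x t i)).2
      have hhT : hh x (T x) = x.length + T x := rfl
      cases i with
      | zero =>
        rw [row_zero]
        change e (rF tm.m (d ((Z.nx (hh x (T x)))^[t] (Z.r0 x) 0)) none
          (d ((Z.nx (hh x (T x)))^[t] (Z.r0 x) 0)) (d ((Z.nx (hh x (T x)))^[t] (Z.r0 x) 1))) = _
        rw [ih 0 (by omega), ih 1 (by omega), hd, hd]
      | succ i =>
        rw [row_succ]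
        simp only [CA.nx]
        by_cases h1 : i < hh x (T x)
        · rw [if_pos h1]
          change e (rF tm.m (d ((Z.nx (hh x (T x)))^[t] (Z.r0 x) 0))
            (some (d ((Z.nx (hh x (T x)))^[t] (Z.r0 x) i)))
            (d ((Z.nx (hh x (T x)))^[t] (Z.r0 x) (i + 1)))
            (d ((Z.nx (hh x (T x)))^[t] (Z.r0 x) (i + 2)))) = _
          rw [ih 0 (by omega), ih i (by omega), ih (i + 1) (by omega), ih (i + 2) (by omega),
            hd, hd, hd, hd]
        · rw [if_neg h1]
          change e (rF tm.m (d ((Z.nx (hh x (T x)))^[t] (Z.r0 x) 0))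
            (some (d ((Z.nx (hh x (T x)))^[t] (Z.r0 x) i)))
            (d ((Z.nx (hh x (T x)))^[t] (Z.r0 x) (i + 1)))
            (d ((Z.nx (hh x (T x)))^[t] (Z.r0 x) (i + 1)))) = _
          rw [ih 0 (by omega), ih i (by omega), ih (i + 1) (by omega), hd, hd, hd,
            htop x t (i + 1) (by omega), htop x t (i + 2) (by omega)]
  have hrow : ∀ x t, ∀ i < hh x (T x) + 2, ((Z.nx (hh x (T x)))^[t] (Z.r0 x)) i < s := by
    intro x t i hi
    rw [hR x t i hi]
    exact (hed _ (hmem x t i)).1
  obtain ⟨gen, hgen⟩ : ∃ gen, gen = qG Z xT xM := ⟨_, rfl⟩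
  have hout : ∀ x, gen.out (bits x) [] = qfrm Z x (T x) (M x) := fun x => by
    rw [hgen]
    exact qG_out Z x (T x) (M x) xT xM (hT x) (hM x)
  refine ⟨fun x => gen.out (bits x) [], polyOn_raw.comp (polyOn_lg gen), ?_, ?_⟩
  · intro x
    simp only
    rw [hout x]
    exact qfrm_ok _ _ _ _
  · intro x
    simp only
    rw [hout x, qfrm_true]
    -- the machine halts
    have hrun := h.outputsFun x
    have h1 : (flip bind (TM2.step tm.m))^[hrun.steps]
        (some (initList tm (x.map h.inputAlphabet.invFun))) =
        some (haltList tm [h.outputAlphabet.invFun (L x)]) := hrun.evals_in_steps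
    obtain ⟨N, -, hN⟩ := sstep_run tm.m hDb _ _ _ h1
    have hN' : (sstep tm.m)^[N] (c0 x) =
      emb tm.m (haltList tm [h.outputAlphabet.invFun (L x)]) := hN
    have hstay : ∀ t, N ≤ t → (sstep tm.m)^[t] (c0 x) =
        emb tm.m (haltList tm [h.outputAlphabet.invFun (L x)]) := by
      intro t ht
      obtain ⟨r, rfl⟩ : ∃ r, t = r + N := ⟨t - N, by omega⟩
      rw [Function.iterate_add_apply, hN']
      exact sstep_halt tm.m rfl r
    -- the halting time
    have hex : ∃ t, ((sstep tm.m)^[t] (c0 x)).1.1 = none := ⟨N, by rw [hN']; rfl⟩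
    set t₀ := Nat.find hex with ht₀
    have ht₀s : ((sstep tm.m)^[t₀] (c0 x)).1.1 = none := Nat.find_spec hex
    have ht₀m : ∀ t < t₀, ((sstep tm.m)^[t] (c0 x)).1.1 ≠ none := fun t ht =>
      Nat.find_min hex ht
    have hfix : ∀ t, t₀ ≤ t → (sstep tm.m)^[t] (c0 x) = (sstep tm.m)^[t₀] (c0 x) := by
      intro t ht
      obtain ⟨r, rfl⟩ : ∃ r, t = r + t₀ := ⟨t - t₀, by omega⟩
      rw [Function.iterate_add_apply]
      revert ht₀s
      generalize (sstep tm.m)^[t₀] (c0 x) = c
      intro hc
      obtain ⟨⟨q, v⟩, S⟩ := c
      simp only at hc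
      subst hc
      induction r with
      | zero => rfl
      | succ r ih => rw [Function.iterate_succ_apply', ih (by omega)]; rfl
    have hhH : hh x (T x) + 2 = x.length + (h.space.eval x.length + D) + 2 := rfl
    have hbound : t₀ < 2 ^ (M x) := by
      let g : Fin (t₀ + 1) → (Fin (hh x (T x) + 2) → Fin s) := fun t i =>
        ⟨((Z.nx (hh x (T x)))^[(t : ℕ)] (Z.r0 x)) i, hrow x t i i.2⟩
      have hg : Function.Injective g := by
        have aux : ∀ t t' : ℕ, t < t' → t' ≤ t₀ →
            (∀ i < hh x (T x) + 2, ((Z.nx (hh x (T x)))^[t] (Z.r0 x)) i =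
              ((Z.nx (hh x (T x)))^[t'] (Z.r0 x)) i) → False := by
          intro t t' htt ht' heq
          have h2 : ∀ r, ∀ i < hh x (T x) + 2, ((Z.nx (hh x (T x)))^[r + t] (Z.r0 x)) i =
              ((Z.nx (hh x (T x)))^[r + t'] (Z.r0 x)) i := by
            intro r
            induction r with
            | zero => simpa using heq
            | succ r ih =>
              intro i hi
              rw [show r + 1 + t = (r + t) + 1 by ring, show r + 1 + t' = (r + t') + 1 by ring,
                Function.iterate_succ_apply', Function.iterate_succ_apply']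
              exact nx_congr Z _ ih i hi
          have h3 := h2 (t₀ - t') 0 (by omega)
          rw [show t₀ - t' + t' = t₀ by omega, hR _ _ _ (by omega), hR _ _ _ (by omega)] at h3
          have h4 := congrArg d h3
          rw [(hed _ (hmem x _ 0)).2, (hed _ (hmem x _ 0)).2] at h4
          have h5 := congrArg (fun c : RC tm.Γ tm.Λ tm.σ => c.1.1) h4
          simp only [row] at h5
          rw [ht₀s] at h5
          exact ht₀m _ (by omega) h5
        intro t t' hgt
        have heq : ∀ i < hh x (T x) + 2, ((Z.nx (hh x (T x)))^[(t : ℕ)] (Z.r0 x)) i =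
            ((Z.nx (hh x (T x)))^[(t' : ℕ)] (Z.r0 x)) i := by
          intro i hi
          have := congrFun hgt ⟨i, hi⟩
          exact congrArg Fin.val this
        rcases Nat.lt_trichotomy (t : ℕ) (t' : ℕ) with h2 | h2 | h2
        · exact absurd (aux _ _ h2 (by omega) heq) id
        · exact Fin.ext h2
        · exact absurd (aux _ _ h2 (by omega) (fun i hi => (heq i hi).symm)) id
      have hcard := Fintype.card_le_of_injective g hg
      rw [Fintype.card_fin, Fintype.card_fun, Fintype.card_fin, Fintype.card_fin] at hcard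
      have h2 : s ^ (hh x (T x) + 2) ≤ 2 ^ (M x) := by
        calc s ^ (hh x (T x) + 2) ≤ (2 ^ s) ^ (hh x (T x) + 2) :=
              Nat.pow_le_pow_left (Nat.lt_two_pow_self).le _
          _ = 2 ^ (s * (hh x (T x) + 2)) := by rw [← pow_mul]
          _ = 2 ^ (M x) := rfl
      omega
    have hfin : (sstep tm.m)^[2 ^ (M x)] (c0 x) =
        emb tm.m (haltList tm [h.outputAlphabet.invFun (L x)]) := by
      rw [hfix _ hbound.le]
      rcases Nat.le_total t₀ N with h2 | h2
      · rw [← hfix N h2]
        exact hN'
      · exact hstay _ h2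
    rw [hR x _ 0 (by omega), hfin]
    change (L x = true) ↔ decide ((d (e (row (emb tm.m (haltList tm
      [h.outputAlphabet.invFun (L x)])) 0))).2 tm.k₁ =
        some (h.outputAlphabet.invFun true)) = true
    have h9 := (hed _ (hmem x (2 ^ (M x)) 0)).2
    rw [hfin] at h9
    rw [h9, decide_eq_true_iff]
    have h10 : (row (emb tm.m (haltList tm [h.outputAlphabet.invFun (L x)])) 0).2
        tm.k₁ = some (h.outputAlphabet.invFun (L x)) := by
      simp only [row, emb]
      rw [haltList_k₁]
      rfl
    rw [h10]
    constructor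
    · intro hv
      rw [hv]
    · intro hv
      injection hv with hv
      exact h.outputAlphabet.symm.injective hv

end Pool.Agent.H1.Dom
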