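import Pool.Agent.H1.Dom.PSpace
import Pool.Agent.H1.NP.PNP

/-!
P is contained in PSPACE.
-/

namespace Pool.Agent.H1.Dom

open Function Turing Polynomial Pool.Agent.H1.NP Pool.Agent.H1.PNP

section small

variable {K : Type} [DecidableEq K] {Γ : K → Type} {Λ σ : Type} (M : Λ → TM2.Stmt Γ Λ σ)

theorem length_step' (q : TM2.Stmt Γ Λ σ) : ∀ (v : σ) (S : ∀ k, List (Γ k)) (k : K),
    ((TM2.stepAux q v S).stk k).length ≤ (S k).length + dep q := by
  induction q with
  | push k' f q ih =>
    intro v S k
    have := ih v (update S k' (f v :: S k')) k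
    simp only [TM2.stepAux, dep]
    by_cases hk : k = k'
    · subst hk
      rw [update_self, List.length_cons] at this
      omega
    · rw [update_of_ne hk] at this
      omega
  | peek k' f q ih =>
    intro v S k
    have := ih (f v (S k').head?) S k
    simp only [TM2.stepAux, dep]
    omega
  | pop k' f q ih =>
    intro v S k
    have := ih (f v (S k').head?) (update S k' (S k').tail) k
    simp only [TM2.stepAux, dep]
    by_cases hk : k = k'
    · subst hk
      rw [update_self, List.length_tail] at this
      omega
    · rw [update_of_ne hk] at this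
      omega
  | load a q ih =>
    intro v S k
    have := ih (a v) S k
    simp only [TM2.stepAux, dep]
    omega
  | branch p q₁ q₂ ih₁ ih₂ =>
    intro v S k
    simp only [TM2.stepAux, dep]
    cases hp : p v with
    | true =>
      have := ih₁ v S k
      simp only [cond_true]
      omega
    | false =>
      have := ih₂ v S k
      simp only [cond_false]
      omega
  | goto f =>
    intro v S k
    simp only [TM2.stepAux, dep]
    omega
  | halt =>
    intro v S k
    simp only [TM2.stepAux, dep]
    omega

theorem length_run {D : ℕ} (hD : ∀ q, dep (M q) ≤ D) (k : K) : ∀ (n : ℕ)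
    (c c' : TM2.Cfg Γ Λ σ), (flip bind (TM2.step M))^[n] (some c) = some c' →
      (c'.stk k).length ≤ (c.stk k).length + n * D := by
  intro n
  induction n with
  | zero =>
    intro c c' h
    have : c = c' := by simpa using h
    subst this
    omega
  | succ n ih =>
    intro c c' h
    rw [Function.iterate_succ_apply] at h
    obtain ⟨l, v, S⟩ := c
    cases l with
    | none =>
      have h' : (flip bind (TM2.step M))^[n] none = some c' := h
      rw [iterate_none] at h'
      cases h'
    | some q =>
      have h' : (flip bind (TM2.step M))^[n] (some (TM2.stepAux (M q) v S)) = some c' := h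
      have h1 := ih _ _ h'
      have h2 := length_step' (M q) v S k
      have h3 := hD q
      rw [Nat.succ_mul]
      simp only
      omega

end small

theorem decider_of_poly {L : N68a2faeb.DecisionProblem}
    (h : TM2ComputableInPolyTime (fun w : List Bool => w) (fun b : Bool => [b]) L) :
    L ∈ PSPACE := by
  haveI : Fintype h.tm.Λ := h.tm.ΛFin
  set D : ℕ := Finset.univ.sup (fun q : h.tm.Λ => dep (h.tm.m q)) with hD
  have hDb : ∀ q, dep (h.tm.m q) ≤ D := fun q =>
    Finset.le_sup (f := fun q : h.tm.Λ => dep (h.tm.m q)) (Finset.mem_univ q)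
  refine ⟨⟨h.tm, h.inputAlphabet, h.outputAlphabet, .X + h.time * C D,
    fun x => (h.outputsFun x).toEvalsTo, fun x n c hc k => ?_⟩⟩
  have hrun := h.outputsFun x
  have h1 : (flip bind (TM2.step h.tm.m))^[hrun.steps]
      (some (initList h.tm (x.map h.inputAlphabet.invFun))) =
      some (haltList h.tm [h.outputAlphabet.invFun (L x)]) := hrun.evals_in_steps
  have h2 : hrun.steps ≤ h.time.eval x.length := hrun.steps_le_m
  have hn : n ≤ hrun.steps := by
    by_contra hcon
    obtain ⟨r, rfl⟩ : ∃ r, n = r + 1 + hrun.steps := ⟨n - 1 - hrun.steps, by omega⟩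
    have h3 : (flip bind (TM2.step h.tm.m))^[r + 1 + hrun.steps]
      (some (initList h.tm (x.map h.inputAlphabet.invFun))) = some c := hc
    rw [Function.iterate_add_apply, h1, Function.iterate_succ_apply] at h3
    have h4 : (flip bind (TM2.step h.tm.m))^[r] none = some c := h3
    rw [iterate_none] at h4
    cases h4
  have h3 := length_run h.tm.m hDb k n _ _ hc
  have h4 : ((initList h.tm (x.map h.inputAlphabet.invFun)).stk k).length ≤ x.length := by
    rw [initList_eq]
    simp only
    by_cases hk : k = h.tm.k₀
    · subst hk
      rw [update_self, List.length_map]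
    · rw [update_of_ne hk]
      exact Nat.zero_le _
  have h5 : n * D ≤ h.time.eval x.length * D := Nat.mul_le_mul_right _ (hn.trans h2)
  simp only [eval_add, eval_mul, eval_X, eval_C]
  omega

theorem P_subset_PSPACE : N68a2faeb.P ⊆ PSPACE := by
  intro L hL
  obtain ⟨hL⟩ := hL
  obtain ⟨h⟩ := polyOn_enc.tm
  obtain ⟨h2⟩ := Comp.comp_polyTime h hL
  exact decider_of_poly h2

/-- a PSPACE-hard problem in P gives P = PSPACE -/
theorem P_eq_PSPACE_of_hard {Q : N68a2faeb.DecisionProblem}
    (hQ : ∀ L ∈ PSPACE, N793a5b8e.ManyOneReducible L Q) (hP : Q ∈ N68a2faeb.P) :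
    N68a2faeb.P = PSPACE := by
  refine Set.Subset.antisymm P_subset_PSPACE (fun L hL => ?_)
  obtain ⟨f, hf, h⟩ := hQ L hL
  have : L = fun x => Q (f x) := funext h
  rw [this]
  exact isPolyTime_comp hf hP

end Pool.Agent.H1.Dom
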