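import Pool.Agent.H1.Dom.QTab

/-!
The quantified formula as a list of numbers and its generator.
-/

namespace Pool.Agent.H1.Dom

open Function Pool.Agent.H68.OQP
open Pool.Agent.H1.NP (C5 uni prs qds bits many many_out xl clL clL_out uniL Lg length_prs
  length_qds)

theorem qev_congr {U U' : ℕ → Bool} {Φ Φ' : (ℕ → Bool) → Prop} (hΦ : ∀ τ, Φ τ ↔ Φ' τ)
    (vs : List ℕ) : (∀ v ∈ vs, U v = U' v) → ∀ τ, (qev U Φ vs τ ↔ qev U' Φ' vs τ) := by
  induction vs with
  | nil => intro _ τ; exact hΦ τ
  | cons v vs ih =>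
    intro h τ
    have hih := ih (fun w hw => h w (List.mem_cons_of_mem _ hw))
    simp only [qev]
    rw [h v List.mem_cons_self]
    by_cases h1 : U' v = true
    · rw [if_pos h1, if_pos h1]
      exact forall_congr' fun b => hih _
    · rw [if_neg h1, if_neg h1]
      exact exists_congr fun b => hih _

theorem getD_flatMap_range {B : ℕ} {f : ℕ → List ℕ} (hf : ∀ j, (f j).length = B) :
    ∀ (A j r : ℕ), j < A → r < B → ((List.range A).flatMap f).getD (j * B + r) 0 =
      (f j).getD r 0 := by
  intro A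
  induction A with
  | zero => intro j r hj; omega
  | succ A ih =>
    intro j r hj hr
    have hlen : ((List.range A).flatMap f).length = A * B := by
      clear ih hj
      induction A with
      | zero => simp
      | succ A ih =>
        rw [List.range_succ, List.flatMap_append, List.length_append, ih]
        simp [hf, Nat.succ_mul]
    rw [List.range_succ, List.flatMap_append]
    rcases Nat.lt_or_ge j A with h | h
    · have h2 : j * B + r < A * B := by
        have : (j + 1) * B ≤ A * B := Nat.mul_le_mul_right _ h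
        rw [Nat.succ_mul] at this
        omega
      rw [List.getD_append _ _ _ _ (by rw [hlen]; exact h2)]
      exact ih j r h hr
    · obtain rfl : j = A := by omega
      rw [List.getD_append_right _ _ _ _ (by rw [hlen]; omega), hlen, Nat.add_sub_cancel_left]
      simp

/-- flags -/
def flgs (z : Sz) (M : ℕ) : List ℕ := (List.range (M + 1)).flatMap (fun _ =>
  (List.range z.W).flatMap (fun r => if r ≤ z.h then (if z.h ≤ r then [1] else [0]) else [0]))

theorem flgs_length (z : Sz) (M : ℕ) : (flgs z M).length = (M + 1) * z.W := by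
  unfold flgs
  have h1 : ((List.range z.W).flatMap (fun r =>
      if r ≤ z.h then (if z.h ≤ r then [1] else [0]) else [0])).length = z.W := by
    generalize z.W = N
    induction N with
    | zero => rfl
    | succ N ih =>
      rw [List.range_succ, List.flatMap_append, List.length_append, ih]
      simp only [List.flatMap_cons, List.flatMap_nil, List.append_nil]
      split_ifs <;> rfl
  generalize M + 1 = N
  induction N with
  | zero => simp
  | succ N ih =>
    rw [List.range_succ, List.flatMap_append, List.length_append, ih]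
    simp only [List.flatMap_cons, List.flatMap_nil, List.append_nil, h1]
    ring

theorem flgs_getD (z : Sz) (M : ℕ) {v : ℕ} (hv : v < (M + 1) * z.W) :
    (flgs z M).getD v 0 = if v % z.W = z.h then 1 else 0 := by
  have hW : 0 < z.W := Nat.succ_pos _
  have h2 : ∀ r < z.W, ((List.range z.W).flatMap (fun r =>
      if r ≤ z.h then (if z.h ≤ r then [1] else [0]) else [0])).getD r 0 =
        if r = z.h then 1 else 0 := by
    intro r hr
    have := getD_flatMap_range (B := 1) (f := fun r =>
      if r ≤ z.h then (if z.h ≤ r then [1] else [0]) else [0]) (by intro j; split_ifs <;> rfl)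
      z.W r 0 hr (by omega)
    rw [Nat.mul_one, Nat.add_zero] at this
    rw [this]
    by_cases h : r = z.h
    · subst h
      simp
    · rw [if_neg h]
      by_cases h3 : r ≤ z.h
      · rw [if_pos h3, if_neg (by omega)]
        rfl
      · rw [if_neg h3]
        rfl
  have h1 : ((List.range z.W).flatMap (fun r =>
      if r ≤ z.h then (if z.h ≤ r then [1] else [0]) else [0])).length = z.W := by
    generalize z.W = N
    induction N with
    | zero => rfl
    | succ N ih =>
      rw [List.range_succ, List.flatMap_append, List.length_append, ih]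
      simp only [List.flatMap_cons, List.flatMap_nil, List.append_nil]
      split_ifs <;> rfl
  have h3 := getD_flatMap_range (B := z.W) (f := fun _ => (List.range z.W).flatMap (fun r =>
      if r ≤ z.h then (if z.h ≤ r then [1] else [0]) else [0])) (fun _ => h1) (M + 1) (v / z.W)
      (v % z.W) (by rw [Nat.div_lt_iff_lt_mul hW]; exact hv) (Nat.mod_lt _ hW)
  rw [Nat.div_add_mod'] at h3
  unfold flgs
  rw [h3]
  exact h2 _ (Nat.mod_lt _ hW)

section

variable (Z : CA) (x : List Bool) (T M : ℕ)

/-- the formula as a list of numbers -/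
def qfrm : List ℕ := (M + 1) * (sz Z x T).W :: (qcls Z x T M).length ::
  (flgs (sz Z x T) M ++ (qcls Z x T M).flatMap C5.l)

theorem qfrm_n : qn (qfrm Z x T M) = (M + 1) * (sz Z x T).W := rfl

theorem qfrm_m : qm (qfrm Z x T M) = (qcls Z x T M).length := rfl

theorem qfrm_U {v : ℕ} (hv : v < (M + 1) * (sz Z x T).W) :
    qU (qfrm Z x T M) v = flg (sz Z x T) v := by
  unfold qU qfrm flg
  rw [show 2 + v = v + 1 + 1 by ring, List.getD_cons_succ, List.getD_cons_succ,
    List.getD_append _ _ _ _ (by rw [flgs_length]; exact hv), flgs_getD _ _ hv]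
  by_cases h : v % (sz Z x T).W = (sz Z x T).h
  · rw [if_pos h]
    simp [h]
  · rw [if_neg h]
    simp [h]

theorem qfrm_c {j i : ℕ} (hj : j < (qcls Z x T M).length) (hi : i < 5) :
    qc (qfrm Z x T M) j i = (C5.l (qcls Z x T M)[j]).getD i 0 := by
  unfold qc
  rw [qfrm_n]
  unfold qfrm
  rw [show 2 + (M + 1) * (sz Z x T).W + 5 * j + i =
    ((M + 1) * (sz Z x T).W + (i + 5 * j)) + 1 + 1 by ring, List.getD_cons_succ,
    List.getD_cons_succ, List.getD_append_right _ _ _ _ (by rw [flgs_length]; omega), flgs_length,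
    Nat.add_sub_cancel_left]
  exact Pool.Agent.H1.NP.flat_getD _ j hj i hi

theorem qfrm_mat {τ : ℕ → Bool} : Mat (qm (qfrm Z x T M)) (qc (qfrm Z x T M)) τ ↔
    Phi Z x T M τ := by
  rw [qfrm_m]
  unfold Mat Phi Tc
  constructor
  · intro h c hc
    obtain ⟨j, hj, rfl⟩ := List.getElem_of_mem hc
    obtain ⟨i, hi, h1⟩ := h j hj
    rw [qfrm_c Z x T M hj hi] at h1
    exact ⟨_, Pool.Agent.H1.NP.getD_mem_l _ hi, h1⟩
  · intro h j hj
    obtain ⟨a, ha, h1⟩ := h _ (List.getElem_mem hj)
    obtain ⟨i, hi, h2⟩ := Pool.Agent.H1.NP.mem_l_getD ha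
    exact ⟨i, hi, by rw [qfrm_c Z x T M hj hi, h2]; exact h1⟩

/-- truth of the formula -/
theorem qfrm_true : QTrue (qn (qfrm Z x T M)) (qm (qfrm Z x T M)) (qU (qfrm Z x T M))
    (qc (qfrm Z x T M)) ↔ Z.acc (((Z.nx (hh x T))^[2 ^ M] (Z.r0 x)) 0) = true := by
  rw [← phi_main]
  unfold QTrue
  rw [qfrm_n]
  exact qev_congr (fun τ => qfrm_mat Z x T M) _ (fun v hv => qfrm_U Z x T M
    (List.mem_range.1 hv)) _

theorem eq_lt' {z : Sz} {M j i a : ℕ} (hj : j ≤ M) (hi : i < z.H) (ha : a < z.s) :
    vM z j i a < (M + 1) * z.W ∧ vS z j < (M + 1) * z.W ∧ vA z j i a < (M + 1) * z.W ∧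
      vB z j i a < (M + 1) * z.W := by
  obtain ⟨h1, h2, h3, h4⟩ := eq_lt (j := j) hi ha
  have := mono_W (z := z) (show j + 1 ≤ M + 1 by omega)
  omega

theorem qcls_ok : ∀ c ∈ qcls Z x T M, ∀ a ∈ C5.l c, a < 2 * ((M + 1) * (sz Z x T).W) := by
  have hA : ∀ j i a, j ≤ M → i < hh x T + 2 → a < Z.s → vA (sz Z x T) j i a <
      (M + 1) * (sz Z x T).W := fun j i a hj hi ha =>
    (eq_lt' (z := sz Z x T) hj hi ha).2.2.1
  have hB : ∀ j i a, j ≤ M → i < hh x T + 2 → a < Z.s → vB (sz Z x T) j i a <
      (M + 1) * (sz Z x T).W := fun j i a hj hi ha =>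
    (eq_lt' (z := sz Z x T) hj hi ha).2.2.2
  have hM : ∀ j i a, j ≤ M → i < hh x T + 2 → a < Z.s → vM (sz Z x T) j i a <
      (M + 1) * (sz Z x T).W := fun j i a hj hi ha =>
    (eq_lt' (z := sz Z x T) hj hi ha).1
  have hS : ∀ j, j ≤ M → vS (sz Z x T) j < (M + 1) * (sz Z x T).W := fun j hj =>
    (eq_lt' (z := sz Z x T) hj (Nat.succ_pos _)
      (lt_of_le_of_lt (Nat.zero_le _) (Z.hsy none))).2.1
  have hh' : hh x T = x.length + T := rfl
  unfold qcls
  simp only [List.forall_mem_append, all_flatMap, List.forall_mem_singleton, List.mem_range,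
    mem_dps, List.mem_filter, C5.l, c2, c3, uni, List.forall_mem_cons, lk, pL, nL, prs, qds,
    trs, List.pair_mem_product, Prod.forall]
  refine ⟨?_, ?_, ?_, ?_, ?_, ?_, ?_, ?_, ?_⟩
  · intro i hi
    split_ifs
    · have := hA 0 i (Z.sy (some false)) (Nat.zero_le _) (by omega) (Z.hsy _)
      intro c1 c2 c3 c4 c5 hc
      simp only [List.mem_singleton, Prod.mk.injEq] at hc
      omega
    · have := hA 0 i (Z.sy (some true)) (Nat.zero_le _) (by omega) (Z.hsy _)
      intro c1 c2 c3 c4 c5 hc
      simp only [List.mem_singleton, Prod.mk.injEq] at hc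
      omega
  · intro j hj
    have := hA 0 (x.length + j) (Z.sy none) (Nat.zero_le _) (by omega) (Z.hsy _)
    omega
  · rintro i hi a b ⟨ha, hb, _⟩
    have h1 := hA 0 i a (Nat.zero_le _) (by omega) ha
    have h2 := hA 0 i b (Nat.zero_le _) (by omega) hb
    omega
  · rintro a ⟨ha, _⟩
    have h1 := hB 0 0 a (Nat.zero_le _) (by omega) ha
    omega
  · intro j hj i hi a ha
    have h1 := hA j i a (by omega) (by omega) ha
    have h2 := hA (j + 1) i a (by omega) (by omega) ha
    have h3 := hB j i a (by omega) (by omega) ha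
    have h4 := hB (j + 1) i a (by omega) (by omega) ha
    have h5 := hM (j + 1) i a (by omega) (by omega) ha
    have h6 := hS (j + 1) (by omega)
    omega
  · rintro a b ⟨ha, hb⟩
    have h1 := hA M 0 a le_rfl (by omega) ha
    have h2 := hA M 1 b le_rfl (by omega) hb
    have h3 := hB M 0 _ le_rfl (by omega) (Z.hF0 _ _ ha hb)
    omega
  · rintro i hi a b c d ⟨⟨ha, hb⟩, hc, hd⟩
    have h1 := hA M 0 a le_rfl (by omega) ha
    have h2 := hA M i b le_rfl (by omega) hb
    have h3 := hA M (i + 1) c le_rfl (by omega) hc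
    have h4 := hA M (i + 2) d le_rfl (by omega) hd
    have h5 := hB M (i + 1) _ le_rfl (by omega) (Z.hF1 _ _ _ _ ha hb hc hd)
    omega
  · rintro a b c ⟨⟨ha, hb⟩, hc⟩
    have h1 := hA M 0 a le_rfl (by omega) ha
    have h2 := hA M (hh x T) b le_rfl (by omega) hb
    have h3 := hA M (hh x T + 1) c le_rfl (by omega) hc
    have h5 := hB M (hh x T + 1) _ le_rfl (by omega) (Z.hF1 _ _ _ _ ha hb hc hc)
    omega
  · rintro i hi a b ⟨ha, hb, _⟩
    have h1 := hB M i a le_rfl (by omega) ha
    have h2 := hB M i b le_rfl (by omega) hb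
    omega

theorem qfrm_ok : QOk (qfrm Z x T M) := by
  intro j hj i hi
  rw [qfrm_c Z x T M hj hi, qfrm_n]
  exact qcls_ok Z x T M _ (List.getElem_mem hj) _ (Pool.Agent.H1.NP.getD_mem_l _ hi)

theorem length_trs (s : ℕ) : (trs s).length = s * s * s :=
  (List.length_product _ _).trans (by rw [length_prs, List.length_range])

theorem length_qcls : (qcls Z x T M).length = x.length + ((T + 2) +
    ((hh x T + 2) * (dps Z.s).length + (((List.range Z.s).filter (fun a => !Z.acc a)).length +
    (M * ((hh x T + 2) * (Z.s * 8)) + (Z.s * Z.s + (hh x T * (Z.s * Z.s * (Z.s * Z.s)) +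
    (Z.s * Z.s * Z.s + (hh x T + 2) * (dps Z.s).length))))))) := by
  have h1 : ∀ (L : List ℕ) (p : ℕ → Prop) [DecidablePred p] (f g : ℕ → C5),
      (L.flatMap (fun i => if p i then [f i] else [g i])).length = L.length := by
    intro L p _ f g
    induction L with
    | nil => rfl
    | cons a L ih =>
      rw [List.flatMap_cons, List.length_append, ih]
      split_ifs <;> simp [Nat.add_comm]
  have h3 : ∀ {α β : Type} (L : List α) (f : α → List β) (n : ℕ),
      (∀ a, (f a).length = n) → (L.flatMap f).length = L.length * n := by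
    intro α β L f n h
    induction L with
    | nil => simp
    | cons a L ih =>
      rw [List.flatMap_cons, List.length_append, ih, h]
      simp [Nat.succ_mul, Nat.add_comm]
  have h2 : ∀ {α : Type} (L : List α) (f : α → C5),
      (L.flatMap (fun i => [f i])).length = L.length := by
    intro α L f
    rw [h3 L _ 1 (fun _ => rfl), Nat.mul_one]
  unfold qcls
  rw [List.length_append, List.length_append, List.length_append, List.length_append,
    List.length_append, List.length_append, List.length_append, List.length_append, h1, h2, h2, h2,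
    h2, h3 (List.range (hh x T + 2)) _ (dps Z.s).length (fun i => by rw [h2]),
    h3 (List.range M) _ ((hh x T + 2) * (Z.s * 8)) (fun j => by
      rw [h3 (List.range (hh x T + 2)) _ (Z.s * 8) (fun i => by
        rw [h3 (List.range Z.s) _ 8 (fun a => rfl), List.length_range]), List.length_range]),
    h3 (List.range (hh x T)) _ (Z.s * Z.s * (Z.s * Z.s)) (fun i => by rw [h2, length_qds]),
    h3 (List.range (hh x T + 2)) _ (dps Z.s).length (fun i => by rw [h2]), length_prs,
    length_trs]
  simp only [List.length_range]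

end

/-! ### The generator -/

section

variable (s : ℕ) (xT : Ex)

/-- `hh` -/
def hE : Ex := .add xl xT

/-- number of cells -/
def HE : Ex := .add (hE xT) (.con 2)

/-- bits of a row -/
def hbE : Ex := .mul (HE xT) (.con s)

/-- bits of a level -/
def WE : Ex := .add (.mul (.con 3) (hbE s xT)) (.con 1)

def eM (j i a : Ex) : Ex := .add (.mul j (WE s xT)) (.add (.mul i (.con s)) a)

def eS (j : Ex) : Ex := .add (.mul j (WE s xT)) (hbE s xT)

def eA (j i a : Ex) : Ex :=
  .add (.mul j (WE s xT)) (.add (.add (hbE s xT) (.con 1)) (.add (.mul i (.con s)) a))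

def eB (j i a : Ex) : Ex :=
  .add (.mul j (WE s xT)) (.add (.add (.mul (.con 2) (hbE s xT)) (.con 1))
    (.add (.mul i (.con s)) a))

/-- positive literal -/
def pE (e : Ex) : Ex := .add (.mul (.con 2) e) (.con 1)

/-- negative literal -/
def nE (e : Ex) : Ex := .mul (.con 2) e

/-- clause with two literals -/
def l2 (a b : Ex) : Lg := clL a b b b b

/-- clause with three literals -/
def l3 (a b c : Ex) : Lg := clL a b c c c

/-- clauses of a link -/
def lkL (j i a : Ex) : Lg :=
  let j1 : Ex := .add j (.con 1)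
  .seq (l3 (pE (eS s xT j1)) (nE (eA s xT j1 i a)) (pE (eA s xT j i a)))
  (.seq (l3 (pE (eS s xT j1)) (pE (eA s xT j1 i a)) (nE (eA s xT j i a)))
  (.seq (l3 (pE (eS s xT j1)) (nE (eB s xT j1 i a)) (pE (eM s xT j1 i a)))
  (.seq (l3 (pE (eS s xT j1)) (pE (eB s xT j1 i a)) (nE (eM s xT j1 i a)))
  (.seq (l3 (nE (eS s xT j1)) (nE (eA s xT j1 i a)) (pE (eM s xT j1 i a)))
  (.seq (l3 (nE (eS s xT j1)) (pE (eA s xT j1 i a)) (nE (eM s xT j1 i a)))
  (.seq (l3 (nE (eS s xT j1)) (nE (eB s xT j1 i a)) (pE (eB s xT j i a)))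
  (l3 (nE (eS s xT j1)) (pE (eB s xT j1 i a)) (nE (eB s xT j i a)))))))))

end

/-- the generator of the formula; `xT`, `xM` are the bounds -/
def qG (Z : CA) (xT xM : Ex) : Lg :=
  let s := Z.s
  let A := fun (j i a : Ex) => eA s xT j i a
  let B := fun (j i a : Ex) => eB s xT j i a
  .seq (.el (.mul (.add xM (.con 1)) (WE s xT)))
  (.seq (.el (.add xl (.add (.add xT (.con 2)) (.add (.mul (HE xT) (.con (dps s).length))
    (.add (.con ((List.range s).filter (fun a => !Z.acc a)).length)
    (.add (.mul xM (.mul (HE xT) (.con (s * 8)))) (.add (.con (s * s))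
    (.add (.mul (hE xT) (.con (s * s * (s * s)))) (.add (.con (s * s * s))
    (.mul (HE xT) (.con (dps s).length)))))))))))
  (.seq (.loop (.add xM (.con 1)) (.loop (WE s xT) (.ifle (.var 0) (hbE s xT)
    (.ifle (hbE s xT) (.var 0) (.el (.con 1)) (.el (.con 0))) (.el (.con 0)))))
  (.seq (.loop xl (.ifle (.inp (.add (.con 1) (.var 0))) (.con 0)
      (uniL (pE (A (.con 0) (.var 0) (.con (Z.sy (some false))))))
      (uniL (pE (A (.con 0) (.var 0) (.con (Z.sy (some true))))))))
  (.seq (.loop (.add xT (.con 2)) (uniL (pE (A (.con 0) (.add xl (.var 0))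
    (.con (Z.sy none))))))
  (.seq (.loop (HE xT) (many (dps s) (fun c => l2 (nE (A (.con 0) (.var 0) (.con c.1)))
    (nE (A (.con 0) (.var 0) (.con c.2))))))
  (.seq (many ((List.range s).filter (fun a => !Z.acc a)) (fun a =>
    uniL (nE (B (.con 0) (.con 0) (.con a)))))
  (.seq (.loop xM (.loop (HE xT) (.loop (.con s) (lkL s xT (.var 2) (.var 1) (.var 0)))))
  (.seq (many (prs s) (fun c => l3 (nE (A xM (.con 0) (.con c.1)))
    (nE (A xM (.con 1) (.con c.2))) (pE (B xM (.con 0) (.con (Z.F0 c.1 c.2))))))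
  (.seq (.loop (hE xT) (many (qds s) (fun c =>
      clL (nE (A xM (.con 0) (.con c.1.1))) (nE (A xM (.var 0) (.con c.1.2)))
        (nE (A xM (.add (.var 0) (.con 1)) (.con c.2.1)))
        (nE (A xM (.add (.var 0) (.con 2)) (.con c.2.2)))
        (pE (B xM (.add (.var 0) (.con 1)) (.con (Z.F1 c.1.1 c.1.2 c.2.1 c.2.2)))))))
  (.seq (many (trs s) (fun c => clL (nE (A xM (.con 0) (.con c.1.1)))
      (nE (A xM (hE xT) (.con c.1.2))) (nE (A xM (.add (hE xT) (.con 1)) (.con c.2)))
      (pE (B xM (.add (hE xT) (.con 1)) (.con (Z.F1 c.1.1 c.1.2 c.2 c.2))))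
      (pE (B xM (.add (hE xT) (.con 1)) (.con (Z.F1 c.1.1 c.1.2 c.2 c.2))))))
  (.loop (HE xT) (many (dps s) (fun c => l2 (nE (B xM (.var 0) (.con c.1)))
    (nE (B xM (.var 0) (.con c.2))))))))))))))))

theorem qG_out (Z : CA) (x : List Bool) (T M : ℕ) (xT xM : Ex)
    (hT : ∀ env, xT.val (bits x) env = T) (hM : ∀ env, xM.val (bits x) env = M) :
    (qG Z xT xM).out (bits x) [] = qfrm Z x T M := by
  have hl : ∀ env, xl.val (bits x) env = x.length := fun env => rfl
  have hh1 : ∀ env, (hE xT).val (bits x) env = hh x T := by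
    intro env
    simp only [hE, Ex.val, hT, hl, hh]
  have hH : ∀ env, (HE xT).val (bits x) env = hh x T + 2 := by
    intro env
    simp only [HE, Ex.val, hh1]
  have hhb : ∀ env, (hbE Z.s xT).val (bits x) env = (sz Z x T).h := by
    intro env
    simp only [hbE, Ex.val, hH, Sz.h, sz]
  have hW : ∀ env, (WE Z.s xT).val (bits x) env = (sz Z x T).W := by
    intro env
    simp only [WE, Ex.val, hhb, Sz.W]
  have hs : (sz Z x T).s = Z.s := rfl
  have hA : ∀ env j i a, (eA Z.s xT j i a).val (bits x) env = vA (sz Z x T)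
      (j.val (bits x) env) (i.val (bits x) env) (a.val (bits x) env) := by
    intro env j i a
    simp only [eA, Ex.val, hW, hhb, vA, hs]
  have hB : ∀ env j i a, (eB Z.s xT j i a).val (bits x) env = vB (sz Z x T)
      (j.val (bits x) env) (i.val (bits x) env) (a.val (bits x) env) := by
    intro env j i a
    simp only [eB, Ex.val, hW, hhb, vB, hs]
  have hMm : ∀ env j i a, (eM Z.s xT j i a).val (bits x) env = vM (sz Z x T)
      (j.val (bits x) env) (i.val (bits x) env) (a.val (bits x) env) := by
    intro env j i a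
    simp only [eM, Ex.val, hW, vM, hs]
  have hS : ∀ env j, (eS Z.s xT j).val (bits x) env = vS (sz Z x T) (j.val (bits x) env) := by
    intro env j
    simp only [eS, Ex.val, hW, hhb, vS]
  have hf : ∀ {α β γ : Type} (L : List α) (f : α → List β) (g : β → List γ),
      (L.flatMap f).flatMap g = L.flatMap (fun a => (f a).flatMap g) := by
    intro α β γ L f g
    induction L with
    | nil => rfl
    | cons a L ih => simp [ih]
  unfold qfrm
  rw [length_qcls]
  unfold qcls qG flgs
  simp only [Lg.out, List.flatMap_append, hf, many_out, uniL, clL_out, l2, l3, lkL, lk, pE, nE,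
    hA, hB, hMm, hS, Ex.val, hl, hT, hM, hH, hh1, hhb, hW, List.getD_cons_zero,
    List.getD_cons_succ, List.flatMap_cons, List.flatMap_nil, List.append_nil,
    List.cons_append, List.nil_append, uni, c2, c3, pL, nL]
  congr 4
  · congr 1
    funext i
    split_ifs <;> simp
end Pool.Agent.H1.Dom
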