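import Pool.Agent.H1.Dom.Defs
import Pool.Agent.H68.NPH.Prog

/-!
MP_0061eb_lc: target statements of the modules (see the blueprint H1_DOM_blueprint.md in the team
store).
-/

namespace Pool.Agent.H1.Dom

open Set Finset

/-! ### Module G: generalities on the game -/

/-- G1: the number `gameDom` agrees with the strategy predicate `Win` -/
def TG1 : Prop := ∀ {V : Type} [Fintype V] (G : SimpleGraph V) (k : ℕ),
  gameDom G ≤ k ↔ Win G k true ∅

/-- G2: invariance under isomorphism -/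
def TG2 : Prop := ∀ {V W : Type} (G : SimpleGraph V) (H : SimpleGraph W) (e : V ≃ W),
  (∀ a b, G.Adj a b ↔ H.Adj (e a) (e b)) → ∀ (k : ℕ) (b : Bool) (A : Set V),
    Win G k b A ↔ Win H k b (e '' A)

/-- G3: continuation principle -/
def TG3 : Prop := ∀ {V : Type} (G : SimpleGraph V) (k : ℕ) (b : Bool) (A B : Set V),
  A ⊆ B → Win G k b A → Win G k b B

/-! ### Module A: from the uniform covering game to split graphs -/

/-- the neighbourhood `(Y × 3) \ {(p, c)}` -/
def pr {Q : Type} (s : ℕ) (p : Q) (Y : Finset Q) (c : Fin 3) : Set (Q × Fin 3 ⊕ Fin s) :=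
  {i | ∃ x c', i = Sum.inl (x, c') ∧ x ∈ Y ∧ ¬ (x = p ∧ c' = c)}

/-- the `s` extra elements -/
def zs {Q : Type} (s : ℕ) : Set (Q × Fin 3 ⊕ Fin s) := {i | ∃ z, i = Sum.inr z}

/-- the conditions on the neighbourhoods of the clique vertices -/
structure Good {Q K : Type} (R : Q → Finset Q → Prop) (l : ℕ)
    (F : K → Set (Q × Fin 3 ⊕ Fin (3 * l - 1))) : Prop where
  zero : ∃ k, F k = zs _
  only : ∀ k, F k = ∅ ∨ F k = zs _ ∨ ∃ p Y c, R p Y ∧ p ∈ Y ∧ F k = pr _ p Y c
  all : ∀ p Y c, R p Y → p ∈ Y → Y.card = l → ∃ k, F k = pr _ p Y c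

/-- A -/
def TA : Prop := ∀ {Q K : Type} [Fintype Q] [DecidableEq Q] [Fintype K]
  (R : Q → Finset Q → Prop) (l d : ℕ), 1 ≤ l → Fintype.card Q = l * d →
  (∀ p Y, R p Y → Y.card ≤ l) → ∀ F : K → Set (Q × Fin 3 ⊕ Fin (3 * l - 1)), Good R l F →
    (Win (splitG F) (2 * d + 1) true ∅ ↔ UW R l Finset.univ)

/-! ### Module B: padding -/

/-- B0: sizes of the answers of the padded game -/
def TB0 : Prop := ∀ {P : Type} [DecidableEq P] (L : ℕ) (R : P → Finset P → Prop)
  (z : P × Fin (L + 1)) (Y : Finset (P × Fin (L + 1))), Pad L R z Y → Y.card ≤ L + 1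

/-- B1: if the second player wins the game with passes then he wins the padded game -/
def TB1 : Prop := ∀ {P : Type} [Fintype P] [DecidableEq P] (L : ℕ)
  (R : P → Finset P → Prop), 2 ≤ L → (∀ p X, R p X → X.card ≤ L) → DW R Finset.univ →
    UW (Pad L R) (L + 1) Finset.univ

/-- B2: if the second player wins the padded game then he wins the game without passes -/
def TB2 : Prop := ∀ {P : Type} [Fintype P] [DecidableEq P] (L : ℕ)
  (R : P → Finset P → Prop), UW (Pad L R) (L + 1) Finset.univ → RW R Finset.univ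

/-! ### Module C: the covering game of a quantified formula -/

/-- C0: sizes of answers -/
def TC0 : Prop := ∀ {n m : ℕ} (U : ℕ → Bool) (cl : ℕ → ℕ → ℕ) (p : Pt n m)
  (X : Finset (Pt n m)), Pt.Ans U cl p X → X.card ≤ m + 3

/-- C1 -/
def TC1 : Prop := ∀ (n m : ℕ) (U : ℕ → Bool) (cl : ℕ → ℕ → ℕ),
  (∀ j < m, ∀ i < 5, cl j i < 2 * n) → QTrue n m U cl →
    DW (Pt.Ans U cl : Pt n m → _ → _) Finset.univ

/-- C2 -/
def TC2 : Prop := ∀ (n m : ℕ) (U : ℕ → Bool) (cl : ℕ → ℕ → ℕ),
  RW (Pt.Ans U cl : Pt n m → _ → _) Finset.univ → QTrue n m U cl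

/-! ### Module E: the generator.  A quantified formula is coded by the list
`n :: m :: (n flags, 1 for universal) ++ (5 m literals)`. -/

section

open Pool.Agent.H68.OQP Pool.Agent.H68.NPH

/-- number of variables -/
def qn (l : List ℕ) : ℕ := l.getD 0 0

/-- number of clauses -/
def qm (l : List ℕ) : ℕ := l.getD 1 0

/-- universal variables -/
def qU (l : List ℕ) (v : ℕ) : Bool := decide (1 ≤ l.getD (2 + v) 0)

/-- literals -/
def qc (l : List ℕ) (j i : ℕ) : ℕ := l.getD (2 + qn l + 5 * j + i) 0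

/-- codes of quantified formulas -/
def QOk (l : List ℕ) : Prop := ∀ j < qm l, ∀ i < 5, qc l j i < 2 * qn l

/-- E: the graph (with `N.val l []` vertices and edge list `g.out l []`) is isomorphic to the split
graph of the padded game of the formula -/
def TE : Prop := ∃ (N : Ex) (g : Rg), ∀ l : List ℕ, QOk l →
  ∃ (K : Type) (_ : Fintype K) (F : K → Set (((Pt (qn l) (qm l)) × Fin (qm l + 3 + 1)) × Fin 3 ⊕
      Fin (3 * (qm l + 3 + 1) - 1))),
    Good (Pad (qm l + 3) (Pt.Ans (qU l) (qc l))) (qm l + 3 + 1) F ∧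
    ∃ e : (K ⊕ (((Pt (qn l) (qm l)) × Fin (qm l + 3 + 1)) × Fin 3 ⊕
      Fin (3 * (qm l + 3 + 1) - 1))) ≃ Fin (N.val l []),
      ∀ a b, (splitG F).Adj a b ↔
        (graphOf (N.val l [], g.out l [])).Adj (e a) (e b)

end

end Pool.Agent.H1.Dom
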