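import Pool.Agent.H1.Dom.Qbf
import Pool.Agent.H1.Dom.Targets
import Pool.Agent.H1.NP.Tab2

/-!
The quantified formula of a bounded row automaton, as a list of numbers.
-/

namespace Pool.Agent.H1.Dom

open Function Pool.Agent.H68.OQP
open Pool.Agent.H1.NP (C5 uni prs qds bits many many_out xl clL clL_out uniL)

/-- a row automaton: `s` states, rules for the first cell and the other cells, states of the cells
containing an input symbol, accepting states -/
structure CA where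
  s : ℕ
  F0 : ℕ → ℕ → ℕ
  F1 : ℕ → ℕ → ℕ → ℕ → ℕ
  sy : Option Bool → ℕ
  acc : ℕ → Bool
  hF0 : ∀ a b, a < s → b < s → F0 a b < s
  hF1 : ∀ a b c d, a < s → b < s → c < s → d < s → F1 a b c d < s
  hsy : ∀ o, sy o < s

/-- one step of the automaton with `H2 + 2` cells -/
def CA.nx (Z : CA) (H2 : ℕ) (ρ : ℕ → ℕ) : ℕ → ℕ
  | 0 => Z.F0 (ρ 0) (ρ 1)
  | i + 1 => if i < H2 then Z.F1 (ρ 0) (ρ i) (ρ (i + 1)) (ρ (i + 2)) else
      Z.F1 (ρ 0) (ρ i) (ρ (i + 1)) (ρ (i + 1))

/-- the first row -/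
def CA.r0 (Z : CA) (x : List Bool) (i : ℕ) : ℕ := Z.sy (x[i]?)

/-- positive literal -/
def pL (v : ℕ) : ℕ := 2 * v + 1

/-- negative literal -/
def nL (v : ℕ) : ℕ := 2 * v

theorem lit_pL (τ : ℕ → Bool) (v : ℕ) : lit τ (pL v) = τ v := by
  unfold lit pL
  rw [if_pos (by omega), show (2 * v + 1) / 2 = v by omega]

theorem lit_nL (τ : ℕ → Bool) (v : ℕ) : lit τ (nL v) = !τ v := by
  unfold lit nL
  rw [if_neg (by omega), show (2 * v) / 2 = v by omega]

/-- clauses with two or three literals -/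
def c2 (a b : ℕ) : C5 := (a, b, b, b, b)

/-- clauses with three literals -/
def c3 (a b c : ℕ) : C5 := (a, b, c, c, c)

/-- truth of a clause -/
def Tc (τ : ℕ → Bool) (c : C5) : Prop := ∃ a ∈ C5.l c, lit τ a = true

theorem Tc_5 {τ : ℕ → Bool} {a b c d e : ℕ} : Tc τ (a, b, c, d, e) ↔
    lit τ a = true ∨ lit τ b = true ∨ lit τ c = true ∨ lit τ d = true ∨ lit τ e = true := by
  simp [Tc, C5.l]

theorem Tc_uni {τ : ℕ → Bool} {a : ℕ} : Tc τ (uni a) ↔ lit τ a = true := by
  simp [Tc, C5.l, uni]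

theorem Tc_c2 {τ : ℕ → Bool} {a b : ℕ} : Tc τ (c2 a b) ↔ lit τ a = true ∨ lit τ b = true := by
  simp [Tc, C5.l, c2]

theorem Tc_c3 {τ : ℕ → Bool} {a b c : ℕ} : Tc τ (c3 a b c) ↔
    lit τ a = true ∨ lit τ b = true ∨ lit τ c = true := by
  simp [Tc, C5.l, c3]

/-- pairs of different states -/
def dps (s : ℕ) : List (ℕ × ℕ) := (prs s).filter (fun c => decide (c.1 ≠ c.2))

theorem mem_dps {s : ℕ} {c : ℕ × ℕ} : c ∈ dps s ↔ c.1 < s ∧ c.2 < s ∧ c.1 ≠ c.2 := by
  unfold dps prs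
  rw [List.mem_filter, List.pair_mem_product, List.mem_range, List.mem_range]
  simp only [ne_eq, decide_not, Bool.not_eq_eq_eq_not, Bool.not_true, decide_eq_false_iff_not]
  tauto

/-- triples of states -/
def trs (s : ℕ) : List ((ℕ × ℕ) × ℕ) := (prs s).product (List.range s)

section

variable (Z : CA) (x : List Bool) (T M : ℕ)

/-- number of cells minus two -/
def hh : ℕ := x.length + T

/-- sizes -/
def sz : Sz := ⟨Z.s, hh x T + 2⟩

/-- clauses of a link -/
def lk (z : Sz) (j i a : ℕ) : List C5 :=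
  [c3 (pL (vS z (j + 1))) (nL (vA z (j + 1) i a)) (pL (vA z j i a)),
   c3 (pL (vS z (j + 1))) (pL (vA z (j + 1) i a)) (nL (vA z j i a)),
   c3 (pL (vS z (j + 1))) (nL (vB z (j + 1) i a)) (pL (vM z (j + 1) i a)),
   c3 (pL (vS z (j + 1))) (pL (vB z (j + 1) i a)) (nL (vM z (j + 1) i a)),
   c3 (nL (vS z (j + 1))) (nL (vA z (j + 1) i a)) (pL (vM z (j + 1) i a)),
   c3 (nL (vS z (j + 1))) (pL (vA z (j + 1) i a)) (nL (vM z (j + 1) i a)),
   c3 (nL (vS z (j + 1))) (nL (vB z (j + 1) i a)) (pL (vB z j i a)),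
   c3 (nL (vS z (j + 1))) (pL (vB z (j + 1) i a)) (nL (vB z j i a))]

/-- the clauses -/
def qcls : List C5 :=
  (List.range x.length).flatMap (fun i => if (bits x).getD (1 + i) 0 ≤ 0 then
    [uni (pL (vA (sz Z x T) 0 i (Z.sy (some false))))] else
    [uni (pL (vA (sz Z x T) 0 i (Z.sy (some true))))]) ++
  ((List.range (T + 2)).flatMap (fun j =>
    [uni (pL (vA (sz Z x T) 0 (x.length + j) (Z.sy none)))]) ++
  ((List.range (hh x T + 2)).flatMap (fun i => (dps Z.s).flatMap (fun c =>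
    [c2 (nL (vA (sz Z x T) 0 i c.1)) (nL (vA (sz Z x T) 0 i c.2))])) ++
  (((List.range Z.s).filter (fun a => !Z.acc a)).flatMap (fun a =>
    [uni (nL (vB (sz Z x T) 0 0 a))]) ++
  ((List.range M).flatMap (fun j => (List.range (hh x T + 2)).flatMap (fun i =>
    (List.range Z.s).flatMap (fun a => lk (sz Z x T) j i a))) ++
  ((prs Z.s).flatMap (fun c =>
    [c3 (nL (vA (sz Z x T) M 0 c.1)) (nL (vA (sz Z x T) M 1 c.2))
      (pL (vB (sz Z x T) M 0 (Z.F0 c.1 c.2)))]) ++
  ((List.range (hh x T)).flatMap (fun i => (qds Z.s).flatMap (fun c =>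
    [(nL (vA (sz Z x T) M 0 c.1.1), nL (vA (sz Z x T) M i c.1.2),
      nL (vA (sz Z x T) M (i + 1) c.2.1), nL (vA (sz Z x T) M (i + 2) c.2.2),
      pL (vB (sz Z x T) M (i + 1) (Z.F1 c.1.1 c.1.2 c.2.1 c.2.2)))])) ++
  ((trs Z.s).flatMap (fun c =>
    [(nL (vA (sz Z x T) M 0 c.1.1), nL (vA (sz Z x T) M (hh x T) c.1.2),
      nL (vA (sz Z x T) M (hh x T + 1) c.2),
      pL (vB (sz Z x T) M (hh x T + 1) (Z.F1 c.1.1 c.1.2 c.2 c.2)),
      pL (vB (sz Z x T) M (hh x T + 1) (Z.F1 c.1.1 c.1.2 c.2 c.2)))]) ++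
  (List.range (hh x T + 2)).flatMap (fun i => (dps Z.s).flatMap (fun c =>
    [c2 (nL (vB (sz Z x T) M i c.1)) (nL (vB (sz Z x T) M i c.2))])))))))))

/-- the matrix -/
def Phi (τ : ℕ → Bool) : Prop := ∀ c ∈ qcls Z x T M, Tc τ c

variable {Z x T M}

theorem all_flatMap {α β : Type} {L : List α} {f : α → List β} {p : β → Prop} :
    (∀ c ∈ L.flatMap f, p c) ↔ ∀ a ∈ L, ∀ c ∈ f a, p c := by
  simp only [List.mem_flatMap]
  constructor
  · intro h a ha c hc
    exact h c ⟨a, ha, hc⟩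
  · rintro h c ⟨a, ha, hc⟩
    exact h a ha c hc

theorem bits_get {i : ℕ} (hi : i < x.length) :
    ((bits x).getD (1 + i) 0 ≤ 0 ↔ x[i]? = some false) ∧
      (¬ (bits x).getD (1 + i) 0 ≤ 0 ↔ x[i]? = some true) := by
  have h1 : (bits x).getD (1 + i) 0 = (x[i]).toNat := by
    rw [Nat.add_comm, bits, List.getD_cons_succ, List.getD_eq_getElem?_getD,
      List.getElem?_map, List.getElem?_eq_getElem hi]
    rfl
  rw [h1, List.getElem?_eq_getElem hi]
  cases x[i] <;> simp

/-- the clauses, spelled out -/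
theorem Phi_iff {τ : ℕ → Bool} : Phi Z x T M τ ↔
    (∀ i < x.length, τ (vA (sz Z x T) 0 i (Z.sy (x[i]?))) = true) ∧
    (∀ j < T + 2, τ (vA (sz Z x T) 0 (x.length + j) (Z.sy none)) = true) ∧
    (∀ i < hh x T + 2, ∀ a < Z.s, ∀ b < Z.s, a ≠ b →
      τ (vA (sz Z x T) 0 i a) = false ∨ τ (vA (sz Z x T) 0 i b) = false) ∧
    (∀ a < Z.s, Z.acc a = false → τ (vB (sz Z x T) 0 0 a) = false) ∧
    (∀ j < M, ∀ i < hh x T + 2, ∀ a < Z.s, ∀ c ∈ lk (sz Z x T) j i a, Tc τ c) ∧
    (∀ a < Z.s, ∀ b < Z.s, τ (vA (sz Z x T) M 0 a) = false ∨ τ (vA (sz Z x T) M 1 b) = false ∨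
      τ (vB (sz Z x T) M 0 (Z.F0 a b)) = true) ∧
    (∀ i < hh x T, ∀ a < Z.s, ∀ b < Z.s, ∀ c < Z.s, ∀ d < Z.s,
      τ (vA (sz Z x T) M 0 a) = false ∨ τ (vA (sz Z x T) M i b) = false ∨
      τ (vA (sz Z x T) M (i + 1) c) = false ∨ τ (vA (sz Z x T) M (i + 2) d) = false ∨
      τ (vB (sz Z x T) M (i + 1) (Z.F1 a b c d)) = true) ∧
    (∀ a < Z.s, ∀ b < Z.s, ∀ c < Z.s,
      τ (vA (sz Z x T) M 0 a) = false ∨ τ (vA (sz Z x T) M (hh x T) b) = false ∨
      τ (vA (sz Z x T) M (hh x T + 1) c) = false ∨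
      τ (vB (sz Z x T) M (hh x T + 1) (Z.F1 a b c c)) = true) ∧
    (∀ i < hh x T + 2, ∀ a < Z.s, ∀ b < Z.s, a ≠ b →
      τ (vB (sz Z x T) M i a) = false ∨ τ (vB (sz Z x T) M i b) = false) := by
  unfold Phi qcls
  simp only [List.forall_mem_append, all_flatMap, List.forall_mem_singleton, List.mem_range,
    Tc_c2, Tc_c3, Tc_5, Tc_uni, lit_pL, lit_nL, mem_dps, Bool.not_eq_eq_eq_not, Bool.not_true,
    List.mem_filter]
  refine and_congr ?_ (and_congr Iff.rfl (and_congr ?_ (and_congr ?_ (and_congr Iff.rfl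
    (and_congr ?_ (and_congr ?_ (and_congr ?_ ?_)))))))
  · refine forall_congr' fun i => forall_congr' fun hi => ?_
    obtain ⟨h1, h2⟩ := bits_get (x := x) hi
    split_ifs with h
    · rw [h1] at h
      rw [h, List.forall_mem_singleton, Tc_uni, lit_pL]
    · rw [h2] at h
      rw [h, List.forall_mem_singleton, Tc_uni, lit_pL]
  · refine forall_congr' fun i => forall_congr' fun hi => ?_
    constructor
    · intro h a ha b hb hab
      exact h (a, b) ⟨ha, hb, hab⟩
    · rintro h ⟨a, b⟩ ⟨ha, hb, hab⟩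
      exact h a ha b hb hab
  · exact forall_congr' fun a => and_imp
  · constructor
    · intro h a ha b hb
      exact h (a, b) (by simp [prs, List.pair_mem_product, ha, hb])
    · rintro h ⟨a, b⟩ hc
      simp only [prs, List.pair_mem_product, List.mem_range] at hc
      exact h a hc.1 b hc.2
  · refine forall_congr' fun i => forall_congr' fun hi => ?_
    constructor
    · intro h a ha b hb c hc d hd
      exact h ((a, b), (c, d)) (by simp [qds, prs, List.pair_mem_product, ha, hb, hc, hd])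
    · rintro h ⟨⟨a, b⟩, ⟨c, d⟩⟩ hc
      simp only [qds, prs, List.pair_mem_product, List.mem_range] at hc
      exact h a hc.1.1 b hc.1.2 c hc.2.1 d hc.2.2
  · constructor
    · intro h a ha b hb c hc
      have := h ((a, b), c) (by simp [trs, prs, List.pair_mem_product, ha, hb, hc])
      tauto
    · rintro h ⟨⟨a, b⟩, c⟩ hc
      simp only [trs, prs, List.pair_mem_product, List.mem_range] at hc
      have := h a hc.1.1 b hc.1.2 c hc.2
      tauto
  · refine forall_congr' fun i => forall_congr' fun hi => ?_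
    constructor
    · intro h a ha b hb hab
      exact h (a, b) ⟨ha, hb, hab⟩
    · rintro h ⟨a, b⟩ ⟨ha, hb, hab⟩
      exact h a ha b hb hab

theorem link_iff {z : Sz} {j : ℕ} {τ : ℕ → Bool} :
    (∀ i < z.H, ∀ a < z.s, ∀ c ∈ lk z j i a, Tc τ c) ↔ Link z j τ := by
  unfold Link
  refine forall_congr' fun i => forall_congr' fun hi => forall_congr' fun a =>
    forall_congr' fun ha => ?_
  unfold lk
  simp only [List.forall_mem_cons, Tc_c3, lit_pL, lit_nL, Bool.not_eq_eq_eq_not, Bool.not_true]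
  simp only [List.not_mem_nil, false_imp_iff, implies_true, and_true]
  generalize τ (vS z (j + 1)) = s
  generalize τ (vA z (j + 1) i a) = a'
  generalize τ (vB z (j + 1) i a) = b'
  generalize τ (vM z (j + 1) i a) = m
  generalize τ (vA z j i a) = a0
  generalize τ (vB z j i a) = b0
  cases s <;> cases a' <;> cases b' <;> cases m <;> cases a0 <;> cases b0 <;> simp

theorem row_r0 : Row (sz Z x T) (Z.r0 x) := fun _ _ => Z.hsy _

theorem row_nx (ρ : ℕ → ℕ) (h : Row (sz Z x T) ρ) : Row (sz Z x T) (Z.nx (hh x T) ρ) := by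
  have h' : ∀ i < hh x T + 2, ρ i < Z.s := h
  intro i hi
  have hi' : i < hh x T + 2 := hi
  change Z.nx (hh x T) ρ i < Z.s
  cases i with
  | zero => exact Z.hF0 _ _ (h' 0 (by omega)) (h' 1 (by omega))
  | succ i =>
    simp only [CA.nx]
    split_ifs with h1
    · exact Z.hF1 _ _ _ _ (h' 0 (by omega)) (h' i (by omega)) (h' _ (by omega)) (h' _ (by omega))
    · exact Z.hF1 _ _ _ _ (h' 0 (by omega)) (h' i (by omega)) (h' _ (by omega)) (h' _ (by omega))

theorem oh_of {f : ℕ → ℕ → Bool} {s H : ℕ} {ρ : ℕ → ℕ} (h1 : ∀ i < H, f i (ρ i) = true)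
    (h2 : ∀ i < H, ∀ a < s, ∀ b < s, a ≠ b → f i a = false ∨ f i b = false)
    (h3 : ∀ i < H, ρ i < s) : OH ⟨s, H⟩ f ρ := by
  intro i hi a ha
  by_cases h : ρ i = a
  · rw [← h, h1 i hi]
    simp
  · rcases h2 i hi a ha (ρ i) (h3 i hi) (Ne.symm h) with h4 | h4
    · rw [h4]
      simp [h]
    · rw [h1 i hi] at h4
      cases h4

theorem top_iff {τ : ℕ → Bool} : Top (sz Z x T) Z.acc (Z.r0 x) τ ↔
    (∀ i < x.length, τ (vA (sz Z x T) 0 i (Z.sy (x[i]?))) = true) ∧
    (∀ j < T + 2, τ (vA (sz Z x T) 0 (x.length + j) (Z.sy none)) = true) ∧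
    (∀ i < hh x T + 2, ∀ a < Z.s, ∀ b < Z.s, a ≠ b →
      τ (vA (sz Z x T) 0 i a) = false ∨ τ (vA (sz Z x T) 0 i b) = false) ∧
    (∀ a < Z.s, Z.acc a = false → τ (vB (sz Z x T) 0 0 a) = false) := by
  have hh' : hh x T = x.length + T := rfl
  unfold Top
  constructor
  · rintro ⟨h1, h2⟩
    have h1' : ∀ i < hh x T + 2, ∀ a < Z.s, τ (vA (sz Z x T) 0 i a) = decide (Z.r0 x i = a) :=
      h1
    refine ⟨fun i hi => ?_, fun j hj => ?_, fun i hi a ha b hb hab => ?_, h2⟩
    · rw [h1' i (by omega) _ (Z.hsy _)]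
      simp [CA.r0]
    · rw [h1' _ (by omega) _ (Z.hsy _)]
      simp [CA.r0]
    · rw [h1' i hi a ha, h1' i hi b hb]
      by_cases h : Z.r0 x i = a
      · right
        rw [decide_eq_false_iff_not, h]
        exact hab
      · left
        rw [decide_eq_false_iff_not]
        exact h
  · rintro ⟨h1, h2, h3, h4⟩
    refine ⟨oh_of (s := Z.s) (H := hh x T + 2) (fun i hi => ?_) h3 (fun i _ => Z.hsy _), h4⟩
    by_cases hi' : i < x.length
    · exact h1 i hi'
    · obtain ⟨j, rfl⟩ : ∃ j, i = x.length + j := ⟨i - x.length, by omega⟩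
      have := h2 j (by omega)
      unfold CA.r0
      rw [List.getElem?_eq_none (by omega)]
      exact this

theorem phi_top {τ : ℕ → Bool} (h : Phi Z x T M τ) :
    Top (sz Z x T) Z.acc (Z.r0 x) τ ∧ ∀ j < M, Link (sz Z x T) j τ := by
  obtain ⟨h1, h2, h3, h4, h5, _⟩ := Phi_iff.1 h
  exact ⟨top_iff.2 ⟨h1, h2, h3, h4⟩, fun j hj => link_iff.1 (h5 j hj)⟩

theorem phi_bot {τ : ℕ → Bool} {ρ : ℕ → ℕ} (hρ : Row (sz Z x T) ρ)
    (hA : OH (sz Z x T) (fun i a => τ (vA (sz Z x T) M i a)) ρ) :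
    Phi Z x T M τ ↔ Top (sz Z x T) Z.acc (Z.r0 x) τ ∧ (∀ j < M, Link (sz Z x T) j τ) ∧
      OH (sz Z x T) (fun i a => τ (vB (sz Z x T) M i a)) (Z.nx (hh x T) ρ) := by
  have hρ' : ∀ i < hh x T + 2, ρ i < Z.s := hρ
  have hA' : ∀ i < hh x T + 2, ∀ a < Z.s, τ (vA (sz Z x T) M i a) = decide (ρ i = a) := hA
  have hAf : ∀ i < hh x T + 2, τ (vA (sz Z x T) M i (ρ i)) = true := by
    intro i hi
    rw [hA' i hi _ (hρ' i hi)]
    simp
  have hnxs : ∀ i < hh x T + 2, Z.nx (hh x T) ρ i < Z.s := row_nx ρ hρ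
  rw [Phi_iff, top_iff]
  constructor
  · rintro ⟨h1, h2, h3, h4, h5, h6, h7, h8, h9⟩
    refine ⟨⟨h1, h2, h3, h4⟩, fun j hj => link_iff.1 (h5 j hj), ?_⟩
    refine oh_of (s := Z.s) (H := hh x T + 2) (fun i hi => ?_) h9 hnxs
    cases i with
    | zero =>
      rcases h6 _ (hρ' 0 (by omega)) _ (hρ' 1 (by omega)) with h | h | h
      · rw [hAf 0 (by omega)] at h; cases h
      · rw [hAf 1 (by omega)] at h; cases h
      · exact h
    | succ i =>
      simp only [CA.nx]
      by_cases hi' : i < hh x T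
      · rw [if_pos hi']
        rcases h7 i hi' _ (hρ' 0 (by omega)) _ (hρ' i (by omega)) _ (hρ' (i + 1) (by omega)) _
          (hρ' (i + 2) (by omega)) with h | h | h | h | h
        · rw [hAf 0 (by omega)] at h; cases h
        · rw [hAf i (by omega)] at h; cases h
        · rw [hAf (i + 1) (by omega)] at h; cases h
        · rw [hAf (i + 2) (by omega)] at h; cases h
        · exact h
      · obtain rfl : i = hh x T := by omega
        rw [if_neg (by omega)]
        rcases h8 _ (hρ' 0 (by omega)) _ (hρ' (hh x T) (by omega)) _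
          (hρ' (hh x T + 1) (by omega)) with h | h | h | h
        · rw [hAf 0 (by omega)] at h; cases h
        · rw [hAf (hh x T) (by omega)] at h; cases h
        · rw [hAf (hh x T + 1) (by omega)] at h; cases h
        · exact h
  · rintro ⟨⟨h1, h2, h3, h4⟩, h5, hB⟩
    have hB' : ∀ i < hh x T + 2, ∀ a < Z.s,
        τ (vB (sz Z x T) M i a) = decide (Z.nx (hh x T) ρ i = a) := hB
    have hAn : ∀ i < hh x T + 2, ∀ a < Z.s,
        τ (vA (sz Z x T) M i a) = false ∨ ρ i = a := by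
      intro i hi a ha
      rw [hA' i hi a ha]
      by_cases h : ρ i = a
      · exact Or.inr h
      · left
        rw [decide_eq_false_iff_not]
        exact h
    refine ⟨h1, h2, h3, h4, fun j hj => link_iff.2 (h5 j hj), ?_, ?_, ?_, ?_⟩
    · intro a ha b hb
      rcases hAn 0 (by omega) a ha with h | rfl
      · exact Or.inl h
      · rcases hAn 1 (by omega) b hb with h | rfl
        · exact Or.inr (Or.inl h)
        · refine Or.inr (Or.inr ?_)
          rw [hB' 0 (by omega) _ (Z.hF0 _ _ ha hb)]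
          simp [CA.nx]
    · intro i hi a ha b hb c hc d hd
      rcases hAn 0 (by omega) a ha with h | rfl
      · exact Or.inl h
      rcases hAn i (by omega) b hb with h | rfl
      · exact Or.inr (Or.inl h)
      rcases hAn (i + 1) (by omega) c hc with h | rfl
      · exact Or.inr (Or.inr (Or.inl h))
      rcases hAn (i + 2) (by omega) d hd with h | rfl
      · exact Or.inr (Or.inr (Or.inr (Or.inl h)))
      refine Or.inr (Or.inr (Or.inr (Or.inr ?_)))
      rw [hB' (i + 1) (by omega) _ (Z.hF1 _ _ _ _ ha hb hc hd)]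
      simp [CA.nx, hi]
    · intro a ha b hb c hc
      rcases hAn 0 (by omega) a ha with h | rfl
      · exact Or.inl h
      rcases hAn (hh x T) (by omega) b hb with h | rfl
      · exact Or.inr (Or.inl h)
      rcases hAn (hh x T + 1) (by omega) c hc with h | rfl
      · exact Or.inr (Or.inr (Or.inl h))
      refine Or.inr (Or.inr (Or.inr ?_))
      rw [hB' (hh x T + 1) (by omega) _ (Z.hF1 _ _ _ _ ha hb hc hc)]
      simp [CA.nx]
    · intro i hi a ha b hb hab
      rw [hB' i hi a ha, hB' i hi b hb]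
      by_cases h : Z.nx (hh x T) ρ i = a
      · right
        rw [decide_eq_false_iff_not, h]
        exact hab
      · left
        rw [decide_eq_false_iff_not]
        exact h

/-- correctness of the quantified formula -/
theorem phi_main : qev (flg (sz Z x T)) (Phi Z x T M)
    (List.range ((M + 1) * (sz Z x T).W)) (fun _ => false) ↔
      Z.acc (((Z.nx (hh x T))^[2 ^ M] (Z.r0 x)) 0) = true :=
  squaring (z := sz Z x T) (M := M) (acc := Z.acc) (ρ₀ := Z.r0 x) (nx := Z.nx (hh x T))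
    (Φ := Phi Z x T M) (Nat.succ_pos _) row_nx (fun _ h => phi_top h)
    (fun _ _ h1 h2 => phi_bot h1 h2) row_r0

end

end Pool.Agent.H1.Dom
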