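import Pool.Agent.H1.Dom.Defs

/-!
Quantified formulas: blocks of variables, and iteration of a row map by repeated squaring.
-/

namespace Pool.Agent.H1.Dom

open Function

section qev

variable {U : ℕ → Bool} {Φ : (ℕ → Bool) → Prop}

theorem qev_append (ws : List ℕ) (vs : List ℕ) : ∀ τ,
    qev U Φ (vs ++ ws) τ ↔ qev U (qev U Φ ws) vs τ := by
  induction vs with
  | nil => intro τ; rfl
  | cons v vs ih =>
    intro τ
    simp only [List.cons_append, qev]
    by_cases h : U v = true
    · rw [if_pos h, if_pos h]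
      exact forall_congr' fun b => ih _
    · rw [if_neg h, if_neg h]
      exact exists_congr fun b => ih _

/-- override `k` values from `a` on -/
def ovr (a k : ℕ) (f τ : ℕ → Bool) : ℕ → Bool :=
  fun v => if a ≤ v ∧ v < a + k then f (v - a) else τ v

theorem ovr_in {a k : ℕ} {f τ : ℕ → Bool} {i : ℕ} (hi : i < k) : ovr a k f τ (a + i) = f i := by
  unfold ovr
  rw [if_pos ⟨by omega, by omega⟩]
  congr 1
  omega

theorem ovr_lt {a k : ℕ} {f τ : ℕ → Bool} {v : ℕ} (hv : v < a) : ovr a k f τ v = τ v := by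
  unfold ovr
  rw [if_neg (by omega)]

theorem qev_ex (k : ℕ) : ∀ (a : ℕ), (∀ v, a ≤ v → v < a + k → U v = false) → ∀ τ,
    (qev U Φ (List.range' a k) τ ↔ ∃ f, Φ (ovr a k f τ)) := by
  induction k with
  | zero =>
    intro a _ τ
    have : ∀ f, ovr a 0 f τ = τ := fun f => funext fun v => by
      unfold ovr
      rw [if_neg (by omega)]
    simp [qev, this]
  | succ k ih =>
    intro a hU τ
    rw [List.range'_succ]
    simp only [qev]
    rw [if_neg (by rw [hU a le_rfl (by omega)]; simp)]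
    have hU' : ∀ v, a + 1 ≤ v → v < a + 1 + k → U v = false :=
      fun v h1 h2 => hU v (by omega) (by omega)
    constructor
    · rintro ⟨b, hb⟩
      obtain ⟨f, hf⟩ := (ih (a + 1) hU' _).1 hb
      refine ⟨fun n => if n = 0 then b else f (n - 1), ?_⟩
      convert hf using 1
      funext v
      unfold ovr
      by_cases h1 : a ≤ v ∧ v < a + (k + 1)
      · rw [if_pos h1]
        by_cases h2 : v = a
        · subst h2
          rw [if_neg (by omega), update_self]
          simp
        · rw [if_pos (by omega)]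
          simp only
          rw [if_neg (by omega)]
          congr 1
      · rw [if_neg h1, if_neg (by omega), update_of_ne (by omega)]
    · rintro ⟨f, hf⟩
      refine ⟨f 0, (ih (a + 1) hU' _).2 ⟨fun n => f (n + 1), ?_⟩⟩
      convert hf using 1
      funext v
      unfold ovr
      by_cases h1 : a ≤ v ∧ v < a + (k + 1)
      · rw [if_pos h1]
        by_cases h2 : v = a
        · subst h2
          rw [if_neg (by omega), update_self]
          simp
        · rw [if_pos (by omega)]
          simp only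
          congr 1
          omega
      · rw [if_neg h1, if_neg (by omega), update_of_ne (by omega)]

theorem qev_leaf (vs : List ℕ) : ∀ τ, qev U Φ vs τ →
    ∃ τ', (∀ v, v ∉ vs → τ' v = τ v) ∧ Φ τ' := by
  induction vs with
  | nil => intro τ h; exact ⟨τ, fun _ _ => rfl, h⟩
  | cons v vs ih =>
    intro τ h
    have h2 : ∃ b, qev U Φ vs (update τ v b) := by
      simp only [qev] at h
      by_cases h1 : U v = true
      · rw [if_pos h1] at h
        exact ⟨true, h true⟩
      · rw [if_neg h1] at h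
        exact h
    obtain ⟨b, hb⟩ := h2
    obtain ⟨τ', h1, h2⟩ := ih _ hb
    refine ⟨τ', fun w hw => ?_, h2⟩
    rw [List.mem_cons, not_or] at hw
    rw [h1 w hw.2, update_of_ne hw.1]

end qev

/-! ### Repeated squaring -/

section sav

/-- `s` states and `H` cells -/
structure Sz where
  s : ℕ
  H : ℕ

variable (z : Sz)

/-- bits of a row -/
def Sz.h : ℕ := z.H * z.s

/-- bits of a level -/
def Sz.W : ℕ := 3 * z.h + 1

/-- bits of the middle row at level `j` -/
def vM (j i a : ℕ) : ℕ := j * z.W + (i * z.s + a)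

/-- selector at level `j` -/
def vS (j : ℕ) : ℕ := j * z.W + z.h

/-- bits of the first row at level `j` -/
def vA (j i a : ℕ) : ℕ := j * z.W + (z.h + 1 + (i * z.s + a))

/-- bits of the last row at level `j` -/
def vB (j i a : ℕ) : ℕ := j * z.W + (2 * z.h + 1 + (i * z.s + a))

/-- flags -/
def flg (v : ℕ) : Bool := decide (v % z.W = z.h)

theorem bit_lt {i a : ℕ} (hi : i < z.H) (ha : a < z.s) : i * z.s + a < z.h := by
  unfold Sz.h
  calc i * z.s + a < i * z.s + z.s := by omega
    _ = (i + 1) * z.s := by ring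
    _ ≤ z.H * z.s := Nat.mul_le_mul_right _ hi

/-- `f` is the bit representation of the row `ρ` -/
def OH (f : ℕ → ℕ → Bool) (ρ : ℕ → ℕ) : Prop :=
  ∀ i < z.H, ∀ a < z.s, f i a = decide (ρ i = a)

/-- the link between the levels `j` and `j + 1` -/
def Link (j : ℕ) (τ : ℕ → Bool) : Prop :=
  ∀ i < z.H, ∀ a < z.s,
    (τ (vS z (j + 1)) = false → τ (vA z (j + 1) i a) = τ (vA z j i a) ∧
      τ (vB z (j + 1) i a) = τ (vM z (j + 1) i a)) ∧
    (τ (vS z (j + 1)) = true → τ (vA z (j + 1) i a) = τ (vM z (j + 1) i a) ∧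
      τ (vB z (j + 1) i a) = τ (vB z j i a))

/-- the condition at level `0` -/
def Top (acc : ℕ → Bool) (ρ₀ : ℕ → ℕ) (τ : ℕ → Bool) : Prop :=
  OH z (fun i a => τ (vA z 0 i a)) ρ₀ ∧ ∀ a < z.s, acc a = false → τ (vB z 0 0 a) = false

variable {z}

theorem eq_lt {j i a : ℕ} (hi : i < z.H) (ha : a < z.s) :
    vM z j i a < (j + 1) * z.W ∧ vS z j < (j + 1) * z.W ∧ vA z j i a < (j + 1) * z.W ∧
      vB z j i a < (j + 1) * z.W := by
  have := bit_lt z hi ha
  have e : (j + 1) * z.W = j * z.W + (3 * z.h + 1) := by unfold Sz.W; ring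
  unfold vM vS vA vB
  rw [e]
  omega

theorem mono_W {j k : ℕ} (h : j ≤ k) : j * z.W ≤ k * z.W := Nat.mul_le_mul_right _ h

theorem Link_congr {j : ℕ} {τ τ' : ℕ → Bool} (h : ∀ v < (j + 2) * z.W, τ v = τ' v) :
    Link z j τ ↔ Link z j τ' := by
  unfold Link
  refine forall_congr' fun i => forall_congr' fun hi => forall_congr' fun a =>
    forall_congr' fun ha => ?_
  obtain ⟨h1, h2, h3, h4⟩ := eq_lt (j := j + 1) hi ha
  obtain ⟨h5, h6, h7, h8⟩ := eq_lt (j := j) hi ha
  have hm := mono_W (z := z) (show j + 1 ≤ j + 2 by omega)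
  rw [h _ h1, h _ h2, h _ h3, h _ h4, h _ (by omega), h _ (by omega)]

theorem Top_congr {acc : ℕ → Bool} {ρ₀ : ℕ → ℕ} {τ τ' : ℕ → Bool} (hH : 0 < z.H)
    (h : ∀ v < z.W, τ v = τ' v) : Top z acc ρ₀ τ ↔ Top z acc ρ₀ τ' := by
  unfold Top OH
  refine and_congr ?_ ?_
  · refine forall_congr' fun i => forall_congr' fun hi => forall_congr' fun a =>
      forall_congr' fun ha => ?_
    obtain ⟨h1, h2, h3, h4⟩ := eq_lt (j := 0) hi ha
    simp only
    rw [h _ (by simpa using h3)]
  · refine forall_congr' fun a => forall_congr' fun ha => ?_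
    obtain ⟨h1, h2, h3, h4⟩ := eq_lt (j := 0) hH ha
    rw [h _ (by simpa using h4)]

end sav

section main

variable {z : Sz} {M : ℕ} {acc : ℕ → Bool} {ρ₀ : ℕ → ℕ} {nx : (ℕ → ℕ) → (ℕ → ℕ)}
  {Φ : (ℕ → Bool) → Prop}

theorem range'_level (j : ℕ) : List.range' (j * z.W) z.W =
    List.range' (j * z.W) z.h ++ ([j * z.W + z.h] ++
      List.range' (j * z.W + (z.h + 1)) (2 * z.h)) := by
  have e1 : z.W = z.h + (1 + 2 * z.h) := by unfold Sz.W; ring
  conv_lhs => rw [show (List.range' (j * z.W) z.W) = List.range' (j * z.W) (z.h + (1 + 2 * z.h)) by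
    rw [← e1]]
  rw [List.range'_append_1.symm, List.range'_append_1.symm]
  rfl

theorem flg_false {j v : ℕ} (h1 : j * z.W ≤ v) (h2 : v < (j + 1) * z.W)
    (h3 : v ≠ j * z.W + z.h) : flg z v = false := by
  have e : (j + 1) * z.W = j * z.W + z.W := by ring
  obtain ⟨r, rfl⟩ : ∃ r, v = r + j * z.W := ⟨v - j * z.W, by omega⟩
  unfold flg
  rw [Nat.add_mul_mod_self_right, Nat.mod_eq_of_lt (by omega)]
  simp only [decide_eq_false_iff_not]
  omega

theorem flg_true (j : ℕ) : flg z (j * z.W + z.h) = true := by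
  unfold flg
  rw [Nat.add_comm, Nat.add_mul_mod_self_right, Nat.mod_eq_of_lt (by unfold Sz.W; omega)]
  simp

/-- quantification over a level -/
theorem qev_level (j : ℕ) (Ψ : (ℕ → Bool) → Prop) (τ : ℕ → Bool) :
    qev (flg z) Ψ (List.range' (j * z.W) z.W) τ ↔
      ∃ f, ∀ b, ∃ g, Ψ (ovr (j * z.W + (z.h + 1)) (2 * z.h) g
        (update (ovr (j * z.W) z.h f τ) (j * z.W + z.h) b)) := by
  have e : (j + 1) * z.W = j * z.W + (3 * z.h + 1) := by unfold Sz.W; ring
  rw [range'_level, qev_append, qev_ex z.h _ (fun v h1 h2 => flg_false h1 (by omega) (by omega))]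
  refine exists_congr fun f => ?_
  rw [qev_append]
  simp only [qev]
  rw [if_pos (flg_true j)]
  refine forall_congr' fun b => ?_
  rw [qev_ex (2 * z.h) _ (fun v h1 h2 => flg_false (j := j) (by omega) (by omega) (by omega))]

/-- the rest of the levels -/
def rest (z : Sz) (M j : ℕ) : List ℕ := List.range' ((j + 1) * z.W) ((M - j) * z.W)

theorem rest_succ {j : ℕ} (hj : j < M) : rest z M j =
    List.range' ((j + 1) * z.W) z.W ++ rest z M (j + 1) := by
  unfold rest
  have e : (M - j) * z.W = z.W + (M - (j + 1)) * z.W := by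
    rw [show M - j = 1 + (M - (j + 1)) by omega]
    ring
  rw [e, ← List.range'_append_1, show (j + 1) * z.W + z.W = (j + 1 + 1) * z.W by ring]

/-- rows with values below `s` -/
def Row (z : Sz) (ρ : ℕ → ℕ) : Prop := ∀ i < z.H, ρ i < z.s

theorem OH_unique {f : ℕ → ℕ → Bool} {ρ ρ' : ℕ → ℕ} (h : Row z ρ) (h1 : OH z f ρ)
    (h2 : OH z f ρ') {i : ℕ} (hi : i < z.H) : ρ i = ρ' i := by
  have e := (h1 i hi (ρ i) (h i hi)).symm.trans (h2 i hi (ρ i) (h i hi))
  simp only [decide_true] at e
  exact (of_decide_eq_true e.symm).symm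

section hyps

variable (hH : 0 < z.H)
  (hnx : ∀ ρ, Row z ρ → Row z (nx ρ))
  (hΦ : ∀ τ, Φ τ → Top z acc ρ₀ τ ∧ ∀ j < M, Link z j τ)
  (hΦ1 : ∀ τ ρ, Row z ρ → OH z (fun i a => τ (vA z M i a)) ρ →
    (Φ τ ↔ Top z acc ρ₀ τ ∧ (∀ j < M, Link z j τ) ∧
      OH z (fun i a => τ (vB z M i a)) (nx ρ)))

include hH hΦ

theorem pre_level {j : ℕ} (hj : j ≤ M) {τ : ℕ → Bool} (h : qev (flg z) Φ (rest z M j) τ) :
    Top z acc ρ₀ τ ∧ ∀ j' < j, Link z j' τ := by
  obtain ⟨τ', h1, h2⟩ := qev_leaf _ _ h
  have h3 : ∀ v < (j + 1) * z.W, τ v = τ' v := by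
    intro v hv
    refine (h1 v ?_).symm
    unfold rest
    rw [List.mem_range'_1]
    omega
  obtain ⟨h4, h5⟩ := hΦ τ' h2
  refine ⟨(Top_congr hH fun v hv => h3 v (hv.trans_le ?_)).2 h4, fun j' hj' =>
    (Link_congr fun v hv => h3 v (hv.trans_le (mono_W (by omega)))).2 (h5 j' (by omega))⟩
  have := mono_W (z := z) (show 1 ≤ j + 1 by omega)
  omega

include hnx hΦ1

theorem level_main : ∀ (k j : ℕ), j + k = M → ∀ (τ : ℕ → Bool) (ρ : ℕ → ℕ), Row z ρ →
    OH z (fun i a => τ (vA z j i a)) ρ →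
    (qev (flg z) Φ (rest z M j) τ ↔ Top z acc ρ₀ τ ∧ (∀ j' < j, Link z j' τ) ∧
      OH z (fun i a => τ (vB z j i a)) (nx^[2 ^ k] ρ)) := by
  intro k
  induction k with
  | zero =>
    intro j hj τ ρ hρ hA
    obtain rfl : j = M := by omega
    have : rest z j j = [] := by simp [rest]
    rw [this]
    exact hΦ1 τ ρ hρ hA
  | succ k ih =>
    intro j hj τ ρ hρ hA
    have hrow : Row z (nx^[2 ^ k] ρ) := by
      generalize 2 ^ k = N
      induction N with
      | zero => exact hρ
      | succ N ih => rw [Function.iterate_succ_apply']; exact hnx _ ih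
    have epow : nx^[2 ^ (k + 1)] ρ = nx^[2 ^ k] (nx^[2 ^ k] ρ) := by
      rw [pow_succ, mul_two, Function.iterate_add_apply]
    have hih := ih (j + 1) (by omega)
    rw [rest_succ (by omega), qev_append, qev_level]
    have e : (j + 1 + 1) * z.W = (j + 1) * z.W + (3 * z.h + 1) := by unfold Sz.W; ring
    -- values of the overridden assignments
    have key : ∀ (f : ℕ → Bool) (b : Bool) (g τ3 : ℕ → Bool),
        τ3 = ovr ((j + 1) * z.W + (z.h + 1)) (2 * z.h) g
          (update (ovr ((j + 1) * z.W) z.h f τ) ((j + 1) * z.W + z.h) b) →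
        (∀ v < (j + 1) * z.W, τ3 v = τ v) ∧ τ3 (vS z (j + 1)) = b ∧
        (∀ i < z.H, ∀ a < z.s, τ3 (vM z (j + 1) i a) = f (i * z.s + a) ∧
          τ3 (vA z (j + 1) i a) = g (i * z.s + a) ∧
          τ3 (vB z (j + 1) i a) = g (z.h + (i * z.s + a))) := by
      rintro f b g τ3 rfl
      refine ⟨fun v hv => ?_, ?_, fun i hi a ha => ?_⟩
      · rw [ovr_lt (by omega), update_of_ne (by omega), ovr_lt hv]
      · simp only [vS]
        rw [ovr_lt (by omega), update_self]
      · have hb := bit_lt z hi ha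
        refine ⟨?_, ?_, ?_⟩
        · simp only [vM]
          rw [ovr_lt (by omega), update_of_ne (by omega), ovr_in hb]
        · simp only [vA]
          rw [show (j + 1) * z.W + (z.h + 1 + (i * z.s + a)) =
            (j + 1) * z.W + (z.h + 1) + (i * z.s + a) by ring, ovr_in (by omega)]
        · simp only [vB]
          rw [show (j + 1) * z.W + (2 * z.h + 1 + (i * z.s + a)) =
            (j + 1) * z.W + (z.h + 1) + (z.h + (i * z.s + a)) by ring, ovr_in (by omega)]
    constructor
    · rintro ⟨f, hf⟩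
      -- selector false
      obtain ⟨g0, hg0⟩ := hf false
      obtain ⟨g1, hg1⟩ := hf true
      obtain ⟨a1, a2, a3⟩ := key f false g0 _ rfl
      obtain ⟨b1, b2, b3⟩ := key f true g1 _ rfl
      generalize ovr ((j + 1) * z.W + (z.h + 1)) (2 * z.h) g0
        (update (ovr ((j + 1) * z.W) z.h f τ) ((j + 1) * z.W + z.h) false) = σ0 at hg0 a1 a2 a3
      generalize ovr ((j + 1) * z.W + (z.h + 1)) (2 * z.h) g1
        (update (ovr ((j + 1) * z.W) z.h f τ) ((j + 1) * z.W + z.h) true) = σ1 at hg1 b1 b2 b3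
      have p0 := pre_level (M := M) hH hΦ (by omega) hg0
      have p1 := pre_level (M := M) hH hΦ (by omega) hg1
      have l0 := p0.2 j (by omega)
      have l1 := p1.2 j (by omega)
      have hA0 : OH z (fun i a => σ0 (vA z (j + 1) i a)) ρ := by
        intro i hi a ha
        simp only
        rw [((l0 i hi a ha).1 a2).1, a1 _ (eq_lt hi ha).2.2.1]
        exact hA i hi a ha
      have h0 := ((hih σ0 ρ hρ hA0).1 hg0).2.2
      have hfM : ∀ i < z.H, ∀ a < z.s, f (i * z.s + a) = decide ((nx^[2 ^ k] ρ) i = a) := by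
        intro i hi a ha
        rw [← (a3 i hi a ha).1, ← ((l0 i hi a ha).1 a2).2]
        exact h0 i hi a ha
      have hA1 : OH z (fun i a => σ1 (vA z (j + 1) i a)) (nx^[2 ^ k] ρ) := by
        intro i hi a ha
        simp only
        rw [((l1 i hi a ha).2 b2).1, (b3 i hi a ha).1]
        exact hfM i hi a ha
      have h1 := ((hih σ1 _ hrow hA1).1 hg1).2.2
      refine ⟨(Top_congr hH fun v hv => a1 v ?_).1 p0.1, fun j' hj' =>
        (Link_congr fun v hv => a1 v ?_).1 (p0.2 j' (by omega)), fun i hi a ha => ?_⟩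
      · have := mono_W (z := z) (show 1 ≤ j + 1 by omega)
        omega
      · have := mono_W (z := z) (show j' + 2 ≤ j + 1 by omega)
        omega
      · simp only
        rw [epow, ← b1 _ (eq_lt hi ha).2.2.2, ← ((l1 i hi a ha).2 b2).2]
        exact h1 i hi a ha
    · rintro ⟨hT, hL, hB⟩
      rw [epow] at hB
      have hs : z.s = 0 ∨ 0 < z.s := Nat.eq_zero_or_pos _
      -- bit strings of rows
      let bt : (ℕ → ℕ) → ℕ → Bool := fun ρ n => decide (ρ (n / z.s) = n % z.s)
      have hbt : ∀ (ρ : ℕ → ℕ) i a, a < z.s → bt ρ (i * z.s + a) = decide (ρ i = a) := by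
        intro ρ i a ha
        simp only [bt]
        rw [Nat.add_comm, Nat.add_mul_div_right _ _ (by omega), Nat.div_eq_of_lt ha,
          Nat.add_mul_mod_self_right, Nat.mod_eq_of_lt ha, Nat.zero_add]
      refine ⟨bt (nx^[2 ^ k] ρ), fun b => ?_⟩
      let r1 : ℕ → ℕ := if b then nx^[2 ^ k] ρ else ρ
      let r2 : ℕ → ℕ := nx^[2 ^ k] r1
      let g : ℕ → Bool := fun n => if n < z.h then bt r1 n else bt r2 (n - z.h)
      refine ⟨g, ?_⟩
      obtain ⟨a1, a2, a3⟩ := key (bt (nx^[2 ^ k] ρ)) b g _ rfl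
      generalize ovr ((j + 1) * z.W + (z.h + 1)) (2 * z.h) g
        (update (ovr ((j + 1) * z.W) z.h (bt (nx^[2 ^ k] ρ)) τ) ((j + 1) * z.W + z.h) b) = σ
        at a1 a2 a3
      have hr1 : Row z r1 := by
        simp only [r1]
        split_ifs
        exacts [hrow, hρ]
      have hA' : OH z (fun i a => σ (vA z (j + 1) i a)) r1 := by
        intro i hi a ha
        simp only
        rw [(a3 i hi a ha).2.1]
        simp only [g]
        rw [if_pos (bit_lt z hi ha), hbt _ _ _ ha]
      have hB' : OH z (fun i a => σ (vB z (j + 1) i a)) (nx^[2 ^ k] r1) := by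
        intro i hi a ha
        simp only
        rw [(a3 i hi a ha).2.2]
        simp only [g]
        rw [if_neg (by omega), Nat.add_sub_cancel_left, hbt _ _ _ ha]
      rw [hih σ r1 hr1 hA']
      refine ⟨(Top_congr hH fun v hv => a1 v ?_).2 hT, fun j' hj' => ?_, hB'⟩
      · have := mono_W (z := z) (show 1 ≤ j + 1 by omega)
        omega
      · rcases Nat.lt_or_ge j' j with h1 | h1
        · refine (Link_congr fun v hv => a1 v ?_).2 (hL j' h1)
          have := mono_W (z := z) (show j' + 2 ≤ j + 1 by omega)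
          omega
        · obtain rfl : j' = j := by omega
          intro i hi a ha
          have e1 : σ (vA z j' i a) = decide (ρ i = a) := by
            rw [a1 _ (eq_lt hi ha).2.2.1]
            exact hA i hi a ha
          have e2 : σ (vB z j' i a) = decide ((nx^[2 ^ k] (nx^[2 ^ k] ρ)) i = a) := by
            rw [a1 _ (eq_lt hi ha).2.2.2]
            exact hB i hi a ha
          have e3 : σ (vM z (j' + 1) i a) = decide ((nx^[2 ^ k] ρ) i = a) := by
            rw [(a3 i hi a ha).1, hbt _ _ _ ha]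
          have e4 := hA' i hi a ha
          have e5 := hB' i hi a ha
          simp only at e4 e5
          rw [a2, e1, e2, e3, e4, e5]
          cases b
          · simp [r1]
          · simp [r1]

/-- repeated squaring -/
theorem squaring (hρ : Row z ρ₀) :
    qev (flg z) Φ (List.range ((M + 1) * z.W)) (fun _ => false) ↔
      acc ((nx^[2 ^ M] ρ₀) 0) = true := by
  have e0 : List.range ((M + 1) * z.W) = List.range' (0 * z.W) z.W ++ rest z M 0 := by
    unfold rest
    rw [List.range_eq_range', Nat.zero_mul, Nat.zero_add, Nat.sub_zero, Nat.one_mul]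
    conv_rhs => rw [show z.W = 0 + z.W by omega]
    rw [show List.range' (0 + z.W) (M * (0 + z.W)) = List.range' (0 + (0 + z.W)) (M * z.W) by
      simp only [Nat.zero_add]]
    rw [List.range'_append_1]
    congr 1
    ring
  have hrow : ∀ N, Row z (nx^[N] ρ₀) := by
    intro N
    induction N with
    | zero => exact hρ
    | succ N ih => rw [Function.iterate_succ_apply']; exact hnx _ ih
  rw [e0, qev_append, qev_level]
  have key : ∀ (f : ℕ → Bool) (b : Bool) (g τ3 : ℕ → Bool),
      τ3 = ovr (0 * z.W + (z.h + 1)) (2 * z.h) g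
        (update (ovr (0 * z.W) z.h f (fun _ => false)) (0 * z.W + z.h) b) →
      (∀ i < z.H, ∀ a < z.s, τ3 (vA z 0 i a) = g (i * z.s + a) ∧
        τ3 (vB z 0 i a) = g (z.h + (i * z.s + a))) := by
    rintro f b g τ3 rfl i hi a ha
    have hb := bit_lt z hi ha
    refine ⟨?_, ?_⟩
    · simp only [vA]
      rw [show 0 * z.W + (z.h + 1 + (i * z.s + a)) =
        0 * z.W + (z.h + 1) + (i * z.s + a) by ring, ovr_in (by omega)]
    · simp only [vB]
      rw [show 0 * z.W + (2 * z.h + 1 + (i * z.s + a)) =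
        0 * z.W + (z.h + 1) + (z.h + (i * z.s + a)) by ring, ovr_in (by omega)]
  constructor
  · rintro ⟨f, hf⟩
    obtain ⟨g, hg⟩ := hf false
    generalize ovr (0 * z.W + (z.h + 1)) (2 * z.h) g
      (update (ovr (0 * z.W) z.h f (fun _ => false)) (0 * z.W + z.h) false) = σ at hg
    have p := (pre_level (M := M) hH hΦ (Nat.zero_le _) hg).1
    have h1 := ((level_main hH hnx hΦ hΦ1 M 0 (by omega) σ ρ₀ hρ p.1).1 hg).2.2
    by_contra hacc
    rw [Bool.not_eq_true] at hacc
    have h2 := p.2 _ (hrow (2 ^ M) 0 hH) hacc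
    have h3 := h1 0 hH _ (hrow (2 ^ M) 0 hH)
    simp only [decide_true] at h3
    rw [h2] at h3
    cases h3
  · intro hacc
    let bt : (ℕ → ℕ) → ℕ → Bool := fun ρ n => decide (ρ (n / z.s) = n % z.s)
    have hbt : ∀ (ρ : ℕ → ℕ) i a, a < z.s → bt ρ (i * z.s + a) = decide (ρ i = a) := by
      intro ρ i a ha
      simp only [bt]
      rw [Nat.add_comm, Nat.add_mul_div_right _ _ (by omega), Nat.div_eq_of_lt ha,
        Nat.add_mul_mod_self_right, Nat.mod_eq_of_lt ha, Nat.zero_add]
    refine ⟨fun _ => false, fun b => ⟨fun n => if n < z.h then bt ρ₀ n else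
      bt (nx^[2 ^ M] ρ₀) (n - z.h), ?_⟩⟩
    have k1 := key (fun _ => false) b (fun n => if n < z.h then bt ρ₀ n else
      bt (nx^[2 ^ M] ρ₀) (n - z.h)) _ rfl
    generalize ovr (0 * z.W + (z.h + 1)) (2 * z.h) (fun n => if n < z.h then bt ρ₀ n else
      bt (nx^[2 ^ M] ρ₀) (n - z.h))
      (update (ovr (0 * z.W) z.h (fun _ => false) (fun _ => false)) (0 * z.W + z.h) b) = σ
      at k1
    have hA : OH z (fun i a => σ (vA z 0 i a)) ρ₀ := by
      intro i hi a ha
      simp only
      rw [(k1 i hi a ha).1, if_pos (bit_lt z hi ha), hbt _ _ _ ha]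
    have hB : OH z (fun i a => σ (vB z 0 i a)) (nx^[2 ^ M] ρ₀) := by
      intro i hi a ha
      simp only
      rw [(k1 i hi a ha).2, if_neg (by omega), Nat.add_sub_cancel_left, hbt _ _ _ ha]
    rw [level_main hH hnx hΦ hΦ1 M 0 (by omega) σ ρ₀ hρ hA]
    refine ⟨⟨hA, fun a ha h => ?_⟩, fun j' hj' => absurd hj' (by omega), hB⟩
    have := hB 0 hH a ha
    simp only at this
    rw [this, decide_eq_false_iff_not]
    rintro rfl
    rw [h] at hacc
    cases hacc

end hyps

end main

end Pool.Agent.H1.Dom
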